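import Pool.Agent.L7h20.TM4.Kav

set_option autoImplicit false

/-!
Pointwise majorisation of the window averages of the partial sums of zeta by quadratic forms.
-/

namespace Pool.Agent.L7h20.TM4

open Finset Filter Topology MeasureTheory Complex
open Pool.Agent.H306R2 Pool.Agent.H306R2.SM

noncomputable section

/-- the piecewise linear step -/
def vv (z : ℝ) : ℝ := max 0 (min 1 (1 - z))

lemma vv_cont : Continuous vv := by unfold vv; fun_prop

lemma vv_nn (z : ℝ) : 0 ≤ vv z := le_max_left _ _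

lemma vv_le (z : ℝ) : vv z ≤ 1 := max_le zero_le_one (min_le_left _ _)

lemma vv_zero {z : ℝ} (hz : 1 ≤ z) : vv z = 0 := by
  unfold vv
  rw [max_eq_left]
  exact (min_le_right _ _).trans (by linarith)

lemma vv_one {z : ℝ} (hz : z ≤ 0) : vv z = 1 := by
  unfold vv
  rw [min_eq_left (by linarith)]
  norm_num

lemma vv_mid {z : ℝ} (h0 : 0 ≤ z) (h1 : z ≤ 1) : vv z = 1 - z := by
  unfold vv
  rw [min_eq_right (by linarith), max_eq_right (by linarith)]

/-! ### the factorisation `d_{1/2} * d_{1/2} = 1` -/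

lemma dv_conv {n : ℕ} (hn : 1 ≤ n) :
    ∑ x ∈ n.divisorsAntidiagonal, dv (1 / 2) x.1 * dv (1 / 2) x.2 = 1 := by
  have h := Pool.Agent.W184.dA_pow_one (v := 2) (by norm_num) hn
  have e : (1 / ((2 : ℕ) : ℝ)) = 1 / 2 := by norm_num
  rw [pow_two, ArithmeticFunction.mul_apply, e] at h
  exact h

lemma sum_anti (N : ℕ) (F : ℕ → ℕ → ℂ) (hF : ∀ a b, N < a * b → F a b = 0) :
    ∑ a ∈ Icc 1 N, ∑ b ∈ Icc 1 N, F a b =
      ∑ k ∈ Icc 1 N, ∑ x ∈ k.divisorsAntidiagonal, F x.1 x.2 := by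
  classical
  have h1 : ∑ a ∈ Icc 1 N, ∑ b ∈ Icc 1 N, F a b =
      ∑ x ∈ (Icc 1 N ×ˢ Icc 1 N).filter (fun x => x.1 * x.2 ≤ N), F x.1 x.2 := by
    rw [← sum_product', sum_filter]
    refine sum_congr rfl fun x _ => ?_
    split_ifs with h
    · rfl
    · exact hF _ _ (not_le.1 h)
  rw [h1, ← sum_fiberwise_of_maps_to (s := (Icc 1 N ×ˢ Icc 1 N).filter (fun x => x.1 * x.2 ≤ N))
    (t := Icc 1 N) (g := fun x => x.1 * x.2)]
  · refine sum_congr rfl fun k hk => ?_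
    rw [mem_Icc] at hk
    refine sum_congr ?_ fun _ _ => rfl
    ext x
    rw [mem_filter, mem_filter, mem_product, mem_Icc, mem_Icc, Nat.mem_divisorsAntidiagonal]
    constructor
    · rintro ⟨⟨⟨⟨h1, h2⟩, h3, h4⟩, h5⟩, h6⟩
      exact ⟨h6, by omega⟩
    · rintro ⟨h6, h7⟩
      have p1 : 1 ≤ x.1 := by
        rcases Nat.eq_zero_or_pos x.1 with h | h
        · rw [h, zero_mul] at h6; omega
        · exact h
      have p2 : 1 ≤ x.2 := by
        rcases Nat.eq_zero_or_pos x.2 with h | h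
        · rw [h, mul_zero] at h6; omega
        · exact h
      have q1 : x.1 ≤ x.1 * x.2 := Nat.le_mul_of_pos_right _ p2
      have q2 : x.2 ≤ x.1 * x.2 := Nat.le_mul_of_pos_left _ p1
      exact ⟨⟨⟨⟨p1, by omega⟩, p2, by omega⟩, by omega⟩, h6⟩
  · intro x hx
    rw [mem_filter, mem_product, mem_Icc, mem_Icc] at hx
    rw [mem_Icc]
    exact ⟨Nat.mul_pos hx.1.1.1 hx.1.2.1, hx.2⟩

lemma mo_mul (m n : ℕ) (t : ℝ) : mo (m * n) t = mo m t * mo n t := by
  unfold mo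
  rw [← Complex.natCast_mul_natCast_cpow, Nat.cast_mul]

/-- the averaged partial sum -/
def UU (N : ℕ) (D H t : ℝ) : ℂ := ∑ n ∈ Icc 1 N, ((vv ((Real.log n - D) / H) : ℝ) : ℂ) * mo n t

lemma UU_bil {N : ℕ} {D H : ℝ} (hH : 0 < H) (hN : Real.exp (D + H) ≤ N) (t : ℝ) :
    UU N D H t = ∑ m ∈ Icc 1 N, ∑ n ∈ Icc 1 N, (dv (1 / 2) m : ℂ) * (dv (1 / 2) n : ℂ) *
      ((vv ((Real.log m + Real.log n - D) / H) : ℝ) : ℂ) * (mo m t * mo n t) := by
  have hz : ∀ a b : ℕ, N < a * b → vv ((Real.log a + Real.log b - D) / H) = 0 := by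
    intro a b hab
    apply vv_zero
    rw [le_div_iff₀ hH]
    have a0 : (a : ℝ) ≠ 0 := by
      intro h
      have : a = 0 := by exact_mod_cast h
      rw [this, zero_mul] at hab; omega
    have b0 : (b : ℝ) ≠ 0 := by
      intro h
      have : b = 0 := by exact_mod_cast h
      rw [this, mul_zero] at hab; omega
    rw [← Real.log_mul a0 b0]
    have h1 : Real.exp (D + H) ≤ (a : ℝ) * b := by
      refine hN.trans ?_
      exact_mod_cast hab.le
    have h2 := Real.log_le_log (Real.exp_pos _) h1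
    rw [Real.log_exp] at h2
    linarith
  rw [sum_anti N (fun m n => (dv (1 / 2) m : ℂ) * (dv (1 / 2) n : ℂ) *
      ((vv ((Real.log m + Real.log n - D) / H) : ℝ) : ℂ) * (mo m t * mo n t))
    (fun a b hab => by rw [hz a b hab]; simp)]
  unfold UU
  refine sum_congr rfl fun k hk => ?_
  rw [mem_Icc] at hk
  have h1 : ∀ x ∈ k.divisorsAntidiagonal, (dv (1 / 2) x.1 : ℂ) * (dv (1 / 2) x.2 : ℂ) *
      ((vv ((Real.log x.1 + Real.log x.2 - D) / H) : ℝ) : ℂ) * (mo x.1 t * mo x.2 t) =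
      ((dv (1 / 2) x.1 * dv (1 / 2) x.2 : ℝ) : ℂ) *
        (((vv ((Real.log k - D) / H) : ℝ) : ℂ) * mo k t) := by
    intro x hx
    rw [Nat.mem_divisorsAntidiagonal] at hx
    have p1 : x.1 ≠ 0 := by rintro h; rw [h, zero_mul] at hx; omega
    have p2 : x.2 ≠ 0 := by rintro h; rw [h, mul_zero] at hx; omega
    rw [← mo_mul, hx.1, ← Real.log_mul (by exact_mod_cast p1) (by exact_mod_cast p2)]
    have e : ((x.1 : ℝ) * (x.2 : ℝ)) = (k : ℝ) := by exact_mod_cast hx.1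
    rw [e]
    push_cast
    ring
  rw [sum_congr rfl h1, ← sum_mul, ← Complex.ofReal_sum, dv_conv hk.1]
  simp

/-! ### the staircase average -/

/-- the staircase -/
def cz (i j : ℤ) : ℝ := if i + j ≤ 15 then 1 else 0

lemma step_int (c : ℝ) : ∫ w in (0:ℝ)..1, (if c < w then (1:ℝ) else 0) = vv c := by
  have hm : Measurable (fun w : ℝ => if c < w then (1:ℝ) else 0) :=
    Measurable.ite measurableSet_Ioi measurable_const measurable_const
  have hi : ∀ a b : ℝ, IntervalIntegrable (fun w : ℝ => if c < w then (1:ℝ) else 0) volume a b :=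
    fun a b => bdd_ii hm (C := 1) (fun w => by split_ifs <;> norm_num) a b
  rcases le_or_gt c 0 with h | h
  · rw [vv_one h]
    have : ∫ w in (0:ℝ)..1, (if c < w then (1:ℝ) else 0) = ∫ w in (0:ℝ)..1, (1:ℝ) := by
      refine intervalIntegral.integral_congr_ae (Eventually.of_forall fun w hw => ?_)
      rw [Set.uIoc_of_le (by norm_num : (0:ℝ) ≤ 1)] at hw
      rw [if_pos (lt_of_le_of_lt h hw.1)]
    rw [this]; simp
  · rcases le_or_gt 1 c with h1 | h1
    · rw [vv_zero h1]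
      have : ∫ w in (0:ℝ)..1, (if c < w then (1:ℝ) else 0) = ∫ w in (0:ℝ)..1, (0:ℝ) := by
        refine intervalIntegral.integral_congr_ae (Eventually.of_forall fun w hw => ?_)
        rw [Set.uIoc_of_le (by norm_num : (0:ℝ) ≤ 1)] at hw
        rw [if_neg (not_lt.2 (hw.2.trans h1))]
      rw [this]; simp
    · rw [vv_mid h.le h1.le, ← intervalIntegral.integral_add_adjacent_intervals (hi 0 c) (hi c 1)]
      have e1 : ∫ w in (0:ℝ)..c, (if c < w then (1:ℝ) else 0) = ∫ w in (0:ℝ)..c, (0:ℝ) := by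
        refine intervalIntegral.integral_congr_ae (Eventually.of_forall fun w hw => ?_)
        rw [Set.uIoc_of_le h.le] at hw
        rw [if_neg (not_lt.2 hw.2)]
      have e2 : ∫ w in c..(1:ℝ), (if c < w then (1:ℝ) else 0) = ∫ w in c..(1:ℝ), (1:ℝ) := by
        refine intervalIntegral.integral_congr_ae (Eventually.of_forall fun w hw => ?_)
        rw [Set.uIoc_of_le h1.le] at hw
        rw [if_pos hw.1]
      rw [e1, e2]
      simp

lemma stair_int (x y : ℝ) : ∫ u in (0:ℝ)..1, cz (⌊x - u⌋ + 1) (⌊y + u⌋ + 1) = vv (x + y - 14) := by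
  set g : ℝ → ℝ := fun w => if ⌊w⌋ + ⌊x + y - w⌋ < 14 then (1:ℝ) else 0 with hg
  have hp : Function.Periodic g 1 := by
    intro w
    rw [hg]
    simp only
    have e1 : ⌊w + 1⌋ = ⌊w⌋ + 1 := Int.floor_add_one w
    have e2 : ⌊x + y - (w + 1)⌋ = ⌊x + y - w⌋ - 1 := by
      rw [show x + y - (w + 1) = (x + y - w) - 1 by ring]
      exact Int.floor_sub_one _
    rw [e1, e2]
    congr 1
    apply propext
    constructor <;> intro h <;> omega
  have h1 : ∫ u in (0:ℝ)..1, cz (⌊x - u⌋ + 1) (⌊y + u⌋ + 1) = ∫ u in (0:ℝ)..1, g (x - u) := by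
    refine intervalIntegral.integral_congr fun u _ => ?_
    rw [hg]
    unfold cz
    simp only
    rw [show x + y - (x - u) = y + u by ring]
    congr 1
    apply propext
    constructor <;> intro h <;> omega
  rw [h1, intervalIntegral.integral_comp_sub_left g x, sub_zero]
  have h2 := hp.intervalIntegral_add_eq (x - 1) 0
  rw [sub_add_cancel, zero_add] at h2
  rw [h2, ← step_int]
  refine intervalIntegral.integral_congr_ae ?_
  have h3 : ∀ᵐ w : ℝ, w ≠ 1 := by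
    rw [ae_iff]; simp
  filter_upwards [h3] with w hw1 hw
  rw [Set.uIoc_of_le (by norm_num : (0:ℝ) ≤ 1)] at hw
  rw [hg]
  simp only
  have e0 : ⌊w⌋ = 0 := by
    rw [Int.floor_eq_iff]
    push_cast
    exact ⟨hw.1.le, by linarith [lt_of_le_of_ne hw.2 hw1]⟩
  rw [e0, zero_add]
  congr 1
  apply propext
  rw [Int.floor_lt]
  push_cast
  constructor <;> intro h <;> linarith

lemma cz_nn (i j : ℤ) : 0 ≤ cz i j := by unfold cz; split_ifs <;> norm_num

lemma cz_le (i j : ℤ) : cz i j ≤ 1 := by unfold cz; split_ifs <;> norm_num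

/-! ### sums over cells -/

lemma AZ_sum (A : ℕ → ℕ → ℝ) (ι κ : ℕ → ℤ) (m n : ℕ) (x : ℂ) (AZ : ℤ → ℤ → ℝ)
    (hA1 : ∀ i j : ℕ, i < 16 → j < 16 → AZ i j = A i j)
    (hA2 : ∀ i j : ℤ, 0 ≤ i → 0 ≤ j → (16 ≤ i ∨ 16 ≤ j) → AZ i j = 0)
    (hι : 0 ≤ ι m) (hκ : 0 ≤ κ n) :
    (dv (1 / 2) m : ℂ) * (dv (1 / 2) n : ℂ) * (AZ (ι m) (κ n) : ℂ) * x =
      ∑ i ∈ range 16, ∑ j ∈ range 16, (A i j : ℂ) * ((ac ι i m : ℂ) * (ac κ j n : ℂ) * x) := by
  obtain ⟨i, hi⟩ := Int.eq_ofNat_of_zero_le hι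
  obtain ⟨j, hj⟩ := Int.eq_ofNat_of_zero_le hκ
  rw [hi, hj]
  by_cases h : i < 16 ∧ j < 16
  · rw [sum_eq_single i]
    · rw [sum_eq_single j]
      · unfold ac
        rw [hi, hj, if_pos rfl, if_pos rfl, hA1 i j h.1 h.2]
        ring
      · intro b _ hb
        unfold ac
        rw [if_neg (c := κ n = (b : ℤ))]
        · push_cast; ring
        · rw [hj]; intro h; exact hb (by exact_mod_cast h.symm)
      · intro hb
        exfalso
        exact hb (mem_range.2 h.2)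
    · intro b _ hb
      refine sum_eq_zero fun j' _ => ?_
      unfold ac
      rw [if_neg (c := ι m = (b : ℤ))]
      · push_cast; ring
      · rw [hi]; intro h; exact hb (by exact_mod_cast h.symm)
    · intro hb
      exfalso
      exact hb (mem_range.2 h.1)
  · rw [hA2 _ _ (by omega) (by omega) (by omega)]
    rw [Complex.ofReal_zero, mul_zero, zero_mul]
    symm
    refine sum_eq_zero fun i' hi' => sum_eq_zero fun j' hj' => ?_
    rw [mem_range] at hi' hj'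
    unfold ac
    by_cases hm : ι m = (i' : ℤ)
    · by_cases hn : κ n = (j' : ℤ)
      · exfalso
        apply h
        rw [hi] at hm
        rw [hj] at hn
        omega
      · rw [if_neg hn]; push_cast; ring
    · rw [if_neg hm]; push_cast; ring

/-- the quadratic form of the cells `ι` -/
def QZ (ι : ℕ → ℤ) (N : ℕ) (t : ℝ) : ℝ :=
  ∑ m ∈ Icc 1 N, ∑ n ∈ Icc 1 N, dv (1 / 2) m * dv (1 / 2) n * XZ (ι m) (ι n) * rr m n t

lemma QZ_eq (ι : ℕ → ℤ) (N : ℕ) (t : ℝ) : QZ ι N t = ∑ i ∈ range 16, ∑ j ∈ range 16,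
    Xm i j * ((∑ m ∈ Icc 1 N, (ac ι i m : ℂ) * mo m t) *
      (starRingEnd ℂ) (∑ m ∈ Icc 1 N, (ac ι j m : ℂ) * mo m t)).re := by
  unfold QZ
  simp only [XZ_sum]
  have h1 : ∀ i j, ((∑ m ∈ Icc 1 N, (ac ι i m : ℂ) * mo m t) *
      (starRingEnd ℂ) (∑ m ∈ Icc 1 N, (ac ι j m : ℂ) * mo m t)).re =
      ∑ m ∈ Icc 1 N, ∑ n ∈ Icc 1 N, ac ι i m * ac ι j n * rr m n t := by
    intro i j
    rw [map_sum, sum_mul, Complex.re_sum]
    refine sum_congr rfl fun m _ => ?_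
    rw [mul_sum, Complex.re_sum]
    refine sum_congr rfl fun n _ => ?_
    rw [map_mul, Complex.conj_ofReal]
    unfold rr
    have e : (ac ι i m : ℂ) * mo m t * ((ac ι j n : ℂ) * (starRingEnd ℂ) (mo n t)) =
        ((ac ι i m * ac ι j n : ℝ) : ℂ) * (mo m t * (starRingEnd ℂ) (mo n t)) := by push_cast; ring
    rw [e, Complex.re_ofReal_mul]
  simp only [h1]
  have e1 : ∑ m ∈ Icc 1 N, ∑ n ∈ Icc 1 N, ∑ i ∈ range 16, ∑ j ∈ range 16,
      Xm i j * (ac ι i m * ac ι j n * rr m n t) =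
      ∑ y ∈ Icc 1 N ×ˢ Icc 1 N, ∑ x ∈ range 16 ×ˢ range 16,
        Xm x.1 x.2 * (ac ι x.1 y.1 * ac ι x.2 y.2 * rr y.1 y.2 t) := by
    rw [sum_product]
    refine sum_congr rfl fun m _ => sum_congr rfl fun n _ => ?_
    rw [sum_product]
  rw [e1, sum_comm, sum_product]
  refine sum_congr rfl fun i _ => sum_congr rfl fun j _ => ?_
  rw [mul_sum, sum_product]
  refine sum_congr rfl fun m _ => ?_
  rw [mul_sum]

lemma QZ_nn (hC : P_CELL) (ι : ℕ → ℤ) (N : ℕ) (t : ℝ) : 0 ≤ QZ ι N t := by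
  rw [QZ_eq]
  have h := hC (fun i => ∑ m ∈ Icc 1 N, (ac ι i m : ℂ) * mo m t)
    (fun i => ∑ m ∈ Icc 1 N, (ac ι i m : ℂ) * mo m t)
  have h3 := (mul_nonneg (zero_le_two (α := ℝ)) (norm_nonneg _)).trans h
  linarith

/-- the staircase form is dominated -/
lemma stair_le (hC : P_CELL) (ι κ : ℕ → ℤ) (hι : ∀ m, 1 ≤ m → 0 ≤ ι m) (hκ : ∀ n, 1 ≤ n → 0 ≤ κ n)
    (N : ℕ) (t : ℝ) :
    ‖∑ m ∈ Icc 1 N, ∑ n ∈ Icc 1 N, (dv (1 / 2) m : ℂ) * (dv (1 / 2) n : ℂ) *
      (cz (ι m) (κ n) : ℂ) * (mo m t * mo n t)‖ ≤ 1 / 2 * (QZ ι N t + QZ κ N t) := by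
  have e : ∑ m ∈ Icc 1 N, ∑ n ∈ Icc 1 N, (dv (1 / 2) m : ℂ) * (dv (1 / 2) n : ℂ) *
      (cz (ι m) (κ n) : ℂ) * (mo m t * mo n t) =
      ∑ i ∈ range 16, ∑ j ∈ range 16, (cm i j : ℂ) *
        ((∑ m ∈ Icc 1 N, (ac ι i m : ℂ) * mo m t) * (∑ n ∈ Icc 1 N, (ac κ j n : ℂ) * mo n t)) := by
    have h1 : ∀ m ∈ Icc 1 N, ∀ n ∈ Icc 1 N, (dv (1 / 2) m : ℂ) * (dv (1 / 2) n : ℂ) *
        (cz (ι m) (κ n) : ℂ) * (mo m t * mo n t) = ∑ i ∈ range 16, ∑ j ∈ range 16,
          (cm i j : ℂ) * ((ac ι i m : ℂ) * (ac κ j n : ℂ) * (mo m t * mo n t)) := by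
      intro m hm n hn
      rw [mem_Icc] at hm hn
      refine AZ_sum cm ι κ m n _ cz ?_ ?_ (hι m hm.1) (hκ n hn.1)
      · intro i j _ _
        unfold cz cm
        congr 1
        apply propext
        constructor <;> intro h <;> omega
      · intro i j hi hj h
        unfold cz
        rw [if_neg (by omega)]
    rw [sum_congr rfl fun m hm => sum_congr rfl fun n hn => h1 m hm n hn]
    have e1 : ∑ m ∈ Icc 1 N, ∑ n ∈ Icc 1 N, ∑ i ∈ range 16, ∑ j ∈ range 16,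
        (cm i j : ℂ) * ((ac ι i m : ℂ) * (ac κ j n : ℂ) * (mo m t * mo n t)) =
        ∑ y ∈ Icc 1 N ×ˢ Icc 1 N, ∑ x ∈ range 16 ×ˢ range 16,
          (cm x.1 x.2 : ℂ) * ((ac ι x.1 y.1 : ℂ) * (ac κ x.2 y.2 : ℂ) * (mo y.1 t * mo y.2 t)) := by
      rw [sum_product]
      refine sum_congr rfl fun m _ => sum_congr rfl fun n _ => ?_
      rw [sum_product]
    rw [e1, sum_comm, sum_product]
    refine sum_congr rfl fun i _ => sum_congr rfl fun j _ => ?_
    rw [sum_mul_sum, mul_sum, sum_product]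
    refine sum_congr rfl fun m _ => ?_
    rw [mul_sum]
    refine sum_congr rfl fun n _ => ?_
    ring
  rw [e, QZ_eq, QZ_eq]
  have h := hC (fun i => ∑ m ∈ Icc 1 N, (ac ι i m : ℂ) * mo m t)
    (fun j => ∑ n ∈ Icc 1 N, (ac κ j n : ℂ) * mo n t)
  linarith

end

end Pool.Agent.L7h20.TM4
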