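import Pool.Agent.L7h20.TM4.Gs

set_option autoImplicit false

/-!
The averaged approximate functional equation.
-/

namespace Pool.Agent.L7h20.TM4

open Finset Filter Topology MeasureTheory Complex
open Pool.Agent.H306R2 Pool.Agent.H306R2.SM
open Pool.Agent.TH806.N4 (P_AFE)
open Pool.Agent.H448R2.GC (cu cu_nonneg cu_le_one cu_cont cs XX)
open Pool.Agent.TH110.N4_AFP (gs gs_cont cs_ext one_sub_cl norm_XX_cl)

noncomputable section

/-- the logarithm of the conductor -/
def lt (t : ℝ) : ℝ := Real.log (t / (2 * Real.pi))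

lemma XX_conj_mul (t : ℝ) (z : ℂ) :
    XX (1 - cl t) * (starRingEnd ℂ) (XX (1 - cl t) * (starRingEnd ℂ) z) = z := by
  rw [map_mul, Complex.conj_conj, ← mul_assoc, Complex.mul_conj, Complex.normSq_eq_norm_sq,
    norm_XX_cl]
  simp

lemma lt_bd {T t : ℝ} (hT : 0 < T) (h1 : T / 8 ≤ t) (h2 : t ≤ 8 * T) :
    Real.log T - 4 ≤ lt t ∧ lt t ≤ Real.log T + 1 / 3 := by
  have hpi := Real.pi_pos
  have ht : 0 < t := by linarith
  have hp3 := Real.pi_gt_three
  have hp4 := Real.pi_lt_d2
  unfold lt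
  constructor
  · rw [Real.le_log_iff_exp_le (by positivity), Real.exp_sub, Real.exp_log hT,
      div_le_div_iff₀ (Real.exp_pos 4) (by positivity)]
    have h4 : (16 * 3.15 : ℝ) ≤ Real.exp 4 := by
      have h := Real.exp_one_gt_d9
      have e : Real.exp 4 = Real.exp 1 ^ 4 := by rw [← Real.exp_nat_mul]; norm_num
      rw [e]
      have : (2.7182818283 : ℝ) ^ 4 ≤ Real.exp 1 ^ 4 := pow_le_pow_left₀ (by norm_num) h.le 4
      refine le_trans ?_ this
      norm_num
    calc T * (2 * Real.pi) ≤ T * (2 * 3.15) := by gcongr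
      _ = T / 8 * (16 * 3.15) := by ring
      _ ≤ t * Real.exp 4 := by gcongr
  · rw [Real.log_le_iff_le_exp (by positivity), Real.exp_add, Real.exp_log hT,
      div_le_iff₀ (by positivity)]
    have h4 : (4 / 3 : ℝ) ≤ Real.exp (1 / 3) := by
      have := Real.add_one_le_exp (1 / 3 : ℝ)
      linarith
    calc t ≤ 8 * T := h2
      _ = T * (4 / 3) * (2 * 3) := by ring
      _ ≤ T * Real.exp (1 / 3) * (2 * Real.pi) := by gcongr

/-- the approximate functional equation with all lengths up to `T^{11/20}` -/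
theorem afe_ext (h : P_AFE) {η : ℝ} (hη : 0 < η) (hη1 : η ≤ 1 / 100) : ∃ k₀ : ℕ, ∀ K : ℕ, k₀ ≤ K →
    ∀ᶠ T : ℝ in atTop, ∀ t : ℝ, T / 8 ≤ t → t ≤ 8 * T → ∀ D : ℝ, 0 ≤ D → D ≤ 11 / 20 * Real.log T →
      ‖riemannZeta (cl t) - cs K (η * Real.log T / K) D (cl t) - XX (1 - cl t) *
        (starRingEnd ℂ) (cs K (η * Real.log T / K) (lt t - D - η * Real.log T) (cl t))‖ ≤
        3 * T ^ (-(1 / 5) : ℝ) := by
  obtain ⟨k₀, hk₀⟩ := h η hη hη1
  refine ⟨k₀, fun K hK => ?_⟩
  obtain ⟨T₀, hT₀⟩ := hk₀ K hK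
  filter_upwards [eventually_ge_atTop T₀, eventually_gt_atTop 1,
    Real.tendsto_log_atTop.eventually_ge_atTop (1 / η + 10)] with T hT hT1 hL t ht1 ht2 D hD0 hD1
  have hT0 : 0 < T := by linarith
  have hηL : 1 ≤ η * Real.log T := by
    have : η * (1 / η + 10) ≤ η * Real.log T := mul_le_mul_of_nonneg_left hL hη.le
    have e : η * (1 / η + 10) = 1 + 10 * η := by field_simp
    linarith
  set L := Real.log T with hLd
  have hL10 : 10 ≤ L := by
    have : 0 < 1 / η := by positivity
    linarith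
  have hηL' : η * L ≤ 1 / 100 * L := by nlinarith
  obtain ⟨l1, l2⟩ := lt_bd hT0 ht1 ht2
  rw [← hLd] at l1 l2
  have hlt0 : 1 / 100 * L ≤ lt t - 1 / 2 * L := by
    have h1 : 1 / η ≥ 100 := by
      rw [ge_iff_le, le_div_iff₀ hη]; linarith
    linarith
  set c := η * L / K with hc
  set X := XX (1 - cl t) with hX
  set z := riemannZeta (cl t) with hz
  set e := T ^ (-(1 / 5) : ℝ) with he
  have he0 : 0 ≤ e := by positivity
  have hX1 : ‖X‖ = 1 := norm_XX_cl t
  have base : ∀ D : ℝ, 0 ≤ D → D ≤ 1 / 2 * L →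
      ‖z - cs K c D (cl t) - X * (starRingEnd ℂ) (cs K c (lt t - D - η * L) (cl t))‖ ≤ e := by
    intro D h1 h2
    have := hT₀ T hT t ht1 ht2 D h1 h2
    rw [one_sub_cl, Pool.Agent.H448R2.GC.M1.cs_conj, ← one_sub_cl] at this
    exact this
  have conj : ∀ a b : ℂ, ‖z - a - X * (starRingEnd ℂ) b‖ ≤ e →
      ‖X * (starRingEnd ℂ) z - X * (starRingEnd ℂ) a - b‖ ≤ e := by
    intro a b h
    have h1 : X * (starRingEnd ℂ) (z - a - X * (starRingEnd ℂ) b) =
        X * (starRingEnd ℂ) z - X * (starRingEnd ℂ) a - b := by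
      rw [map_sub, map_sub, mul_sub, mul_sub, hX, XX_conj_mul]
    rw [← h1, norm_mul, hX1, one_mul, RCLike.norm_conj]
    exact h
  rcases le_or_gt D (1 / 2 * L) with hD | hD
  · have := base D hD0 hD
    linarith
  · -- the functional equation up to the error
    have f1 : ‖z - X * (starRingEnd ℂ) z‖ ≤ 2 * e := by
      have h1 := base ((lt t - η * L) / 2) (by linarith) (by linarith)
      rw [show lt t - (lt t - η * L) / 2 - η * L = (lt t - η * L) / 2 by ring] at h1
      have h2 := conj _ _ h1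
      set S := cs K c ((lt t - η * L) / 2) (cl t)
      have h3 : z - X * (starRingEnd ℂ) z = (z - S - X * (starRingEnd ℂ) S) -
          (X * (starRingEnd ℂ) z - X * (starRingEnd ℂ) S - S) := by ring
      rw [h3]
      refine (norm_sub_le _ _).trans ?_
      linarith
    have h1 := base (lt t - D - η * L) (by
        have h1 : 1 / η ≥ 100 := by
          rw [ge_iff_le, le_div_iff₀ hη]; linarith
        linarith) (by linarith)
    rw [show lt t - (lt t - D - η * L) - η * L = D by ring] at h1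
    have h2 := conj _ _ h1
    have h3 : z - cs K c D (cl t) - X * (starRingEnd ℂ) (cs K c (lt t - D - η * L) (cl t)) =
        (z - X * (starRingEnd ℂ) z) + (X * (starRingEnd ℂ) z -
          X * (starRingEnd ℂ) (cs K c (lt t - D - η * L) (cl t)) - cs K c D (cl t)) := by ring
    rw [h3]
    refine (norm_add_le _ _).trans ?_
    linarith

/-! ### averages -/

lemma int_sub_le {g : ℝ → ℂ} (hg : Continuous g) {a b p q : ℝ} (hpq : p ≤ q)
    (ha : a ∈ Set.Icc p q) (hb : b ∈ Set.Icc p q) :
    ‖∫ v in a..b, g v‖ ≤ ∫ v in p..q, ‖g v‖ := by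
  refine (intervalIntegral.norm_integral_le_integral_norm_uIoc).trans ?_
  rw [intervalIntegral.integral_of_le hpq]
  refine setIntegral_mono_set ?_ (Eventually.of_forall fun _ => norm_nonneg _) ?_
  · have := hg.norm.intervalIntegrable (μ := volume) p q
    rwa [intervalIntegrable_iff_integrableOn_Ioc_of_le hpq] at this
  · refine LE.le.eventuallyLE ?_
    intro x hx
    rw [Set.mem_uIoc] at hx
    rcases hx with hx | hx
    · exact ⟨lt_of_le_of_lt ha.1 hx.1, hx.2.trans hb.2⟩
    · exact ⟨lt_of_le_of_lt hb.1 hx.1, hx.2.trans ha.2⟩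

lemma gs_avg (N k : ℕ) {c : ℝ} (hc : 0 < c) {H : ℝ} (hH : 0 < H) (D t : ℝ) :
    ∫ v in D..(D + H), gs N (k + 1) c (cl t) v = (H : ℂ) * WW N (k + 1) c H D t := by
  have hcc : ∀ n : ℕ, Continuous (fun v : ℝ => ((cu (k + 1) c (Real.log n - v) : ℝ) : ℂ)) :=
    fun n => Complex.continuous_ofReal.comp ((cu_cont k c hc).comp (by fun_prop))
  simp only [gs_mo]
  rw [intervalIntegral.integral_finsetSum (fun n _ => ((hcc n).intervalIntegrable _ _).mul_const _)]
  unfold WW
  rw [mul_sum]
  refine sum_congr rfl fun n _ => ?_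
  rw [intervalIntegral.integral_mul_const, intervalIntegral.integral_ofReal]
  have h1 : ∫ v in D..(D + H), cu (k + 1) c (Real.log n - v) =
      H * uk (k + 1) c H (Real.log n - D) := by
    unfold uk
    have h := intervalIntegral.integral_comp_add_left (a := 0) (b := H)
      (fun v => cu (k + 1) c (Real.log n - v)) D
    rw [add_zero] at h
    rw [← h]
    have e : ∀ x : ℝ, Real.log n - (D + x) = Real.log n - D - x := fun x => by ring
    simp only [e]
    field_simp
  rw [h1]
  push_cast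
  ring

/-- the averaged approximate functional equation -/
theorem avg_afe {z X : ℂ} {e : ℝ} {N k : ℕ} {c : ℝ} (hc : 0 < c) {H : ℝ} (hH : 0 < H)
    {D lam t : ℝ} (hlam : |lam| ≤ 4) (hX : ‖X‖ = 1)
    (h : ∀ v ∈ Set.Icc D (D + H), ‖z - gs N (k + 1) c (cl t) v -
      X * (starRingEnd ℂ) (gs N (k + 1) c (cl t) (2 * D + H + lam - v))‖ ≤ e) :
    ‖z‖ ≤ 2 * ‖WW N (k + 1) c H D t‖ + 1 / H * (∫ v in (D - 4)..(D + 4), ‖gs N (k + 1) c (cl t) v‖) +
      1 / H * (∫ v in (D + H - 4)..(D + H + 4), ‖gs N (k + 1) c (cl t) v‖) + e := by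
  set g : ℝ → ℂ := fun v => gs N (k + 1) c (cl t) v with hg
  have hgc : Continuous g := gs_cont N k c hc (cl t)
  have hl := abs_le.1 hlam
  have hg2 : Continuous (fun v => X * (starRingEnd ℂ) (g (2 * D + H + lam - v))) :=
    continuous_const.mul (Complex.continuous_conj.comp (hgc.comp (by fun_prop)))
  have i1 : ∫ v in D..(D + H), (z - g v - X * (starRingEnd ℂ) (g (2 * D + H + lam - v))) =
      (H : ℂ) * z - (∫ v in D..(D + H), g v) -
        X * (starRingEnd ℂ) (∫ v in (D + lam)..(D + lam + H), g v) := by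
    rw [intervalIntegral.integral_sub, intervalIntegral.integral_sub,
      intervalIntegral.integral_const, intervalIntegral.integral_const_mul]
    · have e1 : ∫ v in D..(D + H), (starRingEnd ℂ) (g (2 * D + H + lam - v)) =
          (starRingEnd ℂ) (∫ v in (D + lam)..(D + lam + H), g v) := by
        rw [← intervalIntegral.intervalIntegral_conj]
        have h1 := intervalIntegral.integral_comp_sub_left (a := D) (b := D + H)
          (fun v => (starRingEnd ℂ) (g v)) (2 * D + H + lam)
        rw [show 2 * D + H + lam - (D + H) = D + lam by ring,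
          show 2 * D + H + lam - D = D + lam + H by ring] at h1
        exact h1
      rw [e1]
      simp
    · exact continuous_const.intervalIntegrable _ _
    · exact hgc.intervalIntegrable _ _
    · exact (continuous_const.sub hgc).intervalIntegrable _ _
    · exact hg2.intervalIntegrable _ _
  have i2 : ‖∫ v in D..(D + H), (z - g v - X * (starRingEnd ℂ) (g (2 * D + H + lam - v)))‖ ≤
      e * H := by
    have h1 := intervalIntegral.norm_integral_le_of_norm_le_const (a := D) (b := D + H) (C := e)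
      (f := fun v => z - g v - X * (starRingEnd ℂ) (g (2 * D + H + lam - v))) (fun v hv => by
        rw [Set.uIoc_of_le (by linarith)] at hv
        exact h v ⟨hv.1.le, hv.2⟩)
    rwa [show D + H - D = H by ring, abs_of_pos hH] at h1
  rw [i1] at i2
  set A := ∫ v in D..(D + H), g v with hA
  set B := ∫ v in (D + lam)..(D + lam + H), g v with hB
  have i3 : ‖B - A‖ ≤ (∫ v in (D - 4)..(D + 4), ‖g v‖) + ∫ v in (D + H - 4)..(D + H + 4), ‖g v‖ := by
    have h1 : B - A = (∫ v in (D + lam)..D, g v) - ∫ v in (D + lam + H)..(D + H), g v := by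
      rw [hA, hB]
      exact intervalIntegral.integral_interval_sub_interval_comm (hgc.intervalIntegrable _ _)
        (hgc.intervalIntegrable _ _) (hgc.intervalIntegrable _ _)
    rw [h1]
    refine (norm_sub_le _ _).trans (add_le_add ?_ ?_)
    · exact int_sub_le hgc (by linarith) ⟨by linarith [hl.1], by linarith [hl.2]⟩
        ⟨by linarith, by linarith⟩
    · exact int_sub_le hgc (by linarith) ⟨by linarith [hl.1], by linarith [hl.2]⟩
        ⟨by linarith, by linarith⟩
  have i4 : A = (H : ℂ) * WW N (k + 1) c H D t := gs_avg N k hc hH D t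
  have i5 : ‖A‖ = H * ‖WW N (k + 1) c H D t‖ := by
    rw [i4, norm_mul, Complex.norm_real, Real.norm_of_nonneg hH.le]
  have i6 : ‖(H : ℂ) * z‖ = H * ‖z‖ := by
    rw [norm_mul, Complex.norm_real, Real.norm_of_nonneg hH.le]
  have i7 : ‖(H : ℂ) * z‖ ≤ e * H + ‖A‖ + ‖B‖ := by
    have h1 : (H : ℂ) * z = ((H : ℂ) * z - A - X * (starRingEnd ℂ) B) + A + X * (starRingEnd ℂ) B := by
      ring
    rw [h1]
    refine (norm_add_le _ _).trans (add_le_add ((norm_add_le _ _).trans (add_le_add_left i2 _)) ?_)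
    rw [norm_mul, hX, one_mul, RCLike.norm_conj]
  have i8 : ‖B‖ ≤ ‖A‖ + ‖B - A‖ := by
    have h1 : B = A + (B - A) := by ring
    calc ‖B‖ = ‖A + (B - A)‖ := by rw [← h1]
      _ ≤ _ := norm_add_le _ _
  rw [i6] at i7
  rw [i5] at i7 i8
  set P := ∫ v in (D - 4)..(D + 4), ‖g v‖ with hP
  set Q := ∫ v in (D + H - 4)..(D + H + 4), ‖g v‖ with hQ
  have i9 : H * ‖z‖ ≤ H * (2 * ‖WW N (k + 1) c H D t‖ + 1 / H * P + 1 / H * Q + e) := by
    have : H * (2 * ‖WW N (k + 1) c H D t‖ + 1 / H * P + 1 / H * Q + e) =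
        2 * (H * ‖WW N (k + 1) c H D t‖) + P + Q + e * H := by
      field_simp
    rw [this]
    linarith
  exact le_of_mul_le_mul_left i9 hH

end

end Pool.Agent.L7h20.TM4
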