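import Mathlib

set_option autoImplicit false

/-!
TM4 (helper20): upper bound `8/5` for the third moment of zeta. The cell matrix.

`V(α + β)`, the smoothed indicator of `α + β < 1/2`, is an average of staircases
`∑_{i + j ≤ 15} 1[α in cell i] 1[β in cell j]` with cells of length `1/29`. The matrix
`c i j = [i + j ≤ 15]` is dominated by the positive semidefinite matrix `X`: `X + c ≥ 0`, `X - c ≥ 0`.
-/

namespace Pool.Agent.L7h20.TM4

/-- the Toeplitz part of `X`, in thousandths -/
def Fl : List ℤ := [2253, 1557, 1240, 1030, 922, 880, 865, 851, 825, 781, 725, 674, 645, 628, 605, 557,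
  560, 560]

/-- the Toeplitz part of `X` -/
noncomputable def Ft (m : ℕ) : ℝ := ((Fl.getD m 560 : ℤ) : ℝ) / 1000

/-- the matrix `X` -/
noncomputable def Xm (i j : ℕ) : ℝ := Ft ((i - j) + (j - i)) - 293 / 10000 * ((i : ℝ) + j)

/-- the staircase matrix -/
noncomputable def cm (i j : ℕ) : ℝ := if i + j ≤ 15 then 1 else 0

/-- the bilinear form of the staircase matrix is dominated by the quadratic form of `X` -/
def P_CELL : Prop := ∀ z w : ℕ → ℂ,
  2 * ‖∑ i ∈ Finset.range 16, ∑ j ∈ Finset.range 16, (cm i j : ℂ) * (z i * w j)‖ ≤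
    ∑ i ∈ Finset.range 16, ∑ j ∈ Finset.range 16, Xm i j * (z i * (starRingEnd ℂ) (z j)).re +
    ∑ i ∈ Finset.range 16, ∑ j ∈ Finset.range 16, Xm i j * (w i * (starRingEnd ℂ) (w j)).re

end Pool.Agent.L7h20.TM4
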