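import Pool.Agent.L7h20.TM4.Mu
import Pool.Agent.L7h20.TM3.Ev2
import Pool.Agent.TH110.N4_AFP

set_option autoImplicit false

/-!
Crude means of the smoothed sums.
-/

namespace Pool.Agent.L7h20.TM4

open Finset Filter Topology MeasureTheory Complex
open Pool.Agent.H306R2 Pool.Agent.H306R2.SM
open Pool.Agent.H262R4.TM (P_TSM2 Rng Ck)
open Pool.Agent.TH535 (GdI)
open Pool.Agent.Y756.T (m3)
open Pool.Agent.L7h20.TM3 (wt wt_intg wt_nn zeta_cl_cont wt_cont WU Wl Wl_WU EV EV_one)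
open Pool.Agent.H448R2.GC (cu cu_nonneg cu_le_one cu_cont cs XX)
open Pool.Agent.TH110.N4_AFP (gs gs_cont cs_ext one_sub_cl norm_XX_cl)

noncomputable section

lemma dv1 {n : ℕ} (hn : 1 ≤ n) : dv 1 n = 1 := by
  rw [← dA_apply, dA_one]
  unfold zR
  rw [ArithmeticFunction.natCoe_apply, ArithmeticFunction.zeta_apply, if_neg (by omega)]
  simp

/-- the product kernel -/
lemma WW_KU {W : ℝ → ℝ} {θ θ' : ℝ} (hW : WU W θ θ') : KU (fun a b => W a * W b) θ' where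
  cont := by
    have h1 := hW.cont
    exact (h1.comp continuous_fst).mul (h1.comp continuous_snd)
  nn := fun a b _ _ => mul_nonneg (hW.nn _) (hW.nn _)
  z := by
    intro a b _ _ h
    rcases h with h | h
    · rw [hW.z a h]; simp
    · rw [hW.z b h]; simp

/-- polynomials with coefficients in `[0,1]`: mean square -/
theorem sq_mean (hTSM : P_TSM2) : ∃ C : ℝ, 0 < C ∧ ∀ᶠ T : ℝ in atTop, ∀ k : ℕ, Rng T k →
    ∀ a : ℕ → ℝ, (∀ n, 0 ≤ a n) → (∀ n, a n ≤ 1) →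
      ∫ t in Set.Ioi (0:ℝ), wt k T t * ‖∑ n ∈ Icc 1 (N0 T), (a n : ℂ) * mo n t‖ ^ 2 ≤
        C * Real.log T ^ (4 : ℝ) := by
  have hW := Wl_WU (show (5179 / 10000 : ℝ) < 518 / 1000 by norm_num)
  set W := Wl (5179 / 10000) (518 / 1000) with hWd
  have hKU := WW_KU hW
  set I := aF (1 + 1) * ∫ u : Fin 3 → ℝ, GdI (m3 1) u * gb (fun a b => W a * W b) u with hI
  have harith := arith_gen (κ := 1) one_pos hKU (by norm_num) (J := |I| + 1) (by
    have := le_abs_self I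
    linarith)
  obtain ⟨η, hη, hbil⟩ := mean_bil hTSM (θ := 5179 / 10000) (by norm_num)
  have hsm : ∀ᶠ T : ℝ in atTop, T ^ (-η) ≤ 1 :=
    (tendsto_rpow_neg_atTop hη).eventually_le_const (by norm_num)
  refine ⟨|I| + 3, by positivity, ?_⟩
  filter_upwards [harith, hbil, hsm, Real.tendsto_log_atTop.eventually_ge_atTop 1,
    eventually_gt_atTop 1] with T h1 h2 h3 hL hT1 k hk a ha0 ha1
  have hT0 : 0 < T := by linarith
  have hk1 := Rng_one hL hk
  have hN0 : ((N0 T : ℕ) : ℝ) ≤ T ^ (5179 / 10000 : ℝ) := Nat.floor_le (by positivity)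
  have haa : ∀ n, |a n| ≤ 1 := fun n => by rw [abs_of_nonneg (ha0 n)]; exact ha1 n
  have hb := h2 k hk (N0 T) hN0 a a haa haa
  have hF := h1 k hk
  rw [show ((1:ℝ) + 1) ^ 2 = 4 by norm_num] at hF
  set L := Real.log T with hLd
  have hL0 : 0 < L := by linarith
  have hP : 1 ≤ L ^ (4 : ℝ) := Real.one_le_rpow hL (by norm_num)
  have e1 : ∫ t in Set.Ioi (0:ℝ), wt k T t * ‖∑ n ∈ Icc 1 (N0 T), (a n : ℂ) * mo n t‖ ^ 2 =
      bf (ee k T) (N0 T) a a := by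
    rw [← int_nsq hT0 hk1]
    refine integral_congr_ae (Eventually.of_forall fun t => ?_)
    simp only
    rw [nsq]
  have e2 : bf (ee k T) (N0 T) a a = bf (La k T) (N0 T) a a +
      bf (fun m n => ee k T m n - La k T m n) (N0 T) a a := by
    unfold bf
    rw [← sum_add_distrib]
    refine sum_congr rfl fun m _ => ?_
    rw [← sum_add_distrib]
    refine sum_congr rfl fun n _ => ?_
    ring
  have hmain : bf (La k T) (N0 T) a a ≤
      ∑ x ∈ Icc 1 ⌊T ^ (518 / 1000 : ℝ)⌋₊ ×ˢ Icc 1 ⌊T ^ (518 / 1000 : ℝ)⌋₊,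
        F3 1 (fun a b => W a * W b) T (Yf k T) (Ck k) x.1 x.2 := by
    have hsub : Icc 1 (N0 T) ×ˢ Icc 1 (N0 T) ⊆
        Icc 1 ⌊T ^ (518 / 1000 : ℝ)⌋₊ ×ˢ Icc 1 ⌊T ^ (518 / 1000 : ℝ)⌋₊ := by
      have hle : N0 T ≤ ⌊T ^ (518 / 1000 : ℝ)⌋₊ := Nat.floor_le_floor
        (Real.rpow_le_rpow_of_exponent_le hT1.le (by norm_num))
      exact product_subset_product (Icc_subset_Icc_right hle) (Icc_subset_Icc_right hle)
    refine le_trans ?_ (sum_le_sum_of_subset_of_nonneg hsub fun x _ _ =>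
      F3_nn (by norm_num) hKU hT1 _ _ _ _)
    unfold bf
    rw [sum_product]
    refine sum_le_sum fun m hm => sum_le_sum fun n hn => ?_
    rw [mem_Icc] at hm hn
    have hlogn : ∀ n : ℕ, 1 ≤ n → n ≤ N0 T → 0 ≤ Real.log n / L ∧ Real.log n / L ≤ 5179 / 10000 := by
      intro n h1 h2
      have h1' : (1 : ℝ) ≤ n := by exact_mod_cast h1
      have h2' : (n : ℝ) ≤ T ^ (5179 / 10000 : ℝ) := le_trans (by exact_mod_cast h2) hN0
      refine ⟨div_nonneg (Real.log_nonneg h1') hL0.le, ?_⟩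
      rw [div_le_iff₀ hL0, ← Real.log_rpow hT0]
      exact Real.log_le_log (by linarith) h2'
    obtain ⟨m1, m2⟩ := hlogn m hm.1 hm.2
    obtain ⟨n1, n2⟩ := hlogn n hn.1 hn.2
    unfold F3
    rw [← hLd, dv1 hm.1, dv1 hn.1]
    show _ ≤ 1 * 1 * (W (Real.log m / L) * W (Real.log n / L)) * (1 / (Nat.lcm m n : ℝ) *
        |Real.log (Yf k T * (Nat.gcd m n : ℝ) ^ 2 / ((m : ℝ) * n)) + Ck k|)
    rw [hW.one _ m2, hW.one _ n2, one_mul, one_mul, one_mul]
    have hLa : La k T m n ≤ 1 / (Nat.lcm m n : ℝ) *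
        |Real.log (Yf k T * (Nat.gcd m n : ℝ) ^ 2 / ((m : ℝ) * n)) + Ck k| := by
      unfold La
      exact mul_le_mul_of_nonneg_left (le_abs_self _) (by positivity)
    have hLa0 : 0 ≤ 1 / (Nat.lcm m n : ℝ) *
        |Real.log (Yf k T * (Nat.gcd m n : ℝ) ^ 2 / ((m : ℝ) * n)) + Ck k| := by positivity
    calc a m * a n * La k T m n ≤ a m * a n * (1 / (Nat.lcm m n : ℝ) *
          |Real.log (Yf k T * (Nat.gcd m n : ℝ) ^ 2 / ((m : ℝ) * n)) + Ck k|) :=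
          mul_le_mul_of_nonneg_left hLa (mul_nonneg (ha0 m) (ha0 n))
      _ ≤ 1 * _ := mul_le_mul_of_nonneg_right (mul_le_one₀ (ha1 m) (ha0 n) (ha1 n)) hLa0
      _ = _ := one_mul _
  rw [e1, e2]
  have h5 := (le_abs_self _).trans hb
  have h6 : 2 * T ^ (-η) ≤ 2 * L ^ (4 : ℝ) := by linarith
  have h7 : (|I| + 3) * L ^ (4:ℝ) = (|I| + 1) * L ^ (4:ℝ) + 2 * L ^ (4:ℝ) := by ring
  rw [h7]
  linarith

/-- polynomials with coefficients in `[0,1]`: mean -/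
theorem one_mean (hTSM : P_TSM2) : ∃ C : ℝ, 0 < C ∧ ∀ᶠ T : ℝ in atTop, ∀ k : ℕ, Rng T k →
    ∀ a : ℕ → ℝ, (∀ n, 0 ≤ a n) → (∀ n, a n ≤ 1) →
      ∫ t in Set.Ioi (0:ℝ), wt k T t * ‖∑ n ∈ Icc 1 (N0 T), (a n : ℂ) * mo n t‖ ≤
        C * Real.log T ^ (5 / 2 : ℝ) := by
  obtain ⟨C, hC, h⟩ := sq_mean hTSM
  refine ⟨C + 1, by positivity, ?_⟩
  filter_upwards [h, EV_one hTSM, Real.tendsto_log_atTop.eventually_ge_atTop 1,
    eventually_gt_atTop 1] with T h1 h2 hL hT1 k hk a ha0 ha1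
  have hT0 : 0 < T := by linarith
  have hk1 := Rng_one hL hk
  have hS := h1 k hk a ha0 ha1
  have hE := h2 k hk 0
  unfold EV at hE
  set L := Real.log T with hLd
  have hL0 : 0 < L := by linarith
  set f : ℝ → ℝ := fun t => ‖∑ n ∈ Icc 1 (N0 T), (a n : ℂ) * mo n t‖ with hf
  have hfc : Continuous f := by
    refine (continuous_finsetSum _ fun n _ => ?_).norm
    exact continuous_const.mul (mo_cont n)
  have hfb : ∀ t, f t ≤ N0 T := by
    intro t
    refine (norm_sum_le _ _).trans ?_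
    have h : ∀ n ∈ Icc 1 (N0 T), ‖(a n : ℂ) * mo n t‖ ≤ 1 := by
      intro n _
      rw [norm_mul, Complex.norm_real, Real.norm_eq_abs, abs_of_nonneg (ha0 n)]
      exact mul_le_one₀ (ha1 n) (norm_nonneg _) (mo_norm t)
    refine (sum_le_sum h).trans ?_
    simp
  have hf0 : ∀ t, 0 ≤ f t := fun t => norm_nonneg _
  have i1 : IntegrableOn (fun t => wt k T t * f t) (Set.Ioi 0) :=
    wt_intg hT0 hk1 hfc ⟨(N0 T : ℝ), 0, fun t _ => by
      rw [abs_of_nonneg (hf0 t), pow_zero, mul_one]; exact hfb t⟩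
  have i2 : IntegrableOn (fun t => wt k T t * f t ^ 2) (Set.Ioi 0) :=
    wt_intg hT0 hk1 (hfc.pow 2) ⟨(N0 T : ℝ) ^ 2, 0, fun t _ => by
      rw [abs_of_nonneg (sq_nonneg _), pow_zero, mul_one]
      exact pow_le_pow_left₀ (hf0 t) (hfb t) 2⟩
  have i3 : IntegrableOn (fun t => wt k T t * 1) (Set.Ioi 0) :=
    wt_intg hT0 hk1 continuous_const ⟨1, 0, fun t _ => by simp⟩
  set lam := L ^ (3 / 2 : ℝ) with hlam
  have hlam0 : 0 < lam := by positivity
  have key : ∫ t in Set.Ioi (0:ℝ), wt k T t * f t ≤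
      1 / (2 * lam) * (∫ t in Set.Ioi (0:ℝ), wt k T t * f t ^ 2) +
        lam / 2 * ∫ t in Set.Ioi (0:ℝ), wt k T t * 1 := by
    rw [← integral_const_mul, ← integral_const_mul, ← integral_add (i2.const_mul _) (i3.const_mul _)]
    refine setIntegral_mono_on i1 ((i2.const_mul _).add (i3.const_mul _)) measurableSet_Ioi
      fun t ht => ?_
    have hw := wt_nn (k := k) hT0 (le_of_lt ht : (0:ℝ) ≤ t)
    have h6 : f t ≤ 1 / (2 * lam) * f t ^ 2 + lam / 2 := by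
      have : 1 / (2 * lam) * f t ^ 2 + lam / 2 - f t = (f t - lam) ^ 2 / (2 * lam) := by
        field_simp
        ring
      have h8 : 0 ≤ (f t - lam) ^ 2 / (2 * lam) := by positivity
      linarith
    have h7 := mul_le_mul_of_nonneg_left h6 hw
    refine h7.trans (le_of_eq ?_)
    show _ = 1 / (2 * lam) * (wt k T t * f t ^ 2) + lam / 2 * (wt k T t * 1)
    ring
  refine key.trans ?_
  have e1 : 1 / (2 * lam) * (∫ t in Set.Ioi (0:ℝ), wt k T t * f t ^ 2) ≤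
      1 / (2 * lam) * (C * L ^ (4:ℝ)) := mul_le_mul_of_nonneg_left hS (by positivity)
  have e2 : lam / 2 * (∫ t in Set.Ioi (0:ℝ), wt k T t * 1) ≤ lam / 2 * (2 * L) :=
    mul_le_mul_of_nonneg_left hE (by positivity)
  have e3 : L ^ (4:ℝ) = lam * L ^ (5 / 2 : ℝ) := by
    rw [hlam, ← Real.rpow_add hL0]; norm_num
  have e4 : lam * L = L ^ (5 / 2 : ℝ) := by
    rw [hlam, show (5 / 2 : ℝ) = 3 / 2 + 1 by norm_num, Real.rpow_add hL0, Real.rpow_one]
  have e5 : 1 / (2 * lam) * (C * L ^ (4:ℝ)) = C / 2 * L ^ (5 / 2 : ℝ) := by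
    rw [e3]; field_simp
  have e6 : lam / 2 * (2 * L) = L ^ (5 / 2 : ℝ) := by rw [← e4]; ring
  rw [e5] at e1
  rw [e6] at e2
  have h9 : 0 ≤ L ^ (5 / 2 : ℝ) := by positivity
  nlinarith

/-! ### the smoothed sums -/

lemma gs_mo (N k : ℕ) (c D t : ℝ) :
    gs N k c (cl t) D = ∑ n ∈ Icc 1 N, ((cu k c (Real.log n - D) : ℝ) : ℂ) * mo n t := rfl

lemma gs_jc (N k : ℕ) {c : ℝ} (hc : 0 < c) :
    Continuous (fun z : ℝ × ℝ => gs N (k + 1) c (cl z.2) z.1) := by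
  simp only [gs_mo]
  refine continuous_finsetSum _ fun n _ => ?_
  have h1 := cu_cont k c hc
  have h2 := mo_cont n
  exact (Complex.continuous_ofReal.comp (h1.comp (by fun_prop :
    Continuous (fun z : ℝ × ℝ => Real.log n - z.1)))).mul (h2.comp continuous_snd)

lemma gs_bd (N k : ℕ) {c : ℝ} (hc : 0 < c) (D t : ℝ) : ‖gs N k c (cl t) D‖ ≤ N := by
  rw [gs_mo]
  refine (norm_sum_le _ _).trans ?_
  have h : ∀ n ∈ Icc 1 N, ‖((cu k c (Real.log n - D) : ℝ) : ℂ) * mo n t‖ ≤ 1 := by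
    intro n _
    rw [norm_mul, Complex.norm_real, Real.norm_eq_abs, abs_of_nonneg (cu_nonneg k c _ hc)]
    exact mul_le_one₀ (cu_le_one k c _ hc) (norm_nonneg _) (mo_norm t)
  refine (sum_le_sum h).trans ?_
  simp

/-- the mean of an average of smoothed sums over a short window -/
theorem gs_mean (hTSM : P_TSM2) : ∃ C : ℝ, 0 < C ∧ ∀ᶠ T : ℝ in atTop, ∀ κ : ℕ, Rng T κ →
    ∀ (k : ℕ) (c : ℝ), 0 < c → ∀ a b : ℝ, a ≤ b →
      ∫ t in Set.Ioi (0:ℝ), wt κ T t * (∫ v in a..b, ‖gs (N0 T) (k + 1) c (cl t) v‖) ≤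
        C * (b - a) * Real.log T ^ (5 / 2 : ℝ) := by
  obtain ⟨C, hC, h⟩ := one_mean hTSM
  refine ⟨C, hC, ?_⟩
  filter_upwards [h, Real.tendsto_log_atTop.eventually_ge_atTop 1,
    eventually_gt_atTop 1] with T h1 hL hT1 κ hκ k c hc a b hab
  have hT0 : 0 < T := by linarith
  have hk1 := Rng_one hL hκ
  have hjc := (gs_jc (N0 T) k hc).norm
  rw [avg_fub hT0 hk1 (f := fun v t => ‖gs (N0 T) (k + 1) c (cl t) v‖) hjc (B := (N0 T : ℝ))
    (fun s t => by rw [abs_of_nonneg (norm_nonneg _)]; exact gs_bd _ _ hc _ _) hab]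
  have hb := intervalIntegral.norm_integral_le_of_norm_le_const (a := a) (b := b)
    (C := C * Real.log T ^ (5 / 2 : ℝ))
    (f := fun v => ∫ t in Set.Ioi (0:ℝ), wt κ T t * ‖gs (N0 T) (k + 1) c (cl t) v‖) (fun v _ => by
      have h0 : 0 ≤ ∫ t in Set.Ioi (0:ℝ), wt κ T t * ‖gs (N0 T) (k + 1) c (cl t) v‖ :=
        setIntegral_nonneg measurableSet_Ioi fun t ht =>
          mul_nonneg (wt_nn hT0 (le_of_lt ht)) (norm_nonneg _)
      rw [Real.norm_of_nonneg h0]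
      exact h1 κ hκ (fun n => cu (k + 1) c (Real.log n - v)) (fun n => cu_nonneg _ _ _ hc)
        (fun n => cu_le_one _ _ _ hc))
  rw [abs_of_nonneg (by linarith : 0 ≤ b - a)] at hb
  refine ((Real.le_norm_self _).trans hb).trans (le_of_eq ?_)
  ring

end

end Pool.Agent.L7h20.TM4
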