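import Pool.Agent.L7h20.TM3.Sb

set_option autoImplicit false

/-!
TM4 (helper20): upper bound `8/5` for the third moment of zeta. The limit integral.
-/

namespace Pool.Agent.L7h20.TM4

open MeasureTheory
open Pool.Agent.TH535 (GdI)
open Pool.Agent.Y756.T (m3)
open Pool.Agent.L7h20.TM3 (WU)

noncomputable section

/-- the kernel that dominates the averaged cell matrix, `d = |α - β|`, `s = α + β` -/
def pk (d s : ℝ) : ℝ :=
  22595 / 10000 - 74791 / 100000 * (29 * d) + 150378 / 1000000 * (29 * d) ^ 2 -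
    131791 / 10000000 * (29 * d) ^ 3 + 40941 / 100000000 * (29 * d) ^ 4 -
    293 / 10000 * (29 * s + 1) + 1 / 10000

/-- the weight of the limit integral -/
def qk (W : ℝ → ℝ) (u : Fin 3 → ℝ) : ℝ :=
  W (u 0 + u 2) * W (u 1 + u 2) * pk |u 0 - u 1| (u 0 + u 1 + 2 * u 2) * |1 - u 0 - u 1|

/-- the numerical bound (the true value is about `0.7948 / Γ(13/4)` if `|1 - t|` is replaced by its
majorant `1 - (1 - θ') / θ' * t` on `[0, 2 θ']`) -/
def P_NUM : Prop := ∀ (W : ℝ → ℝ) (θ θ' : ℝ), WU W θ θ' → 1 / 2 ≤ θ' → θ' ≤ 518 / 1000 →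
  ∫ u : Fin 3 → ℝ, GdI (m3 (1 / 2)) u * qk W u < (4 / 5) / Real.Gamma (13 / 4)

end

end Pool.Agent.L7h20.TM4
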