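import Pool.Agent.L7h20.TM4.Mean
import Pool.Agent.L7h20.TM4.NumDefs

set_option autoImplicit false
set_option linter.unusedVariables false

/-!
The average of the cell matrix over the position of the cells is dominated by the kernel `pk`.
-/

namespace Pool.Agent.L7h20.TM4

open Finset Filter Topology MeasureTheory

noncomputable section

/-! ### the polynomial lies above the table -/

lemma q_0 {f : ℝ} (h0 : 0 ≤ f) (h1 : f ≤ 1) : 0 ≤ (13 / 2000) + (-5191 / 100000) * f ^ 1 + (75189 / 500000) * f ^ 2 + (-131791 / 10000000) * f ^ 3 + (40941 / 100000000) * f ^ 4 := by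
  have hS : 0 ≤ (36418329663 / 250000000000) + (-32579281 / 2500000000) * f ^ 1 + (40941 / 100000000) * f ^ 2 + 0 := by nlinarith
  have hT := mul_nonneg (sq_nonneg (f - (9 / 50))) hS
  nlinarith [mul_nonneg h0 (sub_nonneg.2 h1)]

lemma q_1 {f : ℝ} (h0 : 0 ≤ f) (h1 : f ≤ 1) : 0 ≤ (9219831 / 100000000) + (-8402683 / 50000000) * f ^ 1 + (2832429 / 25000000) * f ^ 2 + (-577073 / 50000000) * f ^ 3 + (40941 / 100000000) * f ^ 4 := by
  have hS : 0 ≤ (3782562967 / 40000000000) + (-10845463 / 1000000000) * f ^ 1 + (40941 / 100000000) * f ^ 2 + 0 := by nlinarith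
  have hT := mul_nonneg (sq_nonneg (f - (17 / 20))) hS
  nlinarith [mul_nonneg h0 (sub_nonneg.2 h1)]

lemma q_2 {f : ℝ} (h0 : 0 ≤ f) (h1 : f ≤ 1) : 0 ≤ (41109 / 1562500) + (-254519 / 3125000) * f ^ 1 + (2028231 / 25000000) * f ^ 2 + (-495191 / 50000000) * f ^ 3 + (40941 / 100000000) * f ^ 4 := by
  have hS : 0 ≤ (275086463 / 3906250000) + (-11806601 / 1250000000) * f ^ 1 + (40941 / 100000000) * f ^ 2 + 0 := by nlinarith
  have hT := mul_nonneg (sq_nonneg (f - (14 / 25))) hS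
  nlinarith [mul_nonneg h0 (sub_nonneg.2 h1)]

lemma q_3 {f : ℝ} (h0 : 0 ≤ f) (h1 : f ≤ 1) : 0 ≤ (1649851 / 100000000) + (-2463071 / 50000000) * f ^ 1 + (168357 / 3125000) * f ^ 2 + (-413309 / 50000000) * f ^ 3 + (40941 / 100000000) * f ^ 4 := by
  have hS : 0 ≤ (2850595387 / 62500000000) + (-2450123 / 312500000) * f ^ 1 + (40941 / 100000000) * f ^ 2 + 0 := by nlinarith
  have hT := mul_nonneg (sq_nonneg (f - (13 / 25))) hS
  nlinarith [mul_nonneg h0 (sub_nonneg.2 h1)]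

lemma q_4 {f : ℝ} (h0 : 0 ≤ f) (h1 : f ≤ 1) : 0 ≤ (82841 / 6250000) + (-383423 / 12500000) * f ^ 1 + (49269 / 1562500) * f ^ 2 + (-331427 / 50000000) * f ^ 3 + (40941 / 100000000) * f ^ 4 := by
  have hS : 0 ≤ (24138029663 / 1000000000000) + (-30727181 / 5000000000) * f ^ 1 + (40941 / 100000000) * f ^ 2 + 0 := by nlinarith
  have hT := mul_nonneg (sq_nonneg (f - (59 / 100))) hS
  nlinarith [mul_nonneg h0 (sub_nonneg.2 h1)]

lemma q_5 {f : ℝ} (h0 : 0 ≤ f) (h1 : f ≤ 1) : 0 ≤ (1263 / 160000) + (-5143 / 400000) * f ^ 1 + (14103 / 1000000) * f ^ 2 + (-49909 / 10000000) * f ^ 3 + (40941 / 100000000) * f ^ 4 := by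
  have hS : 0 ≤ (7800318303 / 1000000000000) + (-22129571 / 5000000000) * f ^ 1 + (40941 / 100000000) * f ^ 2 + 0 := by nlinarith
  have hT := mul_nonneg (sq_nonneg (f - (69 / 100))) hS
  nlinarith [mul_nonneg h0 (sub_nonneg.2 h1)]

lemma q_6 {f : ℝ} (h0 : 0 ≤ f) (h1 : f ≤ 1) : 0 ≤ (14243 / 3125000) + (3167 / 3125000) * f ^ 1 + (39669 / 25000000) * f ^ 2 + (-167663 / 50000000) * f ^ 3 + (40941 / 100000000) * f ^ 4 := by
  have hS : 0 ≤ (-389153 / 100000000) + (-63361 / 25000000) * f ^ 1 + (40941 / 100000000) * f ^ 2 + (1 / 100) := by nlinarith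
  have hT := mul_nonneg (sq_nonneg (f - 1)) hS
  nlinarith [mul_nonneg h0 (sub_nonneg.2 h1)]

lemma q_7 {f : ℝ} (h0 : 0 ≤ f) (h1 : f ≤ 1) : 0 ≤ (421411 / 100000000) + (388241 / 50000000) * f ^ 1 + (-75207 / 12500000) * f ^ 2 + (-85781 / 50000000) * f ^ 3 + (40941 / 100000000) * f ^ 4 := by
  have hS : 0 ≤ (-75207 / 12500000) + (-85781 / 50000000) * f ^ 1 + (40941 / 100000000) * f ^ 2 + (1 / 100) := by nlinarith
  have hT := mul_nonneg (sq_nonneg (f - 0)) hS
  nlinarith [mul_nonneg h0 (sub_nonneg.2 h1)]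

lemma q_8 {f : ℝ} (h0 : 0 ≤ f) (h1 : f ≤ 1) : 0 ≤ (29101 / 6250000) + (127781 / 12500000) * f ^ 1 + (-108837 / 12500000) * f ^ 2 + (-3899 / 50000000) * f ^ 3 + (40941 / 100000000) * f ^ 4 := by
  have hS : 0 ≤ (-108837 / 12500000) + (-3899 / 50000000) * f ^ 1 + (40941 / 100000000) * f ^ 2 + (1 / 100) := by nlinarith
  have hT := mul_nonneg (sq_nonneg (f - 0)) hS
  nlinarith [mul_nonneg h0 (sub_nonneg.2 h1)]

lemma q_9 {f : ℝ} (h0 : 0 ≤ f) (h1 : f ≤ 1) : 0 ≤ (650311 / 100000000) + (310613 / 50000000) * f ^ 1 + (-162111 / 25000000) * f ^ 2 + (77983 / 50000000) * f ^ 3 + (40941 / 100000000) * f ^ 4 := by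
  have hS : 0 ≤ (-162111 / 25000000) + (77983 / 50000000) * f ^ 1 + (40941 / 100000000) * f ^ 2 + (1 / 100) := by nlinarith
  have hT := mul_nonneg (sq_nonneg (f - 0)) hS
  nlinarith [mul_nonneg h0 (sub_nonneg.2 h1)]

lemma q_10 {f : ℝ} (h0 : 0 ≤ f) (h1 : f ≤ 1) : 0 ≤ (41 / 5000) + (-17 / 3125) * f ^ 1 + (651 / 1000000) * f ^ 2 + (31973 / 10000000) * f ^ 3 + (40941 / 100000000) * f ^ 4 := by
  have hS : 0 ≤ (1351613247 / 250000000000) + (9344303 / 2500000000) * f ^ 1 + (40941 / 100000000) * f ^ 2 + 0 := by nlinarith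
  have hT := mul_nonneg (sq_nonneg (f - (33 / 50))) hS
  nlinarith [mul_nonneg h0 (sub_nonneg.2 h1)]

lemma q_11 {f : ℝ} (h0 : 0 ≤ f) (h1 : f ≤ 1) : 0 ≤ (701771 / 100000000) + (-745423 / 50000000) * f ^ 1 + (79371 / 6250000) * f ^ 2 + (241747 / 50000000) * f ^ 3 + (40941 / 100000000) * f ^ 4 := by
  have hS : 0 ≤ (4351849567 / 250000000000) + (13028993 / 2500000000) * f ^ 1 + (40941 / 100000000) * f ^ 2 + 0 := by nlinarith
  have hT := mul_nonneg (sq_nonneg (f - (23 / 50))) hS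
  nlinarith [mul_nonneg h0 (sub_nonneg.2 h1)]

lemma q_12 {f : ℝ} (h0 : 0 ≤ f) (h1 : f ≤ 1) : 0 ≤ (62831 / 6250000) + (182909 / 12500000) * f ^ 1 + (185379 / 6250000) * f ^ 2 + (323629 / 50000000) * f ^ 3 + (40941 / 100000000) * f ^ 4 := by
  have hS : 0 ≤ (185379 / 6250000) + (323629 / 50000000) * f ^ 1 + (40941 / 100000000) * f ^ 2 + 0 := by nlinarith
  have hT := mul_nonneg (sq_nonneg (f - 0)) hS
  nlinarith [mul_nonneg h0 (sub_nonneg.2 h1)]

lemma q_13 {f : ℝ} (h0 : 0 ≤ f) (h1 : f ≤ 1) : 0 ≤ (6122831 / 100000000) + (5050469 / 50000000) * f ^ 1 + (1288371 / 25000000) * f ^ 2 + (405511 / 50000000) * f ^ 3 + (40941 / 100000000) * f ^ 4 := by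
  have hS : 0 ≤ (1288371 / 25000000) + (405511 / 50000000) * f ^ 1 + (40941 / 100000000) * f ^ 2 + 0 := by nlinarith
  have hT := mul_nonneg (sq_nonneg (f - 0)) hS
  nlinarith [mul_nonneg h0 (sub_nonneg.2 h1)]

lemma q_14 {f : ℝ} (h0 : 0 ≤ f) (h1 : f ≤ 1) : 0 ≤ (694663 / 3125000) + (797023 / 3125000) * f ^ 1 + (1958049 / 25000000) * f ^ 2 + (487393 / 50000000) * f ^ 3 + (40941 / 100000000) * f ^ 4 := by
  have hS : 0 ≤ (1958049 / 25000000) + (487393 / 50000000) * f ^ 1 + (40941 / 100000000) * f ^ 2 + 0 := by nlinarith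
  have hT := mul_nonneg (sq_nonneg (f - 0)) hS
  nlinarith [mul_nonneg h0 (sub_nonneg.2 h1)]

lemma q_15 {f : ℝ} (h0 : 0 ≤ f) (h1 : f ≤ 1) : 0 ≤ (90531 / 160000) + (156629 / 400000) * f ^ 1 + (55011 / 500000) * f ^ 2 + (22771 / 2000000) * f ^ 3 + (40941 / 100000000) * f ^ 4 := by
  have hS : 0 ≤ (55011 / 500000) + (22771 / 2000000) * f ^ 1 + (40941 / 100000000) * f ^ 2 + 0 := by nlinarith
  have hT := mul_nonneg (sq_nonneg (f - 0)) hS
  nlinarith [mul_nonneg h0 (sub_nonneg.2 h1)]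

/-- the polynomial in cell units -/
def P1 (x : ℝ) : ℝ :=
  22595 / 10000 - 74791 / 100000 * x + 150378 / 1000000 * x ^ 2 -
    131791 / 10000000 * x ^ 3 + 40941 / 100000000 * x ^ 4

lemma P1_ge {n : ℕ} (hn : n ≤ 15) {f : ℝ} (h0 : 0 ≤ f) (h1 : f ≤ 1) :
    Ft n + (Ft (n + 1) - Ft n) * f ≤ P1 (n + f) := by
  rw [← sub_nonneg]
  unfold P1 Ft Fl
  interval_cases n
  · have := q_0 h0 h1
    norm_num at this ⊢
    linarith
  · have := q_1 h0 h1
    norm_num at this ⊢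
    linarith
  · have := q_2 h0 h1
    norm_num at this ⊢
    linarith
  · have := q_3 h0 h1
    norm_num at this ⊢
    linarith
  · have := q_4 h0 h1
    norm_num at this ⊢
    linarith
  · have := q_5 h0 h1
    norm_num at this ⊢
    linarith
  · have := q_6 h0 h1
    norm_num at this ⊢
    linarith
  · have := q_7 h0 h1
    norm_num at this ⊢
    linarith
  · have := q_8 h0 h1
    norm_num at this ⊢
    linarith
  · have := q_9 h0 h1
    norm_num at this ⊢
    linarith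
  · have := q_10 h0 h1
    norm_num at this ⊢
    linarith
  · have := q_11 h0 h1
    norm_num at this ⊢
    linarith
  · have := q_12 h0 h1
    norm_num at this ⊢
    linarith
  · have := q_13 h0 h1
    norm_num at this ⊢
    linarith
  · have := q_14 h0 h1
    norm_num at this ⊢
    linarith
  · have := q_15 h0 h1
    norm_num at this ⊢
    linarith

/-! ### the table -/

lemma Fl_chk : ∀ i : ℕ, i < 18 → ∀ j : ℕ, j < 18 →
    293 * ((i : ℤ) + j) ≤ 10 * Fl.getD ((i - j) + (j - i)) 560 := by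
  decide

lemma Fl_top : ∀ i : ℕ, i < 18 → Fl.getD i 560 ≤ 2253 := by decide

lemma Xm_nn {i j : ℕ} (hi : i < 18) (hj : j < 18) : 0 ≤ Xm i j := by
  have h := Fl_chk i hi j hj
  have h1 : (293 : ℝ) * ((i : ℝ) + j) ≤ 10 * ((Fl.getD ((i - j) + (j - i)) 560 : ℤ) : ℝ) := by
    exact_mod_cast h
  unfold Xm Ft
  linarith

lemma Xm_top {i j : ℕ} (hi : i < 18) (hj : j < 18) : Xm i j ≤ 3 := by
  have h := Fl_top ((i - j) + (j - i)) (by omega)
  have h1 : ((Fl.getD ((i - j) + (j - i)) 560 : ℤ) : ℝ) ≤ 2253 := by exact_mod_cast h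
  have h2 : (0 : ℝ) ≤ (i : ℝ) + j := by positivity
  unfold Xm Ft
  linarith

lemma XZ_nn (i j : ℤ) : 0 ≤ XZ i j := by
  unfold XZ
  split_ifs with h
  · exact Xm_nn (by omega) (by omega)
  · exact le_rfl

lemma XZ_top (i j : ℤ) : XZ i j ≤ 3 := by
  unfold XZ
  split_ifs with h
  · exact Xm_top (by omega) (by omega)
  · norm_num

lemma XZ_le {i j : ℕ} (hi : i < 18) (hj : j < 18) : XZ i j ≤ Xm i j := by
  unfold XZ
  split_ifs with h
  · simp
  · exact Xm_nn hi hj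

lemma XZ_symm (i j : ℤ) : XZ i j = XZ j i := by
  unfold XZ
  by_cases h : 0 ≤ i ∧ i < 16 ∧ 0 ≤ j ∧ j < 16
  · have h' : 0 ≤ j ∧ j < 16 ∧ 0 ≤ i ∧ i < 16 := ⟨h.2.2.1, h.2.2.2, h.1, h.2.1⟩
    rw [if_pos h, if_pos h']
    unfold Xm
    rw [add_comm (i.toNat - j.toNat), add_comm (i.toNat : ℝ)]
  · rw [if_neg h, if_neg]
    intro h'
    exact h ⟨h'.2.2.1, h'.2.2.2, h'.1, h'.2.1⟩

/-! ### averages -/

lemma bdd_ii {f : ℝ → ℝ} (hf : Measurable f) {C : ℝ} (hC : ∀ x, |f x| ≤ C) (a b : ℝ) :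
    IntervalIntegrable f volume a b :=
  (intervalIntegrable_const (c := C)).mono_fun hf.aestronglyMeasurable
    (Eventually.of_forall fun x => by
      show |f x| ≤ |C|
      exact (hC x).trans (le_abs_self C))

lemma ZZ_meas (f : ℤ → ℤ → ℝ) {g h : ℝ → ℝ} (hg : Measurable g) (hh : Measurable h) (s t : ℤ) :
    Measurable (fun u : ℝ => f (⌊g u⌋ + s) (⌊h u⌋ + t)) := by
  have h1 : Measurable (fun p : ℤ × ℤ => f (p.1 + s) (p.2 + t)) := measurable_of_countable _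
  exact h1.comp ((Int.measurable_floor.comp hg).prodMk (Int.measurable_floor.comp hh))

lemma fract_int : ∫ x in (0:ℝ)..1, Int.fract x = 1 / 2 := by
  have h : ∫ x in (0:ℝ)..1, Int.fract x = ∫ x in (0:ℝ)..1, x := by
    refine intervalIntegral.integral_congr_ae ?_
    have : ∀ᵐ x : ℝ, x ≠ 1 := by
      rw [ae_iff]; simp
    filter_upwards [this] with x hx1 hx
    rw [Set.uIoc_of_le (by norm_num : (0:ℝ) ≤ 1)] at hx
    exact Int.fract_eq_self.2 ⟨hx.1.le, lt_of_le_of_ne hx.2 hx1⟩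
  rw [h]
  simp

lemma floor_meas (a : ℝ) : Measurable (fun u : ℝ => ((⌊a - u⌋ : ℤ) : ℝ)) := by
  have h1 : Measurable (fun p : ℤ => (p : ℝ)) := measurable_of_countable _
  exact h1.comp (Int.measurable_floor.comp (measurable_const.sub measurable_id))

lemma fract_meas (a : ℝ) : Measurable (fun u : ℝ => Int.fract (a - u)) :=
  measurable_fract.comp (measurable_const.sub measurable_id)

lemma fract_bd (x : ℝ) : |Int.fract x| ≤ 1 := by
  rw [abs_of_nonneg (Int.fract_nonneg x)]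
  exact (Int.fract_lt_one x).le

lemma fl_int (a : ℝ) : ∫ u in (0:ℝ)..1, ((⌊a - u⌋ : ℤ) : ℝ) = a - 1 := by
  have e : ∀ u : ℝ, ((⌊a - u⌋ : ℤ) : ℝ) = (a - u) - Int.fract (a - u) := by
    intro u
    have := Int.floor_add_fract (a - u)
    linarith
  simp only [e]
  rw [intervalIntegral.integral_sub (by
    apply Continuous.intervalIntegrable; fun_prop) (bdd_ii (fract_meas a) (fun u => fract_bd _) _ _)]
  have h1 : ∫ u in (0:ℝ)..1, Int.fract (a - u) = 1 / 2 := by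
    rw [intervalIntegral.integral_comp_sub_left (fun x => Int.fract x) a]
    have hp : Function.Periodic (fun x : ℝ => Int.fract x) 1 := fun x => Int.fract_add_one x
    have h2 := hp.intervalIntegral_add_eq (a - 1) 0
    rw [sub_add_cancel, zero_add] at h2
    rw [sub_zero, h2, fract_int]
  have h3 : ∫ u in (0:ℝ)..1, (a - u) = a - 1 / 2 := by
    rw [intervalIntegral.integral_sub (by simp) (by simp)]
    simp
  rw [h1, h3]
  ring

lemma fl_ii (a : ℝ) : IntervalIntegrable (fun u : ℝ => ((⌊a - u⌋ : ℤ) : ℝ)) volume 0 1 := by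
  have e : (fun u : ℝ => ((⌊a - u⌋ : ℤ) : ℝ)) = fun u => (a - u) - Int.fract (a - u) := by
    funext u
    have := Int.floor_add_fract (a - u)
    linarith
  rw [e]
  exact (Continuous.intervalIntegrable (by fun_prop) _ _).sub
    (bdd_ii (fract_meas a) (fun u => fract_bd _) _ _)

/-- the average of the extended matrix over the position of the cells -/
def AV (a b : ℝ) : ℝ := ∫ u in (0:ℝ)..1, XZ (⌊a - u⌋ + 1) (⌊b - u⌋ + 1)

lemma XZ_meas (a b : ℝ) : Measurable (fun u : ℝ => XZ (⌊a - u⌋ + 1) (⌊b - u⌋ + 1)) :=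
  ZZ_meas XZ (measurable_const.sub measurable_id) (measurable_const.sub measurable_id) 1 1

lemma XZ_ii (a b : ℝ) : IntervalIntegrable (fun u : ℝ => XZ (⌊a - u⌋ + 1) (⌊b - u⌋ + 1)) volume 0 1 :=
  bdd_ii (XZ_meas a b) (C := 3) (fun u => by
    rw [abs_of_nonneg (XZ_nn _ _)]; exact XZ_top _ _) _ _

lemma AV_nn (a b : ℝ) : 0 ≤ AV a b := by
  unfold AV
  exact intervalIntegral.integral_nonneg (by norm_num) fun u _ => XZ_nn _ _

lemma AV_symm (a b : ℝ) : AV a b = AV b a := by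
  unfold AV
  exact intervalIntegral.integral_congr fun u _ => XZ_symm _ _

/-- main estimate for the average -/
lemma AV_le' {a b : ℝ} (hb : 0 ≤ b) (hab : b ≤ a) (ha : a < 17) (hd : a - b < 16) :
    AV a b ≤ P1 (a - b) - 293 / 10000 * (a + b) := by
  set d := a - b with hdd
  have hd0 : 0 ≤ d := by rw [hdd]; linarith
  obtain ⟨n, hn⟩ : ∃ n : ℕ, (⌊d⌋ : ℤ) = n := Int.eq_ofNat_of_zero_le (Int.floor_nonneg.2 hd0)
  have hfl := Int.floor_le d
  have hfl2 := Int.lt_floor_add_one d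
  rw [hn] at hfl hfl2
  push_cast at hfl hfl2
  have hn15 : n ≤ 15 := by
    have : (n : ℝ) < 16 := by linarith
    have : n < 16 := by exact_mod_cast this
    omega
  set f := d - n with hf
  have hf0 : 0 ≤ f := by rw [hf]; linarith
  have hf1 : f ≤ 1 := by rw [hf]; linarith
  -- pointwise bound
  have hpt : ∀ u ∈ Set.Icc (0:ℝ) 1, XZ (⌊a - u⌋ + 1) (⌊b - u⌋ + 1) ≤
      Ft n + (Ft (n + 1) - Ft n) * (((⌊a - u⌋ : ℤ) : ℝ) - ((⌊b - u⌋ : ℤ) : ℝ) - n) -
        293 / 10000 * (((⌊a - u⌋ : ℤ) : ℝ) + ((⌊b - u⌋ : ℤ) : ℝ) + 2) := by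
    intro u hu
    have hb1 : -1 ≤ ⌊b - u⌋ := by
      rw [Int.le_floor]; push_cast; linarith [hu.2]
    have ha1 : ⌊a - u⌋ < 17 := by
      rw [Int.floor_lt]; push_cast; linarith [hu.1]
    have hab1 : ⌊b - u⌋ ≤ ⌊a - u⌋ := Int.floor_le_floor (by linarith)
    have ha2 : ⌊b - u⌋ + n ≤ ⌊a - u⌋ := by
      rw [Int.le_floor]
      have := Int.floor_le (b - u)
      push_cast
      linarith
    have ha3 : ⌊a - u⌋ < ⌊b - u⌋ + n + 2 := by
      rw [Int.floor_lt]
      have := Int.lt_floor_add_one (b - u)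
      push_cast
      linarith
    obtain ⟨j, hj⟩ := Int.eq_ofNat_of_zero_le (show 0 ≤ ⌊b - u⌋ + 1 by omega)
    obtain ⟨i, hi⟩ := Int.eq_ofNat_of_zero_le (show 0 ≤ ⌊a - u⌋ + 1 by omega)
    have ei : ((⌊a - u⌋ : ℤ) : ℝ) = (i : ℝ) - 1 := by
      have : ((⌊a - u⌋ : ℤ) : ℝ) + 1 = (i : ℝ) := by exact_mod_cast hi
      linarith
    have ej : ((⌊b - u⌋ : ℤ) : ℝ) = (j : ℝ) - 1 := by
      have : ((⌊b - u⌋ : ℤ) : ℝ) + 1 = (j : ℝ) := by exact_mod_cast hj
      linarith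
    rw [hi, hj]
    have hij : i = j + n ∨ i = j + n + 1 := by omega
    refine (XZ_le (by omega) (by omega)).trans ?_
    unfold Xm
    rw [ei, ej]
    rcases hij with h | h
    · have e1 : i - j + (j - i) = n := by omega
      rw [e1, h]
      push_cast
      apply le_of_eq
      ring
    · have e1 : i - j + (j - i) = n + 1 := by omega
      rw [e1, h]
      push_cast
      apply le_of_eq
      ring
  have hR : IntervalIntegrable (fun u : ℝ => Ft n + (Ft (n + 1) - Ft n) *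
      (((⌊a - u⌋ : ℤ) : ℝ) - ((⌊b - u⌋ : ℤ) : ℝ) - n) -
        293 / 10000 * (((⌊a - u⌋ : ℤ) : ℝ) + ((⌊b - u⌋ : ℤ) : ℝ) + 2)) volume 0 1 := by
    refine (intervalIntegrable_const.add
      ((((fl_ii a).sub (fl_ii b)).sub intervalIntegrable_const).const_mul _)).sub
      ((((fl_ii a).add (fl_ii b)).add intervalIntegrable_const).const_mul _)
  have h1 := intervalIntegral.integral_mono_on (by norm_num : (0:ℝ) ≤ 1) (XZ_ii a b) hR hpt
  have h2 : ∫ u in (0:ℝ)..1, (Ft n + (Ft (n + 1) - Ft n) *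
      (((⌊a - u⌋ : ℤ) : ℝ) - ((⌊b - u⌋ : ℤ) : ℝ) - n) -
        293 / 10000 * (((⌊a - u⌋ : ℤ) : ℝ) + ((⌊b - u⌋ : ℤ) : ℝ) + 2)) =
      Ft n + (Ft (n + 1) - Ft n) * ((a - 1) - (b - 1) - n) - 293 / 10000 * ((a - 1) + (b - 1) + 2) := by
    rw [intervalIntegral.integral_sub (intervalIntegrable_const.add
      ((((fl_ii a).sub (fl_ii b)).sub intervalIntegrable_const).const_mul _))
      ((((fl_ii a).add (fl_ii b)).add intervalIntegrable_const).const_mul _),
      intervalIntegral.integral_add intervalIntegrable_const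
      ((((fl_ii a).sub (fl_ii b)).sub intervalIntegrable_const).const_mul _),
      intervalIntegral.integral_const_mul, intervalIntegral.integral_const_mul,
      intervalIntegral.integral_sub ((fl_ii a).sub (fl_ii b)) intervalIntegrable_const,
      intervalIntegral.integral_sub (fl_ii a) (fl_ii b),
      intervalIntegral.integral_add ((fl_ii a).add (fl_ii b)) intervalIntegrable_const,
      intervalIntegral.integral_add (fl_ii a) (fl_ii b), fl_int, fl_int]
    simp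
  rw [h2] at h1
  have h3 := P1_ge hn15 hf0 hf1
  have e4 : (n : ℝ) + f = d := by rw [hf]; ring
  rw [e4] at h3
  have e5 : (a - 1) - (b - 1) - (n : ℝ) = f := by rw [hf, hdd]; ring
  rw [e5] at h1
  unfold AV
  linarith

theorem AV_le {a b : ℝ} (ha : 0 ≤ a) (hb : 0 ≤ b) (ha' : a < 17) (hb' : b < 17) (hd : |a - b| < 16) :
    AV a b ≤ P1 |a - b| - 293 / 10000 * (a + b) := by
  rcases le_total b a with h | h
  · rw [abs_of_nonneg (by linarith)] at hd ⊢
    exact AV_le' hb h ha' hd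
  · rw [AV_symm, abs_sub_comm, abs_of_nonneg (by linarith)]
    rw [abs_sub_comm, abs_of_nonneg (by linarith)] at hd
    have := AV_le' ha h hb' hd
    linarith

/-- the kernel in real units, `h = 1/29` -/
theorem AV_pk {α β ε : ℝ} (hα : 0 ≤ α) (hβ : 0 ≤ β) (hα' : α ≤ 518 / 1000) (hβ' : β ≤ 518 / 1000)
    (hε : |ε| ≤ 1 / 300) :
    1 / 2 * (AV (29 * α) (29 * β) + AV (29 * α - ε + 1) (29 * β - ε + 1)) ≤ pk |α - β| (α + β) := by
  obtain ⟨e1, e2⟩ := abs_le.1 hε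
  have hd : |29 * α - 29 * β| = 29 * |α - β| := by
    rw [← mul_sub, abs_mul, abs_of_pos (by norm_num : (0:ℝ) < 29)]
  have hd2 : |29 * α - ε + 1 - (29 * β - ε + 1)| = 29 * |α - β| := by
    rw [← hd]; congr 1; ring
  have hd3 : 29 * |α - β| < 16 := by
    have : |α - β| ≤ 518 / 1000 := by
      rw [abs_le]; constructor <;> linarith
    linarith
  have h1 := AV_le (a := 29 * α) (b := 29 * β) (by positivity) (by positivity) (by linarith)
    (by linarith) (by rw [hd]; exact hd3)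
  have h2 := AV_le (a := 29 * α - ε + 1) (b := 29 * β - ε + 1) (by linarith) (by linarith)
    (by linarith) (by linarith) (by rw [hd2]; exact hd3)
  rw [hd] at h1
  rw [hd2] at h2
  unfold pk
  unfold P1 at h1 h2
  linarith

end

end Pool.Agent.L7h20.TM4
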