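import Pool.Agent.L7h20.TM3.Sb

set_option autoImplicit false

/-!
Upper bound for the arithmetic sum of the twisted second moment with a general continuous kernel.
-/

namespace Pool.Agent.L7h20.TM4

open Finset Filter Topology MeasureTheory Complex
open Pool.Agent.H306R2 Pool.Agent.H306R2.SM
open Pool.Agent.Y756.T (lam3 m3 lam3_LW lam3_const mw_lam3 S3 S3_prop sum_gcd)
open Pool.Agent.TH535 (posI GdI kar mw_nonneg')
open Pool.Agent.TH535.MA (mw LW)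
open Pool.Agent.H262R4.TM (P_TSM2 Rng Ck)
open Pool.Agent.W184 (DS dv_le_one)

noncomputable section

/-- nonnegative continuous kernels supported in `[0, θ']^2` -/
structure KU (K : ℝ → ℝ → ℝ) (θ' : ℝ) : Prop where
  cont : Continuous (fun p : ℝ × ℝ => K p.1 p.2)
  nn : ∀ a b, 0 ≤ a → 0 ≤ b → 0 ≤ K a b
  z : ∀ a b, 0 ≤ a → 0 ≤ b → (θ' ≤ a ∨ θ' ≤ b) → K a b = 0

/-- weight without the logarithm -/
def ga (K : ℝ → ℝ → ℝ) (u : Fin 3 → ℝ) : ℝ := K (u 0 + u 2) (u 1 + u 2)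

/-- weight with the logarithm -/
def gb (K : ℝ → ℝ → ℝ) (u : Fin 3 → ℝ) : ℝ := ga K u * |1 - u 0 - u 1|

lemma ga_nn {K : ℝ → ℝ → ℝ} {θ' : ℝ} (hK : KU K θ') (u : Fin 3 → ℝ) (hu : ∀ i, 0 ≤ u i) :
    0 ≤ ga K u := by
  have h0 := hu 0
  have h1 := hu 1
  have h2 := hu 2
  exact hK.nn _ _ (by linarith) (by linarith)

lemma ga_cont {K : ℝ → ℝ → ℝ} {θ' : ℝ} (hK : KU K θ') : Continuous (ga K) := by
  unfold ga
  exact hK.cont.comp (show Continuous (fun u : Fin 3 → ℝ => (u 0 + u 2, u 1 + u 2)) by fun_prop)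

lemma gb_cont {K : ℝ → ℝ → ℝ} {θ' : ℝ} (hK : KU K θ') : Continuous (gb K) := by
  unfold gb
  have := ga_cont hK
  fun_prop

lemma ga_zero {K : ℝ → ℝ → ℝ} {θ' : ℝ} (hK : KU K θ') (u : Fin 3 → ℝ) (hu : ∀ i, 0 ≤ u i)
    (hi : ∃ i, θ' ≤ u i) : ga K u = 0 := by
  obtain ⟨i, hi⟩ := hi
  have h0 := hu 0
  have h1 := hu 1
  have h2 := hu 2
  unfold ga
  refine hK.z _ _ (by linarith) (by linarith) ?_
  fin_cases i
  · have : θ' ≤ u 0 := hi
    left; linarith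
  · have : θ' ≤ u 1 := hi
    right; linarith
  · have : θ' ≤ u 2 := hi
    left; linarith

/-- the terms of the double sum -/
def F3 (κ : ℝ) (K : ℝ → ℝ → ℝ) (T Y C : ℝ) (m n : ℕ) : ℝ :=
  dv κ m * dv κ n * K (Real.log m / Real.log T) (Real.log n / Real.log T) *
    (1 / (Nat.lcm m n : ℝ) * |Real.log (Y * (Nat.gcd m n : ℝ) ^ 2 / ((m : ℝ) * n)) + C|)

/-- the terms of the triple sum -/
def G3 (κ : ℝ) (K : ℝ → ℝ → ℝ) (T Y C : ℝ) (b : Fin 3 → ℕ) : ℝ :=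
  mw (lam3 κ) b * (ga K (posI (Real.log T) b) * |Real.log Y + C - Real.log (b 0) - Real.log (b 1)|)

lemma F3_eq (κ : ℝ) (K : ℝ → ℝ → ℝ) (T : ℝ) {Y : ℝ} (hY : 0 < Y) (C : ℝ) {h l g : ℕ} (hh : 1 ≤ h)
    (hl : 1 ≤ l) (hg : 1 ≤ g) (hc : Nat.Coprime h l) :
    F3 κ K T Y C (g * h) (g * l) = G3 κ K T Y C ![h, l, g] := by
  have h0 : (0 : ℝ) < h := by exact_mod_cast hh
  have l0 : (0 : ℝ) < l := by exact_mod_cast hl
  have g0 : (0 : ℝ) < g := by exact_mod_cast hg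
  have hcond : (∀ i, (![h, l, g] : Fin 3 → ℕ) i ≠ 0) ∧
      Nat.Coprime ((![h, l, g] : Fin 3 → ℕ) 0) ((![h, l, g] : Fin 3 → ℕ) 1) := by
    refine ⟨?_, hc⟩
    intro i
    fin_cases i
    · exact (show h ≠ 0 by omega)
    · exact (show l ≠ 0 by omega)
    · exact (show g ≠ 0 by omega)
  unfold F3 G3
  rw [mw_lam3, if_pos hcond]
  unfold ga posI
  simp only [Matrix.cons_val_zero, Matrix.cons_val_one, Matrix.cons_val]
  have e1 : Nat.lcm (g * h) (g * l) = g * (h * l) := by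
    rw [Nat.lcm_mul_left, hc.lcm_eq_mul]
  have e2 : Nat.gcd (g * h) (g * l) = g := by
    rw [Nat.gcd_mul_left, Nat.Coprime.gcd_eq_one hc, mul_one]
  rw [e1, e2]
  have e3 : Y * (g : ℝ) ^ 2 / (((g * h : ℕ) : ℝ) * ((g * l : ℕ) : ℝ)) = Y / (h * l) := by
    push_cast
    field_simp
  have e4 : Real.log (Y / ((h : ℝ) * l)) = Real.log Y - Real.log h - Real.log l := by
    rw [Real.log_div hY.ne' (by positivity), Real.log_mul h0.ne' l0.ne']; ring
  rw [e3, e4]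
  have hl1 : Real.log ((g * h : ℕ) : ℝ) / Real.log T =
      Real.log h / Real.log T + Real.log g / Real.log T := by
    rw [Nat.cast_mul, Real.log_mul g0.ne' h0.ne', add_div]; ring
  have hl2 : Real.log ((g * l : ℕ) : ℝ) / Real.log T =
      Real.log l / Real.log T + Real.log g / Real.log T := by
    rw [Nat.cast_mul, Real.log_mul g0.ne' l0.ne', add_div]; ring
  rw [hl1, hl2, mul_comm g h, mul_comm g l]
  have e6 : Real.log Y - Real.log h - Real.log l + C = Real.log Y + C - Real.log h - Real.log l := by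
    ring
  rw [e6]
  push_cast
  ring

lemma log_nat_nn {T : ℝ} (hT : 1 < T) (n : ℕ) : 0 ≤ Real.log n / Real.log T :=
  div_nonneg (Real.log_natCast_nonneg n) (Real.log_pos hT).le

lemma F3_nn {κ : ℝ} (hκ : 0 ≤ κ) {K : ℝ → ℝ → ℝ} {θ' : ℝ} (hK : KU K θ') {T : ℝ} (hT : 1 < T) (Y C : ℝ)
    (m n : ℕ) : 0 ≤ F3 κ K T Y C m n := by
  unfold F3
  have h1 := dv_nonneg hκ m
  have h2 := dv_nonneg hκ n
  have h3 := hK.nn _ _ (log_nat_nn hT m) (log_nat_nn hT n)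
  positivity

lemma F3_sum {κ : ℝ} {K : ℝ → ℝ → ℝ} {θ' : ℝ} (hK : KU K θ') {T : ℝ} (hT : 1 < T)
    {Y : ℝ} (hY : 0 < Y) (C : ℝ) :
    HasSum (G3 κ K T Y C)
      (∑ x ∈ Icc 1 ⌊T ^ θ'⌋₊ ×ˢ Icc 1 ⌊T ^ θ'⌋₊, F3 κ K T Y C x.1 x.2) := by
  classical
  have hT0 : 0 < T := by linarith
  have hL : 0 < Real.log T := Real.log_pos hT
  have hnn := log_nat_nn hT
  set L := Real.log T with hLd
  set N := ⌊T ^ θ'⌋₊ with hN
  have hbig : ∀ n : ℕ, N < n → θ' ≤ Real.log n / L := by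
    intro n h
    have hn : (0 : ℝ) < n := by exact_mod_cast (by omega : 0 < n)
    rw [le_div_iff₀ hL, ← Real.log_rpow hT0]
    apply Real.log_le_log (by positivity)
    have : T ^ θ' < (n : ℝ) := by
      rwa [hN, Nat.floor_lt (by positivity)] at h
    exact this.le
  have hz : ∀ m n, ¬ (m ≤ N ∧ n ≤ N) → F3 κ K T Y C m n = 0 := by
    intro m n h
    unfold F3
    rw [hK.z _ _ (hnn m) (hnn n)]
    · ring
    · by_cases hm : m ≤ N
      · right
        apply hbig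
        by_contra hn
        exact h ⟨hm, not_lt.1 hn⟩
      · left
        exact hbig m (not_le.1 hm)
  rw [sum_gcd N (F3 κ K T Y C) hz]
  have hinj : ∀ y ∈ S3 N ×ˢ Icc 1 N, ∀ z ∈ S3 N ×ˢ Icc 1 N,
      (![y.1.1, y.1.2, y.2] : Fin 3 → ℕ) = ![z.1.1, z.1.2, z.2] → y = z := by
    intro y _ z _ h
    have a0 := congrFun h 0
    have a1 := congrFun h 1
    have a2 := congrFun h 2
    simp only [Matrix.cons_val_zero, Matrix.cons_val_one, Matrix.cons_val] at a0 a1 a2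
    exact Prod.ext (Prod.ext a0 a1) a2
  have h2 : ∑ y ∈ S3 N ×ˢ Icc 1 N, F3 κ K T Y C (y.2 * y.1.1) (y.2 * y.1.2) =
      ∑ b ∈ (S3 N ×ˢ Icc 1 N).image (fun y => (![y.1.1, y.1.2, y.2] : Fin 3 → ℕ)),
        G3 κ K T Y C b := by
    rw [sum_image hinj]
    refine sum_congr rfl fun y hy => ?_
    obtain ⟨⟨h, l⟩, g⟩ := y
    rw [mem_product, mem_Icc] at hy
    obtain ⟨hb, hg, -⟩ := hy
    obtain ⟨hh, -, hl, -, hc⟩ := S3_prop hb
    exact F3_eq κ K T hY C hh hl hg hc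
  rw [h2]
  refine hasSum_sum_of_ne_finset_zero ?_
  intro b hb
  by_cases hw : (∀ i, b i ≠ 0) ∧ Nat.Coprime (b 0) (b 1)
  · obtain ⟨hne, hc⟩ := hw
    have n0 := Nat.pos_of_ne_zero (hne 0)
    have n1 := Nat.pos_of_ne_zero (hne 1)
    have n2 := Nat.pos_of_ne_zero (hne 2)
    have eb : b = ![b 0, b 1, b 2] := by
      funext i
      fin_cases i <;> rfl
    rw [eb, ← F3_eq κ K T hY C n0 n1 n2 hc]
    apply hz
    rintro ⟨c1, c2⟩
    apply hb
    rw [mem_image]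
    refine ⟨((b 0, b 1), b 2), ?_, ?_⟩
    · unfold S3
      rw [mem_product, mem_filter, mem_product, mem_Icc, mem_Icc, mem_Icc]
      have d0 : b 0 ≤ b 2 * b 0 := Nat.le_mul_of_pos_left _ n2
      have d1 : b 1 ≤ b 2 * b 1 := Nat.le_mul_of_pos_left _ n2
      have d2 : b 2 ≤ b 2 * b 0 := Nat.le_mul_of_pos_right _ n0
      exact ⟨⟨⟨⟨n0, d0.trans c1⟩, ⟨n1, d1.trans c2⟩⟩, hc⟩, ⟨n2, d2.trans c1⟩⟩
    · funext i
      fin_cases i <;> rfl
  · unfold G3
    rw [mw_lam3, if_neg hw, zero_mul]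

lemma posI_nn {L : ℝ} (hL : 0 < L) (b : Fin 3 → ℕ) (i : Fin 3) : 0 ≤ posI L b i := by
  unfold posI
  exact div_nonneg (Real.log_natCast_nonneg _) hL.le

/-- the arithmetic sum is at most its expected value -/
theorem arith_gen {κ : ℝ} (hκ : 0 < κ) {K : ℝ → ℝ → ℝ} {θ' : ℝ} (hK : KU K θ') (hθ' : 0 < θ')
    {J : ℝ} (hJ : aF (κ + 1) * (∫ u : Fin 3 → ℝ, GdI (m3 κ) u * gb K u) < J) :
    ∀ᶠ T : ℝ in atTop, ∀ k : ℕ, Rng T k →
      ∑ x ∈ Icc 1 ⌊T ^ θ'⌋₊ ×ˢ Icc 1 ⌊T ^ θ'⌋₊, F3 κ K T (Yf k T) (Ck k) x.1 x.2 ≤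
        J * Real.log T ^ ((κ + 1) ^ 2) := by
  have hm : ∀ i, 0 < m3 κ i := by
    intro i; fin_cases i
    · exact hκ
    · exact hκ
    · show 0 < κ ^ 2; positivity
  have hms : ∑ i, m3 κ i = κ + κ + κ ^ 2 := by
    rw [Fin.sum_univ_three]
    rfl
  have v2 := ga_zero hK
  have v1 : ∀ u : Fin 3 → ℝ, (∀ i, 0 ≤ u i) → (∃ i, θ' ≤ u i) → gb K u = 0 := by
    intro u hu hi
    unfold gb
    rw [v2 u hu hi, zero_mul]
  have hconst := lam3_const (a := κ) hκ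
  have hLW := (lam3_LW (a := κ) hκ).1
  have hA := (aF_pos (κ := κ + 1) (by positivity)).le
  have hconst' : aF (κ + 1) = ∏' p : Nat.Primes, ((1 - 1 / (p : ℝ)) ^ (∑ x, m3 κ x) *
      ∑' v : Fin 3 → ℕ, lam3 κ p v) := by
    rw [hconst]
  obtain ⟨s1, k1⟩ := kar hm hLW (aF (κ + 1)) hconst' hA (gb K) (gb_cont hK) θ' v1 hθ'.le
  obtain ⟨s2, k2⟩ := kar hm hLW (aF (κ + 1)) hconst' hA (ga K) (ga_cont hK) θ' v2 hθ'.le
  rw [hms] at k1 k2
  set XX := aF (κ + 1) * (∫ u : Fin 3 → ℝ, GdI (m3 κ) u * gb K u) with hXX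
  set Z := aF (κ + 1) * ∫ u : Fin 3 → ℝ, GdI (m3 κ) u * ga K u with hZ
  set d := (J - XX) / 2 with hd
  have hd0 : 0 < d := by rw [hd]; linarith
  have e1 := (Real.tendsto_log_atTop).eventually (k1.eventually_lt_const
    (show XX < J - d by rw [hd]; linarith))
  have e2 := (Real.tendsto_log_atTop).eventually (k2.eventually_lt_const
    (show Z < Z + 1 by linarith))
  have e3 := (Real.tendsto_log_atTop).eventually_ge_atTop (6 * (|Z| + 1) / d)
  filter_upwards [e1, e2, e3, eventually_gt_atTop (Real.exp 1)] with T h1 h2 h3 hTe k hk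
  have hT : 1 < T := lt_trans (by
    have := Real.add_one_lt_exp (show (1 : ℝ) ≠ 0 by norm_num)
    linarith) hTe
  have hT0 : 0 < T := by linarith
  have hL1 : 1 < Real.log T := by
    rw [Real.lt_log_iff_exp_lt hT0]; exact hTe
  have hL0 : 0 < Real.log T := by linarith
  have hk1 : 1 ≤ k := by
    have : (1 : ℝ) ≤ k := by
      refine le_trans ?_ hk.1
      nlinarith
    exact_mod_cast this
  have hk0 : (0 : ℝ) < k := by exact_mod_cast hk1
  have hY : 0 < Yf k T := by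
    unfold Yf
    have := Real.pi_pos
    positivity
  have hD : |Real.log (Yf k T) + Ck k - Real.log T| ≤ 6 := Pool.Agent.H989R2.EM3.bk_bound hk1 hT0
  have hS := F3_sum (κ := κ) hK hT hY (Ck k)
  rw [← hS.tsum_eq]
  set L := Real.log T with hLd
  have s1' := s1 L hL0
  have s2' := s2 L hL0
  have hP : 0 < L ^ (κ + κ + κ ^ 2) := by positivity
  rw [div_lt_iff₀ hP] at h1
  rw [div_lt_iff₀ hP] at h2
  set P := L ^ (κ + κ + κ ^ 2) with hPd
  have hLP : L ^ ((κ + 1) ^ 2) = P * L := by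
    rw [hPd, ← Real.rpow_add_one hL0.ne']; congr 1; ring
  rw [hLP]
  set S1 := ∑' b, mw (lam3 κ) b * gb K (posI L b) with hS1
  set S2 := ∑' b, mw (lam3 κ) b * ga K (posI L b) with hS2
  have hcmp : ∑' b : Fin 3 → ℕ, G3 κ K T (Yf k T) (Ck k) b ≤ L * S1 + 6 * S2 := by
    rw [hS1, hS2, ← tsum_mul_left, ← tsum_mul_left, ← (s1'.mul_left L).tsum_add (s2'.mul_left 6)]
    refine Summable.tsum_le_tsum (fun b => ?_) hS.summable ((s1'.mul_left L).add (s2'.mul_left 6))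
    have hw := mw_nonneg' hLW b
    have hq := ga_nn hK (posI L b) (posI_nn hL0 b)
    unfold G3 gb
    rw [← hLd]
    have e5 : Real.log (Yf k T) + Ck k - Real.log (b 0) - Real.log (b 1) =
        L * (1 - posI L b 0 - posI L b 1) + (Real.log (Yf k T) + Ck k - L) := by
      unfold posI
      field_simp
      ring
    rw [e5]
    have h6 : |L * (1 - posI L b 0 - posI L b 1) + (Real.log (Yf k T) + Ck k - L)| ≤
        L * |1 - posI L b 0 - posI L b 1| + 6 := by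
      refine (abs_add_le _ _).trans ?_
      rw [abs_mul, abs_of_pos hL0]
      linarith
    have h7 : mw (lam3 κ) b * (ga K (posI L b) *
        |L * (1 - posI L b 0 - posI L b 1) + (Real.log (Yf k T) + Ck k - L)|) ≤
        mw (lam3 κ) b * (ga K (posI L b) * (L * |1 - posI L b 0 - posI L b 1| + 6)) := by
      gcongr
    refine h7.trans (le_of_eq ?_)
    ring
  refine hcmp.trans ?_
  have h5 : 6 * (Z + 1) ≤ d * L := by
    rw [div_le_iff₀ hd0] at h3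
    have := le_abs_self Z
    linarith
  have a1 : L * S1 ≤ L * ((J - d) * P) := mul_le_mul_of_nonneg_left h1.le hL0.le
  have a2 : 6 * (Z + 1) * P ≤ d * L * P := mul_le_mul_of_nonneg_right h5 hP.le
  have a3 : 6 * S2 ≤ 6 * ((Z + 1) * P) := mul_le_mul_of_nonneg_left h2.le (by norm_num)
  nlinarith

end

end Pool.Agent.L7h20.TM4
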