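import Pool.Agent.L7h20.TM4.Af
import Pool.Agent.L7h20.TM3.Main
import Pool.Agent.TH75.N4_AFE
import Pool.Agent.TH806.Om
import Pool.Agent.L7h70.TM4.Cell
import Pool.Agent.L7h17.TM4.Num

set_option autoImplicit false

/-!
The third moment of zeta: upper bound with the constant `8/5`.
-/

namespace Pool.Agent.L7h20.TM4

open Finset Filter Topology MeasureTheory Complex
open Pool.Agent.H306R2 Pool.Agent.H306R2.SM
open Pool.Agent.H262R4.TM (P_TSM2 Rng Ck f_TSM2)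
open Pool.Agent.TH806.N4 (P_AFE)
open Pool.Agent.TH806 (tail_le)
open Pool.Agent.L7h20.TM3 (wt wt_intg wt_nn zeta_cl_cont wt_cont EV EV_one zeta_cl_bd upper_window)
open Pool.Agent.H448R2.GC (cu cu_nonneg cu_le_one cu_cont cs XX)
open Pool.Agent.TH110.N4_AFP (gs gs_cont cs_ext one_sub_cl norm_XX_cl)

noncomputable section

/-- the pointwise bound -/
theorem zeta_le (h : P_AFE) : ∃ k : ℕ, ∀ᶠ T : ℝ in atTop, ∀ t : ℝ, T / 8 ≤ t → t ≤ 8 * T →
    ∀ c H D : ℝ, c = 1 / 10000 * Real.log T / ((k + 1 : ℕ) : ℝ) → H = Real.log T / 29 →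
      D = (Real.log T - 1 / 10000 * Real.log T - H) / 2 →
    ‖riemannZeta (cl t)‖ ≤ 2 * ‖WW (N0 T) (k + 1) c H D t‖ +
      1 / H * (∫ v in (D - 4)..(D + 4), ‖gs (N0 T) (k + 1) c (cl t) v‖) +
      1 / H * (∫ v in (D + H - 4)..(D + H + 4), ‖gs (N0 T) (k + 1) c (cl t) v‖) +
      3 * T ^ (-(1 / 5) : ℝ) := by
  obtain ⟨k₀, hk₀⟩ := afe_ext h (η := 1 / 10000) (by norm_num) (by norm_num)
  refine ⟨k₀, ?_⟩
  filter_upwards [hk₀ (k₀ + 1) (by omega), N0_large (a := 5173 / 10000) (by norm_num) 4,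
    Real.tendsto_log_atTop.eventually_ge_atTop 1000, eventually_gt_atTop 1]
    with T h1 hN hL hT t ht1 ht2 c H D hc hH hD
  have hT0 : 0 < T := by linarith
  set L := Real.log T with hLd
  have hH0 : 0 < H := by rw [hH]; positivity
  have hc0 : 0 < c := by rw [hc]; positivity
  obtain ⟨l1, l2⟩ := lt_bd hT0 ht1 ht2
  rw [← hLd] at l1 l2
  have hkc : ((k₀ + 1 : ℕ) : ℝ) * c = 1 / 10000 * L := by
    rw [hc]
    field_simp
  have hlam : |lt t - L| ≤ 4 := by rw [abs_le]; constructor <;> linarith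
  refine avg_afe hc0 hH0 hlam (norm_XX_cl t) fun v hv => ?_
  have h2 := h1 t ht1 ht2 v (by rw [hD, hH] at hv; linarith [hv.1])
    (by rw [hD, hH] at hv; linarith [hv.2])
  rw [← hc] at h2
  rw [cs_ext (k₀ + 1) c v hc0 (N0 T) (hN _ (by rw [hkc]; rw [hD, hH] at hv; linarith [hv.2])),
    cs_ext (k₀ + 1) c (lt t - v - 1 / 10000 * L) hc0 (N0 T) (hN _ (by
      rw [hkc]; rw [hD, hH] at hv; linarith [hv.1]))] at h2
  have e : 2 * D + H + (lt t - L) - v = lt t - v - 1 / 10000 * L := by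
    rw [hD]; ring
  rw [e]
  exact h2

/-- the third moment with the Gamma weight -/
theorem third_gen (hTSM : P_TSM2) (hNUM : P_NUM) (hC : P_CELL) (hA : P_AFE) :
    ∃ c : ℝ, 0 < c ∧ c < (8 / 5) / Real.Gamma (13 / 4) ∧ ∀ᶠ T : ℝ in atTop, ∀ κ : ℕ, Rng T κ →
      ∫ t in Set.Ioi (0 : ℝ), om κ (κ / T) t * ‖riemannZeta (cl t)‖ ^ 3 ≤
        (c * aF (3 / 2)) * Real.log T ^ (9 / 4 : ℝ) := by
  obtain ⟨c1, hc1, hc1', hUU⟩ := mean_UU hTSM hNUM hC
  obtain ⟨k, hz⟩ := zeta_le hA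
  obtain ⟨C2, hC2, hgs⟩ := gs_mean hTSM
  have hG := Real.Gamma_pos_of_pos (show (0 : ℝ) < 13 / 4 by norm_num)
  have ha := aF_pos (κ := 3 / 2) (by norm_num)
  have h2c : 2 * c1 < (8 / 5) / Real.Gamma (13 / 4) := by
    have e : (8 / 5) / Real.Gamma (13 / 4) = 2 * ((4 / 5) / Real.Gamma (13 / 4)) := by ring
    rw [e]; linarith
  obtain ⟨c3, hc3, hc3'⟩ := exists_between h2c
  refine ⟨c3, by linarith, hc3', ?_⟩
  -- the errors
  have hgap : 0 < aF (3 / 2) * (c3 - 2 * c1) := mul_pos ha (by linarith)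
  have s1 : ∀ᶠ T : ℝ in atTop, 29 * 16 * C2 * Real.log T ^ (-(3 / 4) : ℝ) ≤
      aF (3 / 2) * (c3 - 2 * c1) / 2 := by
    have : Tendsto (fun T : ℝ => 29 * 16 * C2 * Real.log T ^ (-(3 / 4) : ℝ)) atTop
        (𝓝 (29 * 16 * C2 * 0)) :=
      ((tendsto_rpow_neg_atTop (by norm_num)).comp Real.tendsto_log_atTop).const_mul _
    rw [mul_zero] at this
    exact this.eventually_le_const (by positivity)
  have s2 : ∀ᶠ T : ℝ in atTop, 6 * T ^ (-(1 / 5) : ℝ) + 2 * (576 * 24) * T ^ (-10 : ℝ) ≤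
      aF (3 / 2) * (c3 - 2 * c1) / 2 := by
    have : Tendsto (fun T : ℝ => 6 * T ^ (-(1 / 5) : ℝ) + 2 * (576 * 24) * T ^ (-10 : ℝ)) atTop
        (𝓝 (6 * 0 + 2 * (576 * 24) * 0)) :=
      ((tendsto_rpow_neg_atTop (by norm_num)).const_mul _).add
        ((tendsto_rpow_neg_atTop (by norm_num)).const_mul _)
    rw [mul_zero, mul_zero, add_zero] at this
    exact this.eventually_le_const (by positivity)
  filter_upwards [hUU, hz, hgs, s1, s2, tail_le 6, EV_one hTSM,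
    Real.tendsto_log_atTop.eventually_ge_atTop 1, eventually_gt_atTop 8]
    with T hUU hz hgs s1 s2 htail hone hL hT8 κ hκ
  have hT0 : 0 < T := by linarith
  have hκ1 := Rng_one hL hκ
  set L := Real.log T with hLd
  have hL0 : 0 < L := by linarith
  set H := L / 29 with hH
  set c := 1 / 10000 * L / ((k + 1 : ℕ) : ℝ) with hc
  set D := (L - 1 / 10000 * L - H) / 2 with hD
  have hH0 : 0 < H := by positivity
  have hc0 : 0 < c := by positivity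
  have hkc : ((k + 1 : ℕ) : ℝ) * c = 1 / 10000 * L := by
    rw [hc]
    field_simp
  set N := N0 T with hN
  -- the four pieces
  set g1 : ℝ → ℝ := fun t => ‖WW N (k + 1) c H D t‖ with hg1
  set g2 : ℝ → ℝ := fun t => ∫ v in (D - 4)..(D + 4), ‖gs N (k + 1) c (cl t) v‖ with hg2
  set g3 : ℝ → ℝ := fun t => ∫ v in (D + H - 4)..(D + H + 4), ‖gs N (k + 1) c (cl t) v‖ with hg3
  have hjc := (gs_jc N k hc0).norm
  have hjb : ∀ s t : ℝ, |‖gs N (k + 1) c (cl t) s‖| ≤ (N : ℝ) := fun s t => by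
    rw [abs_of_nonneg (norm_nonneg _)]; exact gs_bd _ _ hc0 _ _
  have j1 : IntegrableOn (fun t => wt κ T t * g1 t) (Set.Ioi 0) := WM_int hT0 hκ1 N (k + 1) hc0 hH0 D
  have j2 : IntegrableOn (fun t => wt κ T t * (1 / H * g2 t)) (Set.Ioi 0) :=
    par_int hT0 hκ1 (f := fun s t => ‖gs N (k + 1) c (cl t) s‖) hjc hjb (by linarith) (1 / H)
  have j3 : IntegrableOn (fun t => wt κ T t * (1 / H * g3 t)) (Set.Ioi 0) :=
    par_int hT0 hκ1 (f := fun s t => ‖gs N (k + 1) c (cl t) s‖) hjc hjb (by linarith) (1 / H)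
  have j4 : IntegrableOn (fun t => wt κ T t * 1) (Set.Ioi 0) :=
    wt_intg hT0 hκ1 continuous_const ⟨1, 0, fun t _ => by simp⟩
  have b1 : ∫ t in Set.Ioi (0:ℝ), wt κ T t * g1 t ≤ aF (3 / 2) * c1 * L ^ (9 / 4 : ℝ) := by
    refine WM_le hT0 hκ1 N hc0 hH0 (A := D) (k + 1) D (fun D' h1 h2 => ?_) D le_rfl le_rfl
    rw [hkc] at h2
    have hε : |(D' - 14 * H) / H| ≤ 1 / 300 := by
      rw [abs_div, abs_of_pos hH0, div_le_iff₀ hH0, abs_le]
      constructor <;> [skip; skip] <;> (rw [hD, hH] at *; linarith)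
    have := hUU κ hκ ((D' - 14 * H) / H) hε
    have e : (14 + (D' - 14 * H) / H) * H = D' := by field_simp; ring
    rwa [e] at this
  have b2 : ∫ t in Set.Ioi (0:ℝ), wt κ T t * g2 t ≤ C2 * 8 * L ^ (5 / 2 : ℝ) := by
    have := hgs κ hκ k c hc0 (D - 4) (D + 4) (by linarith)
    rwa [show D + 4 - (D - 4) = 8 by ring] at this
  have b3 : ∫ t in Set.Ioi (0:ℝ), wt κ T t * g3 t ≤ C2 * 8 * L ^ (5 / 2 : ℝ) := by
    have := hgs κ hκ k c hc0 (D + H - 4) (D + H + 4) (by linarith)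
    rwa [show D + H + 4 - (D + H - 4) = 8 by ring] at this
  have b4 : ∫ t in Set.Ioi (0:ℝ), wt κ T t * 1 ≤ 2 * L := hone κ hκ 0
  -- the tail
  obtain ⟨-, t2, -⟩ := htail κ hκ (576 * 24) (fun t => ‖riemannZeta (cl t)‖ ^ 3) (by norm_num)
    (zeta_cl_cont.norm.pow 3) (fun t => by positivity) (fun t ht => by
      have h2 := zeta_cl_bd ht
      have h3 : ‖riemannZeta (cl t)‖ ≤ 24 * (1 + t) ^ 2 := by
        refine (abs_le_of_sq_le_sq' ?_ (by positivity)).2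
        calc ‖riemannZeta (cl t)‖ ^ 2 ≤ 576 * (1 + t) ^ 4 := h2
          _ = (24 * (1 + t) ^ 2) ^ 2 := by ring
      calc ‖riemannZeta (cl t)‖ ^ 3 = ‖riemannZeta (cl t)‖ ^ 2 * ‖riemannZeta (cl t)‖ := by ring
        _ ≤ (576 * (1 + t) ^ 4) * (24 * (1 + t) ^ 2) :=
            mul_le_mul h2 h3 (norm_nonneg _) (by positivity)
        _ = 576 * 24 * (1 + t) ^ 6 := by ring)
  -- the main inequality
  set R : ℝ → ℝ := fun t => 2 * g1 t + 1 / H * g2 t + 1 / H * g3 t + 3 * T ^ (-(1 / 5) : ℝ) with hR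
  have hR0 : ∀ t, 0 ≤ R t := by
    intro t
    have a1 : 0 ≤ g1 t := norm_nonneg _
    have a2 : 0 ≤ g2 t := intervalIntegral.integral_nonneg (by linarith) fun _ _ => norm_nonneg _
    have a3 : 0 ≤ g3 t := intervalIntegral.integral_nonneg (by linarith) fun _ _ => norm_nonneg _
    positivity
  have eR : ∀ t, wt κ T t * R t = 2 * (wt κ T t * g1 t) + wt κ T t * (1 / H * g2 t) +
      wt κ T t * (1 / H * g3 t) + 3 * T ^ (-(1 / 5) : ℝ) * (wt κ T t * 1) := by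
    intro t
    rw [hR]
    ring
  have jR : IntegrableOn (fun t => wt κ T t * R t) (Set.Ioi 0) := by
    simp only [eR]
    exact (((j1.const_mul 2).add j2).add j3).add (j4.const_mul _)
  have iR : ∫ t in Set.Ioi (0:ℝ), wt κ T t * R t =
      2 * (∫ t in Set.Ioi (0:ℝ), wt κ T t * g1 t) + (1 / H * ∫ t in Set.Ioi (0:ℝ), wt κ T t * g2 t) +
      (1 / H * ∫ t in Set.Ioi (0:ℝ), wt κ T t * g3 t) +
      3 * T ^ (-(1 / 5) : ℝ) * (∫ t in Set.Ioi (0:ℝ), wt κ T t * 1) := by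
    simp only [eR]
    have q1 : ∀ g : ℝ → ℝ, ∫ t in Set.Ioi (0:ℝ), wt κ T t * (1 / H * g t) =
        1 / H * ∫ t in Set.Ioi (0:ℝ), wt κ T t * g t := by
      intro g
      rw [← integral_const_mul]
      congr 1
      funext t
      ring
    rw [← q1, ← q1, ← integral_const_mul, ← integral_const_mul, ← integral_add, ← integral_add,
      ← integral_add]
    · exact ((j1.const_mul 2).add j2).add j3
    · exact j4.const_mul _
    · exact (j1.const_mul 2).add j2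
    · exact j3
    · exact j1.const_mul 2
    · exact j2
  have m1 : ∫ t in Set.Ioc (T / 8) (8 * T), om κ (κ / T) t * ‖riemannZeta (cl t)‖ ^ 3 ≤
      ∫ t in Set.Ioc (T / 8) (8 * T), wt κ T t * R t := by
    have hsub : Set.Ioc (T / 8) (8 * T) ⊆ Set.Ioi (0:ℝ) := fun t ht =>
      lt_trans (by positivity) ht.1
    refine setIntegral_mono_on ?_ (jR.mono_set hsub) measurableSet_Ioc fun t ht => ?_
    · have hcont : Continuous (fun t => om κ (κ / T) t * ‖riemannZeta (cl t)‖ ^ 3) := by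
        have h1 := wt_cont κ T
        have h2 : (fun t => om κ (κ / T) t * ‖riemannZeta (cl t)‖ ^ 3) =
            fun t => wt κ T t * ‖riemannZeta (cl t)‖ := by
          funext t
          unfold Pool.Agent.L7h20.TM3.wt
          ring
        rw [h2]
        exact h1.mul zeta_cl_cont.norm
      exact (hcont.integrableOn_Icc).mono_set Set.Ioc_subset_Icc_self
    · have h1 := hz t ht.1.le ht.2 c H D hc rfl hD
      have h2 : om κ (κ / T) t * ‖riemannZeta (cl t)‖ ^ 3 = wt κ T t * ‖riemannZeta (cl t)‖ := by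
        unfold Pool.Agent.L7h20.TM3.wt
        ring
      rw [h2]
      exact mul_le_mul_of_nonneg_left h1 (wt_nn hT0 (le_of_lt (hsub ht)))
  have m2 : ∫ t in Set.Ioc (T / 8) (8 * T), wt κ T t * R t ≤ ∫ t in Set.Ioi (0:ℝ), wt κ T t * R t := by
    refine setIntegral_mono_set jR ?_ ?_
    · rw [EventuallyLE, ae_restrict_iff' measurableSet_Ioi]
      exact Eventually.of_forall fun t ht => mul_nonneg (wt_nn hT0 (le_of_lt ht)) (hR0 t)
    · exact LE.le.eventuallyLE fun t ht => lt_trans (by positivity) ht.1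
  have hP : 1 ≤ L ^ (9 / 4 : ℝ) := Real.one_le_rpow hL (by norm_num)
  have e1 : L ^ (5 / 2 : ℝ) = H * (29 * (L ^ (-(3 / 4) : ℝ) * L ^ (9 / 4 : ℝ))) := by
    rw [← Real.rpow_add hL0, hH, show (5 / 2 : ℝ) = 1 + 3 / 2 by norm_num, Real.rpow_add hL0,
      Real.rpow_one]
    norm_num
    ring
  have e2 : 1 / H * (C2 * 8 * L ^ (5 / 2 : ℝ)) = 29 * 8 * C2 * L ^ (-(3 / 4) : ℝ) * L ^ (9 / 4 : ℝ) := by
    rw [e1]; field_simp
  have b2' : 1 / H * (∫ t in Set.Ioi (0:ℝ), wt κ T t * g2 t) ≤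
      29 * 8 * C2 * L ^ (-(3 / 4) : ℝ) * L ^ (9 / 4 : ℝ) := by
    rw [← e2]; exact mul_le_mul_of_nonneg_left b2 (by positivity)
  have b3' : 1 / H * (∫ t in Set.Ioi (0:ℝ), wt κ T t * g3 t) ≤
      29 * 8 * C2 * L ^ (-(3 / 4) : ℝ) * L ^ (9 / 4 : ℝ) := by
    rw [← e2]; exact mul_le_mul_of_nonneg_left b3 (by positivity)
  have hLP : L ≤ L ^ (9 / 4 : ℝ) := by
    calc L = L ^ (1 : ℝ) := (Real.rpow_one L).symm
      _ ≤ L ^ (9 / 4 : ℝ) := Real.rpow_le_rpow_of_exponent_le hL (by norm_num)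
  have b4' : 3 * T ^ (-(1 / 5) : ℝ) * (∫ t in Set.Ioi (0:ℝ), wt κ T t * 1) ≤
      6 * T ^ (-(1 / 5) : ℝ) * L ^ (9 / 4 : ℝ) := by
    calc 3 * T ^ (-(1 / 5) : ℝ) * (∫ t in Set.Ioi (0:ℝ), wt κ T t * 1) ≤
        3 * T ^ (-(1 / 5) : ℝ) * (2 * L) := mul_le_mul_of_nonneg_left b4 (by positivity)
      _ ≤ 3 * T ^ (-(1 / 5) : ℝ) * (2 * L ^ (9 / 4 : ℝ)) := by gcongr
      _ = _ := by ring
  have t3 : 2 * (576 * 24) * T ^ (-10 : ℝ) ≤ 2 * (576 * 24) * T ^ (-10 : ℝ) * L ^ (9 / 4 : ℝ) :=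
    le_mul_of_one_le_right (by positivity) hP
  have hX : 0 ≤ L ^ (9 / 4 : ℝ) := by positivity
  have s1' := mul_le_mul_of_nonneg_right s1 hX
  have s2' := mul_le_mul_of_nonneg_right s2 hX
  have fin : (∫ t in Set.Ioi (0:ℝ), om κ (κ / T) t * ‖riemannZeta (cl t)‖ ^ 3) ≤
      2 * (aF (3 / 2) * c1 * L ^ (9 / 4 : ℝ)) + 29 * 8 * C2 * L ^ (-(3 / 4) : ℝ) * L ^ (9 / 4 : ℝ) +
      29 * 8 * C2 * L ^ (-(3 / 4) : ℝ) * L ^ (9 / 4 : ℝ) + 6 * T ^ (-(1 / 5) : ℝ) * L ^ (9 / 4 : ℝ) +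
      2 * (576 * 24) * T ^ (-10 : ℝ) * L ^ (9 / 4 : ℝ) := by
    linarith
  refine fin.trans ?_
  have e5 : c3 * aF (3 / 2) * L ^ (9 / 4 : ℝ) = 2 * (aF (3 / 2) * c1 * L ^ (9 / 4 : ℝ)) +
      aF (3 / 2) * (c3 - 2 * c1) / 2 * L ^ (9 / 4 : ℝ) +
      aF (3 / 2) * (c3 - 2 * c1) / 2 * L ^ (9 / 4 : ℝ) := by ring
  rw [e5]
  linarith

/-- the third moment on all intervals that are not too short -/
theorem third_upper (α : ℝ) (hα : α < 1) :
    ∀ᶠ T : ℝ in atTop, ∀ U H : ℝ, 0 ≤ U → U + H ≤ T → T / Real.log T ^ α ≤ H →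
      ∫ t in U..(U + H), ‖riemannZeta (cl t)‖ ^ 3 ≤
        (8 / 5) / Real.Gamma (13 / 4) * aF (3 / 2) * H * Real.log T ^ (9 / 4 : ℝ) := by
  have hG := Real.Gamma_pos_of_pos (show (0 : ℝ) < 13 / 4 by norm_num)
  have hA := aF_pos (κ := 3 / 2) (by norm_num)
  obtain ⟨c, hc, hc', h⟩ := third_gen f_TSM2 Pool.Agent.L7h17.TM4.t_NUM Pool.Agent.L7h70.TM4.t_CELL
    Pool.Agent.TH75.N4_AFE.t_AFE
  refine upper_window (fun t => ‖riemannZeta (cl t)‖ ^ 3) (zeta_cl_cont.norm.pow 3)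
    (fun t => by positivity) ⟨576 * 24, 6, fun t ht => ?_⟩ (c * aF (3 / 2)) (by positivity) (9 / 4)
    (by norm_num) ?_ α hα ?_
  · have h2 := zeta_cl_bd ht
    have h3 : ‖riemannZeta (cl t)‖ ≤ 24 * (1 + t) ^ 2 := by
      refine (abs_le_of_sq_le_sq' ?_ (by positivity)).2
      calc ‖riemannZeta (cl t)‖ ^ 2 ≤ 576 * (1 + t) ^ 4 := h2
        _ = (24 * (1 + t) ^ 2) ^ 2 := by ring
    calc ‖riemannZeta (cl t)‖ ^ 3 = ‖riemannZeta (cl t)‖ ^ 2 * ‖riemannZeta (cl t)‖ := by ring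
      _ ≤ (576 * (1 + t) ^ 4) * (24 * (1 + t) ^ 2) :=
          mul_le_mul h2 h3 (norm_nonneg _) (by positivity)
      _ = 576 * 24 * (1 + t) ^ 6 := by ring
  · filter_upwards [h] with T hT k hk1 hk2
    exact hT k ⟨hk1, hk2⟩
  · exact mul_lt_mul_of_pos_right hc' hA

end

end Pool.Agent.L7h20.TM4
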