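import Pool.Agent.L7h20.TM4.Ker
import Pool.Agent.L7h20.TM4.CellDefs
import Pool.Agent.L7h20.TM3.Ev

set_option autoImplicit false

/-!
Means of quadratic forms in Dirichlet polynomials with respect to the weight `om * |zeta|^2`.
-/

namespace Pool.Agent.L7h20.TM4

open Finset Filter Topology MeasureTheory Complex
open Pool.Agent.H306R2 Pool.Agent.H306R2.SM
open Pool.Agent.H262R4.TM (P_TSM2 Rng Ck)
open Pool.Agent.L7h20.TM3 (wt wt_intg wt_nn zeta_cl_cont)

noncomputable section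

/-- the monomial -/
def mo (n : ℕ) (t : ℝ) : ℂ := (n : ℂ) ^ (-(cl t))

/-- real part of the product of two monomials -/
def rr (m n : ℕ) (t : ℝ) : ℝ := (mo m t * (starRingEnd ℂ) (mo n t)).re

lemma mo_cont (n : ℕ) : Continuous (mo n) := by
  unfold mo
  rcases Nat.eq_zero_or_pos n with h | h
  · subst h
    have : (fun t : ℝ => ((0 : ℕ) : ℂ) ^ (-(cl t))) = fun _ => 0 := by
      funext t
      rw [Nat.cast_zero, Complex.zero_cpow]
      intro h
      have := congrArg Complex.re h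
      unfold cl at this
      simp at this
    rw [this]
    exact continuous_const
  · have h0 : (n : ℂ) ≠ 0 := by exact_mod_cast h.ne'
    refine Continuous.const_cpow ?_ (Or.inl h0)
    unfold cl
    fun_prop

lemma rr_cont (m n : ℕ) : Continuous (rr m n) := by
  unfold rr
  have h1 := mo_cont m
  have h2 := mo_cont n
  exact Complex.continuous_re.comp (h1.mul (Complex.continuous_conj.comp h2))

lemma rr_symm (m n : ℕ) (t : ℝ) : rr m n t = rr n m t := by
  unfold rr
  rw [← Complex.conj_re, map_mul, Complex.conj_conj, mul_comm]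

lemma mo_norm {n : ℕ} (t : ℝ) : ‖mo n t‖ ≤ 1 := by
  unfold mo
  rcases Nat.eq_zero_or_pos n with h | h
  · subst h
    rw [Nat.cast_zero, Complex.zero_cpow, norm_zero]
    · norm_num
    · intro h
      have := congrArg Complex.re h
      unfold cl at this
      simp at this
  · have h0 : (0 : ℝ) < n := by exact_mod_cast h
    have e : (n : ℂ) = ((n : ℝ) : ℂ) := by norm_cast
    rw [e, Complex.norm_cpow_eq_rpow_re_of_pos h0]
    refine Real.rpow_le_one_of_one_le_of_nonpos (by exact_mod_cast h) ?_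
    unfold cl
    simp

lemma rr_bd (m n : ℕ) (t : ℝ) : |rr m n t| ≤ 1 := by
  unfold rr
  refine (Complex.abs_re_le_norm _).trans ?_
  rw [norm_mul, Complex.norm_conj]
  exact mul_le_one₀ (mo_norm t) (norm_nonneg _) (mo_norm t)

/-- the weighted mean of `rr` -/
def ee (k : ℕ) (T : ℝ) (m n : ℕ) : ℝ := ∫ t in Set.Ioi (0 : ℝ), wt k T t * rr m n t

lemma rr_int {k : ℕ} {T : ℝ} (hT : 0 < T) (hk : 1 ≤ k) (m n : ℕ) :
    IntegrableOn (fun t => wt k T t * rr m n t) (Set.Ioi 0) :=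
  wt_intg hT hk (rr_cont m n) ⟨1, 0, fun t _ => by simpa using rr_bd m n t⟩

lemma ee_symm (k : ℕ) (T : ℝ) (m n : ℕ) : ee k T m n = ee k T n m := by
  unfold ee
  refine integral_congr_ae (Eventually.of_forall fun t => ?_)
  simp only
  rw [rr_symm]

/-- the main term -/
def La (k : ℕ) (T : ℝ) (m n : ℕ) : ℝ := 1 / (Nat.lcm m n : ℝ) *
  (Real.log (Yf k T * (Nat.gcd m n : ℝ) ^ 2 / ((m : ℝ) * n)) + Ck k)

lemma La_symm (k : ℕ) (T : ℝ) (m n : ℕ) : La k T m n = La k T n m := by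
  unfold La
  rw [Nat.lcm_comm, Nat.gcd_comm, mul_comm (m : ℝ) n]

/-- bilinear form -/
def bf (E : ℕ → ℕ → ℝ) (N : ℕ) (a b : ℕ → ℝ) : ℝ := ∑ m ∈ Icc 1 N, ∑ n ∈ Icc 1 N, a m * b n * E m n

lemma bf_pol {E : ℕ → ℕ → ℝ} (hE : ∀ m n, E m n = E n m) (N : ℕ) (a b : ℕ → ℝ) :
    bf E N a b = bf E N (fun n => (a n + b n) / 2) (fun n => (a n + b n) / 2) -
      bf E N (fun n => (a n - b n) / 2) (fun n => (a n - b n) / 2) := by
  have h1 : bf E N a b = bf E N b a := by
    unfold bf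
    rw [sum_comm]
    refine sum_congr rfl fun m _ => sum_congr rfl fun n _ => ?_
    rw [hE]; ring
  have h2 : 2 * (bf E N (fun n => (a n + b n) / 2) (fun n => (a n + b n) / 2) -
      bf E N (fun n => (a n - b n) / 2) (fun n => (a n - b n) / 2)) = bf E N a b + bf E N b a := by
    unfold bf
    rw [← sum_sub_distrib, ← sum_add_distrib, mul_sum]
    refine sum_congr rfl fun m _ => ?_
    rw [← sum_sub_distrib, ← sum_add_distrib, mul_sum]
    refine sum_congr rfl fun n _ => ?_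
    ring
  linarith

/-- the square of a real Dirichlet polynomial -/
lemma nsq (N : ℕ) (a : ℕ → ℝ) (t : ℝ) :
    ‖∑ n ∈ Icc 1 N, (a n : ℂ) * mo n t‖ ^ 2 = ∑ m ∈ Icc 1 N, ∑ n ∈ Icc 1 N, a m * a n * rr m n t := by
  have h : ∀ z : ℂ, ‖z‖ ^ 2 = (z * (starRingEnd ℂ) z).re := by
    intro z
    rw [Complex.mul_conj, Complex.ofReal_re, Complex.normSq_eq_norm_sq]
  rw [h, map_sum, sum_mul, Complex.re_sum]
  refine sum_congr rfl fun m _ => ?_
  rw [mul_sum, Complex.re_sum]
  refine sum_congr rfl fun n _ => ?_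
  rw [map_mul, Complex.conj_ofReal]
  unfold rr
  have e : (a m : ℂ) * mo m t * ((a n : ℂ) * (starRingEnd ℂ) (mo n t)) =
      ((a m * a n : ℝ) : ℂ) * (mo m t * (starRingEnd ℂ) (mo n t)) := by push_cast; ring
  rw [e, Complex.re_ofReal_mul]

lemma int_nsq {k : ℕ} {T : ℝ} (hT : 0 < T) (hk : 1 ≤ k) (N : ℕ) (a b : ℕ → ℝ) :
    ∫ t in Set.Ioi (0 : ℝ), wt k T t * (∑ m ∈ Icc 1 N, ∑ n ∈ Icc 1 N, a m * b n * rr m n t) =
      bf (ee k T) N a b := by
  unfold bf ee
  have e : ∀ t, wt k T t * (∑ m ∈ Icc 1 N, ∑ n ∈ Icc 1 N, a m * b n * rr m n t) =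
      ∑ m ∈ Icc 1 N, ∑ n ∈ Icc 1 N, a m * b n * (wt k T t * rr m n t) := by
    intro t
    rw [mul_sum]
    refine sum_congr rfl fun m _ => ?_
    rw [mul_sum]
    refine sum_congr rfl fun n _ => ?_
    ring
  simp only [e]
  rw [integral_finsetSum]
  · refine sum_congr rfl fun m _ => ?_
    rw [integral_finsetSum]
    · refine sum_congr rfl fun n _ => ?_
      rw [integral_const_mul]
    · intro n _
      exact (rr_int hT hk m n).const_mul _
  · intro m _
    exact integrable_finsetSum _ fun n _ => (rr_int hT hk m n).const_mul _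

/-- the twisted second moment as a statement on bilinear forms -/
theorem mean_bil (h : P_TSM2) {θ : ℝ} (hθ : θ < 14 / 27) : ∃ η : ℝ, 0 < η ∧ ∀ᶠ T : ℝ in atTop,
    ∀ k : ℕ, Rng T k → ∀ N : ℕ, (N : ℝ) ≤ T ^ θ → ∀ a b : ℕ → ℝ, (∀ n, |a n| ≤ 1) → (∀ n, |b n| ≤ 1) →
      |bf (fun m n => ee k T m n - La k T m n) N a b| ≤ 2 * T ^ (-η) := by
  obtain ⟨η, hη, hT⟩ := h θ hθ
  refine ⟨η, hη, ?_⟩
  filter_upwards [hT, Real.tendsto_log_atTop.eventually_ge_atTop 1, eventually_gt_atTop 0]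
    with T hT hL hT0 k hk N hN a b ha hb
  have hk1 : 1 ≤ k := by
    have : (1 : ℝ) ≤ k := by
      refine le_trans ?_ hk.1
      nlinarith
    exact_mod_cast this
  have key : ∀ c : ℕ → ℝ, (∀ n, |c n| ≤ 1) →
      |bf (fun m n => ee k T m n - La k T m n) N c c| ≤ T ^ (-η) := by
    intro c hc
    have h1 := hT k hk N hN (fun n => (c n : ℂ)) (fun n => by
      rw [Complex.norm_real, Real.norm_eq_abs]; exact hc n)
    have h2 : (∫ t in Set.Ioi (0 : ℝ), om k (k / T) t * ‖riemannZeta (cl t)‖ ^ 2 *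
        ‖∑ n ∈ Icc 1 N, (c n : ℂ) * (n : ℂ) ^ (-(cl t))‖ ^ 2) = bf (ee k T) N c c := by
      rw [← int_nsq hT0 hk1]
      refine integral_congr_ae (Eventually.of_forall fun t => ?_)
      simp only
      rw [← nsq]
      rfl
    rw [h2] at h1
    have h3 : (∑ h ∈ Icc 1 N, ∑ l ∈ Icc 1 N, (c h : ℂ) * (starRingEnd ℂ) (c l : ℂ) *
        ((1 / (Nat.lcm h l : ℝ) *
          (Real.log (Yf k T * (Nat.gcd h l : ℝ) ^ 2 / ((h : ℝ) * l)) + Ck k) : ℝ) : ℂ)) =
        ((bf (La k T) N c c : ℝ) : ℂ) := by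
      unfold bf La
      rw [Complex.ofReal_sum]
      refine sum_congr rfl fun m _ => ?_
      rw [Complex.ofReal_sum]
      refine sum_congr rfl fun n _ => ?_
      rw [Complex.conj_ofReal]
      push_cast
      ring
    rw [h3, ← Complex.ofReal_sub, Complex.norm_real, Real.norm_eq_abs] at h1
    refine le_trans (le_of_eq ?_) h1
    congr 1
    unfold bf
    rw [← sum_sub_distrib]
    refine sum_congr rfl fun m _ => ?_
    rw [← sum_sub_distrib]
    refine sum_congr rfl fun n _ => ?_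
    ring
  rw [bf_pol (fun m n => by rw [ee_symm, La_symm]) N a b]
  have h1 := key (fun n => (a n + b n) / 2) (fun n => by
    have := abs_add_le (a n) (b n)
    rw [abs_div, abs_of_pos (show (0:ℝ) < 2 by norm_num)]
    linarith [ha n, hb n])
  have h2 := key (fun n => (a n - b n) / 2) (fun n => by
    have := abs_sub (a n) (b n)
    rw [abs_div, abs_of_pos (show (0:ℝ) < 2 by norm_num)]
    linarith [ha n, hb n])
  have h3 := abs_sub (bf (fun m n => ee k T m n - La k T m n) N (fun n => (a n + b n) / 2)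
    (fun n => (a n + b n) / 2)) (bf (fun m n => ee k T m n - La k T m n) N (fun n => (a n - b n) / 2)
    (fun n => (a n - b n) / 2))
  linarith

/-! ### quadratic forms of the cells -/

/-- the matrix `X`, extended by zero to all pairs of integers -/
def XZ (i j : ℤ) : ℝ := if 0 ≤ i ∧ i < 16 ∧ 0 ≤ j ∧ j < 16 then Xm i.toNat j.toNat else 0

/-- the coefficients of one cell -/
def ac (ι : ℕ → ℤ) (i : ℕ) (n : ℕ) : ℝ := if ι n = i then dv (1 / 2) n else 0

lemma ac_bd (ι : ℕ → ℤ) (i n : ℕ) : |ac ι i n| ≤ 1 := by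
  unfold ac
  split_ifs
  · rw [abs_of_nonneg (dv_nonneg (by norm_num) n)]
    exact Pool.Agent.W184.dv_le_one (by norm_num) (by norm_num) n
  · simp

lemma XZ_sum (ι : ℕ → ℤ) (m n : ℕ) (x : ℝ) :
    dv (1 / 2) m * dv (1 / 2) n * XZ (ι m) (ι n) * x =
      ∑ i ∈ range 16, ∑ j ∈ range 16, Xm i j * (ac ι i m * ac ι j n * x) := by
  unfold XZ
  split_ifs with h
  · obtain ⟨h1, h2, h3, h4⟩ := h
    obtain ⟨i, hi⟩ := Int.eq_ofNat_of_zero_le h1
    obtain ⟨j, hj⟩ := Int.eq_ofNat_of_zero_le h3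
    rw [sum_eq_single i]
    · rw [sum_eq_single j]
      · unfold ac
        rw [hi, hj, if_pos rfl, if_pos rfl]
        simp only [Int.toNat_natCast]
        ring
      · intro b _ hb
        unfold ac
        rw [if_neg (c := ι n = (b : ℤ))]
        · ring
        · rw [hj]; intro h; exact hb (by exact_mod_cast h.symm)
      · intro hb
        exfalso
        apply hb
        rw [mem_range]
        rw [hj] at h4
        exact_mod_cast h4
    · intro b _ hb
      refine sum_eq_zero fun j' _ => ?_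
      unfold ac
      rw [if_neg (c := ι m = (b : ℤ))]
      · ring
      · rw [hi]; intro h; exact hb (by exact_mod_cast h.symm)
    · intro hb
      exfalso
      apply hb
      rw [mem_range]
      rw [hi] at h2
      exact_mod_cast h2
  · rw [mul_zero, zero_mul]
    symm
    refine sum_eq_zero fun i hi => sum_eq_zero fun j hj => ?_
    rw [mem_range] at hi hj
    unfold ac
    by_cases hm : ι m = (i : ℤ)
    · by_cases hn : ι n = (j : ℤ)
      · exfalso
        apply h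
        rw [hm, hn]
        exact ⟨by omega, by exact_mod_cast hi, by omega, by exact_mod_cast hj⟩
      · rw [if_neg hn]; ring
    · rw [if_neg hm]; ring

/-- twice the sum of the absolute values of the entries of `X` -/
def Cx : ℝ := ∑ i ∈ range 16, ∑ j ∈ range 16, |Xm i j| * 2

lemma Cx_nn : 0 ≤ Cx := sum_nonneg fun _ _ => sum_nonneg fun _ _ => by positivity

/-- mean of the quadratic form of the cells -/
theorem mean_XZ {E : ℕ → ℕ → ℝ} {N : ℕ} {e : ℝ}
    (h : ∀ a b : ℕ → ℝ, (∀ n, |a n| ≤ 1) → (∀ n, |b n| ≤ 1) → |bf E N a b| ≤ 2 * e) (ι : ℕ → ℤ) :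
    |∑ m ∈ Icc 1 N, ∑ n ∈ Icc 1 N, dv (1 / 2) m * dv (1 / 2) n * XZ (ι m) (ι n) * E m n| ≤ Cx * e := by
  have e1 : ∑ m ∈ Icc 1 N, ∑ n ∈ Icc 1 N, dv (1 / 2) m * dv (1 / 2) n * XZ (ι m) (ι n) * E m n =
      ∑ i ∈ range 16, ∑ j ∈ range 16, Xm i j * bf E N (ac ι i) (ac ι j) := by
    simp only [XZ_sum]
    unfold bf
    have : ∀ m n, ∑ i ∈ range 16, ∑ j ∈ range 16, Xm i j * (ac ι i m * ac ι j n * E m n) =
        ∑ x ∈ range 16 ×ˢ range 16, Xm x.1 x.2 * (ac ι x.1 m * ac ι x.2 n * E m n) := by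
      intro m n
      rw [sum_product]
    simp only [this]
    have e2 : ∑ m ∈ Icc 1 N, ∑ n ∈ Icc 1 N, ∑ x ∈ range 16 ×ˢ range 16,
        Xm x.1 x.2 * (ac ι x.1 m * ac ι x.2 n * E m n) =
        ∑ y ∈ Icc 1 N ×ˢ Icc 1 N, ∑ x ∈ range 16 ×ˢ range 16,
        Xm x.1 x.2 * (ac ι x.1 y.1 * ac ι x.2 y.2 * E y.1 y.2) := by
      rw [sum_product]
    rw [e2, sum_comm, sum_product]
    refine sum_congr rfl fun i _ => sum_congr rfl fun j _ => ?_
    rw [mul_sum, sum_product]
    refine sum_congr rfl fun m _ => ?_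
    rw [mul_sum]
  rw [e1]
  refine (abs_sum_le_sum_abs _ _).trans ?_
  unfold Cx
  rw [sum_mul]
  refine sum_le_sum fun i _ => ?_
  refine (abs_sum_le_sum_abs _ _).trans ?_
  rw [sum_mul]
  refine sum_le_sum fun j _ => ?_
  rw [abs_mul]
  have := h _ _ (ac_bd ι i) (ac_bd ι j)
  calc |Xm i j| * |bf E N (ac ι i) (ac ι j)| ≤ |Xm i j| * (2 * e) :=
        mul_le_mul_of_nonneg_left this (abs_nonneg _)
    _ = |Xm i j| * 2 * e := by ring

end

end Pool.Agent.L7h20.TM4
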