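import Pool.Agent.L7h20.TM4.Pw2

set_option autoImplicit false

/-!
The mean of the averaged partial sums of zeta with respect to `om * |zeta|^2`.
-/

namespace Pool.Agent.L7h20.TM4

open Finset Filter Topology MeasureTheory Complex
open Pool.Agent.H306R2 Pool.Agent.H306R2.SM
open Pool.Agent.H262R4.TM (P_TSM2 Rng Ck)
open Pool.Agent.TH535 (GdI)
open Pool.Agent.Y756.T (m3)
open Pool.Agent.L7h20.TM3 (wt wt_intg wt_nn zeta_cl_cont WU Wl Wl_WU)

noncomputable section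

lemma XZE_int {ι : ℝ → ℕ → ℤ} (N : ℕ) (E : ℕ → ℕ → ℝ)
    (h : ∀ m n, IntervalIntegrable (fun u : ℝ => XZ (ι u m) (ι u n)) volume 0 1) :
    ∫ u in (0:ℝ)..1, (∑ m ∈ Icc 1 N, ∑ n ∈ Icc 1 N, dv (1 / 2) m * dv (1 / 2) n *
      XZ (ι u m) (ι u n) * E m n) = ∑ m ∈ Icc 1 N, ∑ n ∈ Icc 1 N, dv (1 / 2) m * dv (1 / 2) n *
      (∫ u in (0:ℝ)..1, XZ (ι u m) (ι u n)) * E m n := by
  rw [intervalIntegral.integral_finsetSum]
  · refine sum_congr rfl fun m _ => ?_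
    rw [intervalIntegral.integral_finsetSum]
    · refine sum_congr rfl fun n _ => ?_
      rw [intervalIntegral.integral_mul_const, intervalIntegral.integral_const_mul]
    · intro n _
      exact ((h m n).const_mul _).mul_const _
  · intro m _
    have h2 : (fun u => ∑ n ∈ Icc 1 N, dv (1 / 2) m * dv (1 / 2) n *
        XZ (ι u m) (ι u n) * E m n) = ∑ n ∈ Icc 1 N,
          fun u => dv (1 / 2) m * dv (1 / 2) n * XZ (ι u m) (ι u n) * E m n := by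
      funext u
      simp only [Finset.sum_apply]
    rw [h2]
    exact IntervalIntegrable.sum _ fun n _ => ((h m n).const_mul _).mul_const _

lemma XZE_bd {E : ℕ → ℕ → ℝ} {N : ℕ} {e : ℝ}
    (h : ∀ a b : ℕ → ℝ, (∀ n, |a n| ≤ 1) → (∀ n, |b n| ≤ 1) → |bf E N a b| ≤ 2 * e)
    {ι : ℝ → ℕ → ℤ}
    (hi : ∀ m n, IntervalIntegrable (fun u : ℝ => XZ (ι u m) (ι u n)) volume 0 1) :
    |∑ m ∈ Icc 1 N, ∑ n ∈ Icc 1 N, dv (1 / 2) m * dv (1 / 2) n *
      (∫ u in (0:ℝ)..1, XZ (ι u m) (ι u n)) * E m n| ≤ Cx * e := by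
  rw [← XZE_int N E hi, ← Real.norm_eq_abs]
  have h1 := intervalIntegral.norm_integral_le_of_norm_le_const (a := 0) (b := 1) (C := Cx * e)
    (f := fun u => ∑ m ∈ Icc 1 N, ∑ n ∈ Icc 1 N, dv (1 / 2) m * dv (1 / 2) n *
      XZ (ι u m) (ι u n) * E m n) (fun u _ => by
        rw [Real.norm_eq_abs]
        exact mean_XZ h (ι u))
  simpa using h1

/-- the error term of the quadratic form with kernel `Kd` -/
lemma Kd_err {E : ℕ → ℕ → ℝ} {N : ℕ} {e : ℝ}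
    (h : ∀ a b : ℕ → ℝ, (∀ n, |a n| ≤ 1) → (∀ n, |b n| ≤ 1) → |bf E N a b| ≤ 2 * e) (H ε : ℝ) :
    |∑ m ∈ Icc 1 N, ∑ n ∈ Icc 1 N, dv (1 / 2) m * dv (1 / 2) n * Kd H ε m n * E m n| ≤ Cx * e := by
  have h1 := XZE_bd h (ι := fun u m => ⌊Real.log m / H - u⌋ + 1) (fun m n => XZ_ii _ _)
  have h2 := XZE_bd h (ι := fun u n => ⌊(Real.log n / H - ε) + u⌋ + 1) (fun m n => XZ_ii2 _ _)
  have e1 : ∀ m n : ℕ, ∫ u in (0:ℝ)..1, XZ (⌊Real.log m / H - u⌋ + 1) (⌊Real.log n / H - u⌋ + 1) =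
      AV (Real.log m / H) (Real.log n / H) := fun m n => rfl
  have e2 : ∀ m n : ℕ, ∫ u in (0:ℝ)..1, XZ (⌊(Real.log m / H - ε) + u⌋ + 1)
      (⌊(Real.log n / H - ε) + u⌋ + 1) =
      AV (Real.log m / H - ε + 1) (Real.log n / H - ε + 1) := fun m n => AV_shift _ _
  simp only [e1] at h1
  simp only [e2] at h2
  have e3 : ∑ m ∈ Icc 1 N, ∑ n ∈ Icc 1 N, dv (1 / 2) m * dv (1 / 2) n * Kd H ε m n * E m n =
      1 / 2 * (∑ m ∈ Icc 1 N, ∑ n ∈ Icc 1 N, dv (1 / 2) m * dv (1 / 2) n *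
        AV (Real.log m / H) (Real.log n / H) * E m n) +
      1 / 2 * (∑ m ∈ Icc 1 N, ∑ n ∈ Icc 1 N, dv (1 / 2) m * dv (1 / 2) n *
        AV (Real.log m / H - ε + 1) (Real.log n / H - ε + 1) * E m n) := by
    rw [mul_sum, mul_sum, ← sum_add_distrib]
    refine sum_congr rfl fun m _ => ?_
    rw [mul_sum, mul_sum, ← sum_add_distrib]
    refine sum_congr rfl fun n _ => ?_
    unfold Kd
    ring
  rw [e3]
  refine (abs_add_le _ _).trans ?_
  rw [abs_mul, abs_mul, abs_of_pos (show (0:ℝ) < 1 / 2 by norm_num)]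
  linarith

lemma Kd_nn (H ε : ℝ) (m n : ℕ) : 0 ≤ Kd H ε m n := by
  unfold Kd
  have h1 := AV_nn (Real.log m / H) (Real.log n / H)
  have h2 := AV_nn (Real.log m / H - ε + 1) (Real.log n / H - ε + 1)
  linarith

lemma pk_nn {α β : ℝ} (hα : 0 ≤ α) (hβ : 0 ≤ β) (hα' : α ≤ 518 / 1000) (hβ' : β ≤ 518 / 1000) :
    0 ≤ pk |α - β| (α + β) := by
  have h := AV_pk (ε := 0) hα hβ hα' hβ' (by norm_num)
  have h1 := AV_nn (29 * α) (29 * β)
  have h2 := AV_nn (29 * α - 0 + 1) (29 * β - 0 + 1)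
  linarith

lemma pk_cont : Continuous (fun p : ℝ × ℝ => pk p.1 p.2) := by
  unfold pk
  fun_prop

/-- the kernel -/
def KW (W : ℝ → ℝ) (a b : ℝ) : ℝ := W a * W b * pk |a - b| (a + b)

lemma KW_KU {W : ℝ → ℝ} {θ θ' : ℝ} (hW : WU W θ θ') (hθ' : θ' ≤ 518 / 1000) : KU (KW W) θ' where
  cont := by
    unfold KW
    have h1 := hW.cont
    have h2 : Continuous (fun p : ℝ × ℝ => pk |p.1 - p.2| (p.1 + p.2)) :=
      pk_cont.comp (show Continuous (fun p : ℝ × ℝ => (|p.1 - p.2|, p.1 + p.2)) by fun_prop)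
    exact ((h1.comp continuous_fst).mul (h1.comp continuous_snd)).mul h2
  nn := by
    intro a b ha hb
    unfold KW
    by_cases h1 : a < θ'
    · by_cases h2 : b < θ'
      · exact mul_nonneg (mul_nonneg (hW.nn _) (hW.nn _))
          (pk_nn ha hb (by linarith) (by linarith))
      · rw [hW.z b (not_lt.1 h2)]; simp
    · rw [hW.z a (not_lt.1 h1)]; simp
  z := by
    intro a b _ _ h
    unfold KW
    rcases h with h | h
    · rw [hW.z a h]; simp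
    · rw [hW.z b h]; simp

/-- the length of the polynomials -/
def N0 (T : ℝ) : ℕ := ⌊T ^ (5179 / 10000 : ℝ)⌋₊

theorem mean_Kd (hTSM : P_TSM2) (hNUM : P_NUM) : ∃ c : ℝ, 0 < c ∧ c < (4 / 5) / Real.Gamma (13 / 4) ∧
    ∀ᶠ T : ℝ in atTop, ∀ k : ℕ, Rng T k → ∀ ε : ℝ, |ε| ≤ 1 / 300 →
      ∑ m ∈ Icc 1 (N0 T), ∑ n ∈ Icc 1 (N0 T), dv (1 / 2) m * dv (1 / 2) n *
        Kd (Real.log T / 29) ε m n * ee k T m n ≤ aF (3 / 2) * c * Real.log T ^ (9 / 4 : ℝ) := by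
  have hW := Wl_WU (show (5179 / 10000 : ℝ) < 518 / 1000 by norm_num)
  set W := Wl (5179 / 10000) (518 / 1000) with hWd
  have hN := hNUM W _ _ hW (by norm_num) le_rfl
  have hA : 0 < aF (3 / 2) := aF_pos (by norm_num)
  have hG := Real.Gamma_pos_of_pos (show (0 : ℝ) < 13 / 4 by norm_num)
  have hI : ∫ u : Fin 3 → ℝ, GdI (m3 (1 / 2)) u * gb (KW W) u =
      ∫ u : Fin 3 → ℝ, GdI (m3 (1 / 2)) u * qk W u := by
    congr 1
    funext u
    unfold gb ga KW qk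
    rw [show u 0 + u 2 - (u 1 + u 2) = u 0 - u 1 by ring,
      show u 0 + u 2 + (u 1 + u 2) = u 0 + u 1 + 2 * u 2 by ring]
  have hpos : 0 < (4 / 5) / Real.Gamma (13 / 4) := by positivity
  obtain ⟨c1, hc1, hc1'⟩ := exists_between (max_lt hN hpos)
  obtain ⟨c2, hc2, hc2'⟩ := exists_between hc1'
  have hc1a : ∫ u : Fin 3 → ℝ, GdI (m3 (1 / 2)) u * qk W u < c1 := (le_max_left _ _).trans_lt hc1
  have hc1b : 0 < c1 := (le_max_right _ _).trans_lt hc1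
  refine ⟨c2, hc1b.trans hc2, hc2', ?_⟩
  have e32 : (1 / 2 + 1 : ℝ) = 3 / 2 := by norm_num
  have e94 : ((3 / 2 : ℝ)) ^ 2 = 9 / 4 := by norm_num
  have harith := arith_gen (κ := 1 / 2) (by norm_num) (KW_KU hW le_rfl) (by norm_num)
    (J := aF (3 / 2) * c1) (by
      rw [e32, hI]
      exact mul_lt_mul_of_pos_left hc1a hA)
  obtain ⟨η, hη, hbil⟩ := mean_bil hTSM (θ := 5179 / 10000) (by norm_num)
  have hsm : ∀ᶠ T : ℝ in atTop, Cx * T ^ (-η) ≤ aF (3 / 2) * (c2 - c1) := by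
    have : Tendsto (fun T : ℝ => Cx * T ^ (-η)) atTop (𝓝 (Cx * 0)) :=
      (tendsto_rpow_neg_atTop hη).const_mul _
    rw [mul_zero] at this
    exact this.eventually_le_const (mul_pos hA (by linarith))
  filter_upwards [harith, hbil, hsm, Real.tendsto_log_atTop.eventually_ge_atTop 1,
    eventually_gt_atTop 1] with T h1 h2 h3 hL hT1 k hk ε hε
  have hT0 : 0 < T := by linarith
  have hN0 : ((N0 T : ℕ) : ℝ) ≤ T ^ (5179 / 10000 : ℝ) := Nat.floor_le (by positivity)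
  have hE := Kd_err (h2 k hk (N0 T) hN0) (Real.log T / 29) ε
  have hF := h1 k hk
  rw [e32, e94] at hF
  set L := Real.log T with hLd
  have hL0 : 0 < L := by linarith
  have hP : 1 ≤ L ^ (9 / 4 : ℝ) := Real.one_le_rpow hL (by norm_num)
  -- the main term
  have hmain : ∑ m ∈ Icc 1 (N0 T), ∑ n ∈ Icc 1 (N0 T), dv (1 / 2) m * dv (1 / 2) n *
      Kd (L / 29) ε m n * La k T m n ≤
      ∑ x ∈ Icc 1 ⌊T ^ (518 / 1000 : ℝ)⌋₊ ×ˢ Icc 1 ⌊T ^ (518 / 1000 : ℝ)⌋₊,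
        F3 (1 / 2) (KW W) T (Yf k T) (Ck k) x.1 x.2 := by
    have hsub : Icc 1 (N0 T) ×ˢ Icc 1 (N0 T) ⊆
        Icc 1 ⌊T ^ (518 / 1000 : ℝ)⌋₊ ×ˢ Icc 1 ⌊T ^ (518 / 1000 : ℝ)⌋₊ := by
      have hle : N0 T ≤ ⌊T ^ (518 / 1000 : ℝ)⌋₊ := Nat.floor_le_floor
        (Real.rpow_le_rpow_of_exponent_le hT1.le (by norm_num))
      exact product_subset_product (Icc_subset_Icc_right hle) (Icc_subset_Icc_right hle)
    refine le_trans ?_ (sum_le_sum_of_subset_of_nonneg hsub fun x _ _ =>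
      F3_nn (by norm_num) (KW_KU hW le_rfl) hT1 _ _ _ _)
    rw [sum_product]
    refine sum_le_sum fun m hm => sum_le_sum fun n hn => ?_
    rw [mem_Icc] at hm hn
    have hlogn : ∀ n : ℕ, 1 ≤ n → n ≤ N0 T → 0 ≤ Real.log n / L ∧ Real.log n / L ≤ 5179 / 10000 := by
      intro n h1 h2
      have h1' : (1 : ℝ) ≤ n := by exact_mod_cast h1
      have h2' : (n : ℝ) ≤ T ^ (5179 / 10000 : ℝ) := le_trans (by exact_mod_cast h2) hN0
      refine ⟨div_nonneg (Real.log_nonneg h1') hL0.le, ?_⟩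
      rw [div_le_iff₀ hL0, ← Real.log_rpow hT0]
      exact Real.log_le_log (by linarith) h2'
    obtain ⟨m1, m2⟩ := hlogn m hm.1 hm.2
    obtain ⟨n1, n2⟩ := hlogn n hn.1 hn.2
    have hpk := AV_pk (ε := ε) m1 n1 (by linarith) (by linarith) hε
    have hK1 : Kd (L / 29) ε m n ≤ pk |Real.log m / L - Real.log n / L| (Real.log m / L + Real.log n / L) := by
      refine le_trans (le_of_eq ?_) hpk
      unfold Kd
      have e1 : Real.log m / (L / 29) = 29 * (Real.log m / L) := by field_simp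
      have e2 : Real.log n / (L / 29) = 29 * (Real.log n / L) := by field_simp
      rw [e1, e2]
    have hd1 := dv_nonneg (α := 1 / 2) (by norm_num) m
    have hd2 := dv_nonneg (α := 1 / 2) (by norm_num) n
    have hKn := Kd_nn (L / 29) ε m n
    have hLa : La k T m n ≤ 1 / (Nat.lcm m n : ℝ) *
        |Real.log (Yf k T * (Nat.gcd m n : ℝ) ^ 2 / ((m : ℝ) * n)) + Ck k| := by
      unfold La
      exact mul_le_mul_of_nonneg_left (le_abs_self _) (by positivity)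
    have hLa0 : 0 ≤ 1 / (Nat.lcm m n : ℝ) *
        |Real.log (Yf k T * (Nat.gcd m n : ℝ) ^ 2 / ((m : ℝ) * n)) + Ck k| := by positivity
    unfold F3 KW
    rw [← hLd, hW.one _ m2, hW.one _ n2, one_mul, one_mul]
    calc dv (1 / 2) m * dv (1 / 2) n * Kd (L / 29) ε m n * La k T m n ≤
          dv (1 / 2) m * dv (1 / 2) n * Kd (L / 29) ε m n * (1 / (Nat.lcm m n : ℝ) *
          |Real.log (Yf k T * (Nat.gcd m n : ℝ) ^ 2 / ((m : ℝ) * n)) + Ck k|) := by gcongr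
      _ ≤ _ := by gcongr
  have hsplit : ∑ m ∈ Icc 1 (N0 T), ∑ n ∈ Icc 1 (N0 T), dv (1 / 2) m * dv (1 / 2) n *
      Kd (L / 29) ε m n * ee k T m n = (∑ m ∈ Icc 1 (N0 T), ∑ n ∈ Icc 1 (N0 T),
        dv (1 / 2) m * dv (1 / 2) n * Kd (L / 29) ε m n * La k T m n) +
      ∑ m ∈ Icc 1 (N0 T), ∑ n ∈ Icc 1 (N0 T), dv (1 / 2) m * dv (1 / 2) n *
        Kd (L / 29) ε m n * (ee k T m n - La k T m n) := by
    rw [← sum_add_distrib]
    refine sum_congr rfl fun m _ => ?_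
    rw [← sum_add_distrib]
    refine sum_congr rfl fun n _ => ?_
    ring
  rw [hsplit]
  have h5 := (le_abs_self _).trans hE
  have h6 : aF (3 / 2) * (c2 - c1) ≤ aF (3 / 2) * (c2 - c1) * L ^ (9 / 4 : ℝ) :=
    le_mul_of_one_le_right (mul_pos hA (by linarith)).le hP
  have h7 : aF (3 / 2) * c2 * L ^ (9 / 4 : ℝ) = aF (3 / 2) * c1 * L ^ (9 / 4 : ℝ) +
      aF (3 / 2) * (c2 - c1) * L ^ (9 / 4 : ℝ) := by ring
  rw [h7]
  linarith

end

end Pool.Agent.L7h20.TM4
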