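import Pool.Agent.L7h20.TM4.Sm

set_option autoImplicit false

/-!
The mean of the averaged partial sums.
-/

namespace Pool.Agent.L7h20.TM4

open Finset Filter Topology MeasureTheory Complex
open Pool.Agent.H306R2 Pool.Agent.H306R2.SM
open Pool.Agent.H262R4.TM (P_TSM2 Rng Ck)
open Pool.Agent.L7h20.TM3 (wt wt_intg wt_nn zeta_cl_cont wt_cont)

noncomputable section

/-- the mean of a form with general coefficients -/
lemma int_gen {k : ℕ} {T : ℝ} (hT : 0 < T) (hk : 1 ≤ k) (N : ℕ) (A : ℕ → ℕ → ℝ) :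
    IntegrableOn (fun t => wt k T t * (∑ m ∈ Icc 1 N, ∑ n ∈ Icc 1 N, A m n * rr m n t)) (Set.Ioi 0) ∧
    ∫ t in Set.Ioi (0 : ℝ), wt k T t * (∑ m ∈ Icc 1 N, ∑ n ∈ Icc 1 N, A m n * rr m n t) =
      ∑ m ∈ Icc 1 N, ∑ n ∈ Icc 1 N, A m n * ee k T m n := by
  have e : ∀ t, wt k T t * (∑ m ∈ Icc 1 N, ∑ n ∈ Icc 1 N, A m n * rr m n t) =
      ∑ m ∈ Icc 1 N, ∑ n ∈ Icc 1 N, A m n * (wt k T t * rr m n t) := by
    intro t
    rw [mul_sum]
    refine sum_congr rfl fun m _ => ?_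
    rw [mul_sum]
    refine sum_congr rfl fun n _ => ?_
    ring
  simp only [e]
  refine ⟨integrable_finsetSum _ fun m _ => integrable_finsetSum _ fun n _ =>
    (rr_int hT hk m n).const_mul _, ?_⟩
  rw [integral_finsetSum]
  · refine sum_congr rfl fun m _ => ?_
    rw [integral_finsetSum]
    · refine sum_congr rfl fun n _ => ?_
      rw [integral_const_mul]
      rfl
    · intro n _
      exact (rr_int hT hk m n).const_mul _
  · intro m _
    exact integrable_finsetSum _ fun n _ => (rr_int hT hk m n).const_mul _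

lemma Rng_one {T : ℝ} {k : ℕ} (hL : 1 ≤ Real.log T) (hk : Rng T k) : 1 ≤ k := by
  have : (1 : ℝ) ≤ k := by
    refine le_trans ?_ hk.1
    nlinarith
  exact_mod_cast this

/-- powers of `T` below the length -/
lemma N0_large {a : ℝ} (ha : a < 5179 / 10000) (b : ℝ) :
    ∀ᶠ T : ℝ in atTop, ∀ x : ℝ, x ≤ a * Real.log T + b → Real.exp x ≤ N0 T := by
  have hb : 0 < 5179 / 10000 - a := by linarith
  have h1 := (tendsto_rpow_atTop hb).eventually_ge_atTop (Real.exp b + 1)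
  have h2 : ∀ᶠ T : ℝ in atTop, (T:ℝ) ^ a * 1 ≥ 1 ∨ a < 0 := by
    by_cases h : a < 0
    · exact Eventually.of_forall fun _ => Or.inr h
    · filter_upwards [eventually_ge_atTop 1] with T hT
      left
      rw [mul_one]
      exact Real.one_le_rpow hT (not_lt.1 h)
  have h3 := (tendsto_rpow_atTop (show (0:ℝ) < 5179 / 10000 by norm_num)).eventually_ge_atTop
    (Real.exp b + 1)
  filter_upwards [h1, h2, h3, eventually_gt_atTop 1] with T h1 h2 h3 hT x hx
  have hT0 : 0 < T := by linarith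
  have e1 : Real.exp x ≤ T ^ a * Real.exp b := by
    rw [Real.rpow_def_of_pos hT0, ← Real.exp_add]
    exact Real.exp_le_exp.2 (by linarith)
  have e2 : T ^ (5179 / 10000 : ℝ) ≤ N0 T + 1 := (Nat.lt_floor_add_one _).le
  rcases h2 with h2 | h2
  · rw [mul_one] at h2
    have e3 : T ^ (5179 / 10000 : ℝ) = T ^ a * T ^ (5179 / 10000 - a) := by
      rw [← Real.rpow_add hT0]
      congr 1
      ring
    have e4 : T ^ a * (Real.exp b + 1) ≤ T ^ (5179 / 10000 : ℝ) := by
      rw [e3]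
      exact mul_le_mul_of_nonneg_left h1 (by positivity)
    linarith
  · have e3 : T ^ a ≤ 1 := Real.rpow_le_one_of_one_le_of_nonpos hT.le h2.le
    have e4 : T ^ a * Real.exp b ≤ 1 * Real.exp b := mul_le_mul_of_nonneg_right e3 (Real.exp_pos _).le
    linarith

lemma UU_cont (N : ℕ) (D H : ℝ) : Continuous (fun t => UU N D H t) := by
  unfold UU
  refine continuous_finsetSum _ fun n _ => ?_
  exact continuous_const.mul (mo_cont n)

lemma UU_bd (N : ℕ) {D H : ℝ} (hH : 0 < H) (t : ℝ) : ‖UU N D H t‖ ≤ N := by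
  rw [← WW_zero N (c := 1) one_pos hH]
  exact WW_bd N 0 one_pos hH D t

theorem mean_UU (hTSM : P_TSM2) (hNUM : P_NUM) (hC : P_CELL) :
    ∃ c : ℝ, 0 < c ∧ c < (4 / 5) / Real.Gamma (13 / 4) ∧
    ∀ᶠ T : ℝ in atTop, ∀ k : ℕ, Rng T k → ∀ ε : ℝ, |ε| ≤ 1 / 300 →
      ∫ t in Set.Ioi (0:ℝ), wt k T t *
        ‖UU (N0 T) ((14 + ε) * (Real.log T / 29)) (Real.log T / 29) t‖ ≤
        aF (3 / 2) * c * Real.log T ^ (9 / 4 : ℝ) := by
  obtain ⟨c, hc, hc', h⟩ := mean_Kd hTSM hNUM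
  refine ⟨c, hc, hc', ?_⟩
  filter_upwards [h, N0_large (a := 51737 / 100000) (by norm_num) 0,
    Real.tendsto_log_atTop.eventually_ge_atTop 1, eventually_gt_atTop 1]
    with T h hN hL hT k hk ε hε
  have hT0 : 0 < T := by linarith
  have hk1 := Rng_one hL hk
  have hH : 0 < Real.log T / 29 := by positivity
  obtain ⟨i1, i2⟩ := int_gen hT0 hk1 (N0 T) (fun m n => dv (1 / 2) m * dv (1 / 2) n *
    Kd (Real.log T / 29) ε m n)
  refine le_trans ?_ (h k hk ε hε)
  rw [← i2]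
  refine setIntegral_mono_on ?_ i1 measurableSet_Ioi fun t ht => ?_
  · refine wt_intg hT0 hk1 (UU_cont _ _ _).norm ⟨(N0 T : ℝ), 0, fun t _ => ?_⟩
    rw [abs_of_nonneg (norm_nonneg _), pow_zero, mul_one]
    exact UU_bd _ hH t
  · refine mul_le_mul_of_nonneg_left ?_ (wt_nn hT0 (le_of_lt ht))
    have hε' := abs_le.1 hε
    refine UU_le hC hH (hN _ ?_) rfl (by linarith [hε'.2]) t
    have : ε * Real.log T ≤ 1 / 300 * Real.log T := by nlinarith [hε'.2]
    linarith

end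

end Pool.Agent.L7h20.TM4
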