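import Pool.Agent.L7h20.TM4.Pw

set_option autoImplicit false

/-!
The averaged partial sum is dominated by a quadratic form with kernel `Kd`.
-/

namespace Pool.Agent.L7h20.TM4

open Finset Filter Topology MeasureTheory Complex
open Pool.Agent.H306R2 Pool.Agent.H306R2.SM

noncomputable section

/-- the kernel of the majorant -/
def Kd (H ε : ℝ) (m n : ℕ) : ℝ := 1 / 2 * (AV (Real.log m / H) (Real.log n / H) +
  AV (Real.log m / H - ε + 1) (Real.log n / H - ε + 1))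

lemma AV_shift (a b : ℝ) : ∫ u in (0:ℝ)..1, XZ (⌊a + u⌋ + 1) (⌊b + u⌋ + 1) = AV (a + 1) (b + 1) := by
  have h := intervalIntegral.integral_comp_sub_left (a := 0) (b := 1)
    (fun u : ℝ => XZ (⌊a + u⌋ + 1) (⌊b + u⌋ + 1)) 1
  rw [sub_self, sub_zero] at h
  rw [← h]
  unfold AV
  refine intervalIntegral.integral_congr fun u _ => ?_
  show XZ (⌊a + (1 - u)⌋ + 1) (⌊b + (1 - u)⌋ + 1) = XZ (⌊a + 1 - u⌋ + 1) (⌊b + 1 - u⌋ + 1)
  rw [show a + (1 - u) = a + 1 - u by ring, show b + (1 - u) = b + 1 - u by ring]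

lemma XZ_meas2 (a b : ℝ) : Measurable (fun u : ℝ => XZ (⌊a + u⌋ + 1) (⌊b + u⌋ + 1)) :=
  ZZ_meas XZ (measurable_const.add measurable_id) (measurable_const.add measurable_id) 1 1

lemma XZ_ii2 (a b : ℝ) : IntervalIntegrable (fun u : ℝ => XZ (⌊a + u⌋ + 1) (⌊b + u⌋ + 1)) volume 0 1 :=
  bdd_ii (XZ_meas2 a b) (C := 3) (fun u => by
    rw [abs_of_nonneg (XZ_nn _ _)]; exact XZ_top _ _) _ _

lemma cz_ii (a b : ℝ) : IntervalIntegrable (fun u : ℝ => cz (⌊a - u⌋ + 1) (⌊b + u⌋ + 1)) volume 0 1 :=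
  bdd_ii (ZZ_meas cz (measurable_const.sub measurable_id) (measurable_const.add measurable_id) 1 1)
    (C := 1) (fun u => by
    rw [abs_of_nonneg (cz_nn _ _)]; exact cz_le _ _) _ _

lemma QZ_ii {ι : ℝ → ℕ → ℤ} (N : ℕ) (t : ℝ)
    (h : ∀ m n, IntervalIntegrable (fun u : ℝ => XZ (ι u m) (ι u n)) volume 0 1) :
    IntervalIntegrable (fun u => QZ (ι u) N t) volume 0 1 := by
  unfold QZ
  have h2 : (fun u => ∑ m ∈ Icc 1 N, ∑ n ∈ Icc 1 N, dv (1 / 2) m * dv (1 / 2) n *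
      XZ (ι u m) (ι u n) * rr m n t) = ∑ m ∈ Icc 1 N, ∑ n ∈ Icc 1 N,
        fun u => dv (1 / 2) m * dv (1 / 2) n * XZ (ι u m) (ι u n) * rr m n t := by
    funext u
    simp only [Finset.sum_apply]
  rw [h2]
  exact IntervalIntegrable.sum _ fun m _ => IntervalIntegrable.sum _ fun n _ =>
    ((h m n).const_mul _).mul_const _

lemma QZ_int {ι : ℝ → ℕ → ℤ} (N : ℕ) (t : ℝ)
    (h : ∀ m n, IntervalIntegrable (fun u : ℝ => XZ (ι u m) (ι u n)) volume 0 1) :
    ∫ u in (0:ℝ)..1, QZ (ι u) N t = ∑ m ∈ Icc 1 N, ∑ n ∈ Icc 1 N, dv (1 / 2) m * dv (1 / 2) n *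
      (∫ u in (0:ℝ)..1, XZ (ι u m) (ι u n)) * rr m n t := by
  unfold QZ
  rw [intervalIntegral.integral_finsetSum]
  · refine sum_congr rfl fun m _ => ?_
    rw [intervalIntegral.integral_finsetSum]
    · refine sum_congr rfl fun n _ => ?_
      rw [intervalIntegral.integral_mul_const, intervalIntegral.integral_const_mul]
    · intro n _
      exact ((h m n).const_mul _).mul_const _
  · intro m _
    have h2 : (fun u => ∑ n ∈ Icc 1 N, dv (1 / 2) m * dv (1 / 2) n *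
        XZ (ι u m) (ι u n) * rr m n t) = ∑ n ∈ Icc 1 N,
          fun u => dv (1 / 2) m * dv (1 / 2) n * XZ (ι u m) (ι u n) * rr m n t := by
      funext u
      simp only [Finset.sum_apply]
    rw [h2]
    exact IntervalIntegrable.sum _ fun n _ => ((h m n).const_mul _).mul_const _

theorem UU_le (hC : P_CELL) {N : ℕ} {D H ε : ℝ} (hH : 0 < H) (hN : Real.exp (D + H) ≤ N)
    (hD : D = (14 + ε) * H) (hε : ε ≤ 1) (t : ℝ) :
    ‖UU N D H t‖ ≤ ∑ m ∈ Icc 1 N, ∑ n ∈ Icc 1 N,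
      dv (1 / 2) m * dv (1 / 2) n * Kd H ε m n * rr m n t := by
  set ι : ℝ → ℕ → ℤ := fun u m => ⌊Real.log m / H - u⌋ + 1 with hι
  set κ : ℝ → ℕ → ℤ := fun u n => ⌊(Real.log n / H - ε) + u⌋ + 1 with hκ
  have hκ' : ∀ m n, IntervalIntegrable (fun u : ℝ => XZ (κ u m) (κ u n)) volume 0 1 :=
    fun m n => XZ_ii2 _ _
  have hι' : ∀ m n, IntervalIntegrable (fun u : ℝ => XZ (ι u m) (ι u n)) volume 0 1 :=
    fun m n => XZ_ii _ _
  have hcz : ∀ m n : ℕ, vv ((Real.log m + Real.log n - D) / H) =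
      ∫ u in (0:ℝ)..1, cz (ι u m) (κ u n) := by
    intro m n
    rw [hι, hκ]
    simp only
    rw [stair_int]
    congr 1
    rw [hD]
    field_simp
    ring
  have hczi : ∀ m n : ℕ, IntervalIntegrable (fun u : ℝ => cz (ι u m) (κ u n)) volume 0 1 :=
    fun m n => cz_ii _ _
  have hterm : ∀ m n : ℕ, IntervalIntegrable (fun u : ℝ => (dv (1 / 2) m : ℂ) * (dv (1 / 2) n : ℂ) *
      (cz (ι u m) (κ u n) : ℂ) * (mo m t * mo n t)) volume 0 1 := by
    intro m n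
    have h1 : IntervalIntegrable (fun u : ℝ => ((cz (ι u m) (κ u n) : ℝ) : ℂ)) volume 0 1 :=
      ⟨(hczi m n).1.ofReal, (hczi m n).2.ofReal⟩
    exact (h1.const_mul _).mul_const _
  have hsum1 : ∀ m, IntervalIntegrable (fun u : ℝ => ∑ n ∈ Icc 1 N, (dv (1 / 2) m : ℂ) *
      (dv (1 / 2) n : ℂ) * (cz (ι u m) (κ u n) : ℂ) * (mo m t * mo n t)) volume 0 1 := by
    intro m
    have h2 : (fun u : ℝ => ∑ n ∈ Icc 1 N, (dv (1 / 2) m : ℂ) *
        (dv (1 / 2) n : ℂ) * (cz (ι u m) (κ u n) : ℂ) * (mo m t * mo n t)) = ∑ n ∈ Icc 1 N,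
          fun u : ℝ => (dv (1 / 2) m : ℂ) *
        (dv (1 / 2) n : ℂ) * (cz (ι u m) (κ u n) : ℂ) * (mo m t * mo n t) := by
      funext u
      simp only [Finset.sum_apply]
    rw [h2]
    exact IntervalIntegrable.sum _ fun n _ => hterm m n
  have hsum2 : IntervalIntegrable (fun u : ℝ => ∑ m ∈ Icc 1 N, ∑ n ∈ Icc 1 N, (dv (1 / 2) m : ℂ) *
      (dv (1 / 2) n : ℂ) * (cz (ι u m) (κ u n) : ℂ) * (mo m t * mo n t)) volume 0 1 := by
    have h2 : (fun u : ℝ => ∑ m ∈ Icc 1 N, ∑ n ∈ Icc 1 N, (dv (1 / 2) m : ℂ) *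
        (dv (1 / 2) n : ℂ) * (cz (ι u m) (κ u n) : ℂ) * (mo m t * mo n t)) = ∑ m ∈ Icc 1 N,
          fun u : ℝ => ∑ n ∈ Icc 1 N, (dv (1 / 2) m : ℂ) *
        (dv (1 / 2) n : ℂ) * (cz (ι u m) (κ u n) : ℂ) * (mo m t * mo n t) := by
      funext u
      simp only [Finset.sum_apply]
    rw [h2]
    exact IntervalIntegrable.sum _ fun m _ => hsum1 m
  have hU : UU N D H t = ∫ u in (0:ℝ)..1, ∑ m ∈ Icc 1 N, ∑ n ∈ Icc 1 N, (dv (1 / 2) m : ℂ) *
      (dv (1 / 2) n : ℂ) * (cz (ι u m) (κ u n) : ℂ) * (mo m t * mo n t) := by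
    rw [UU_bil hH hN, intervalIntegral.integral_finsetSum (fun m _ => hsum1 m)]
    refine sum_congr rfl fun m _ => ?_
    rw [intervalIntegral.integral_finsetSum (fun n _ => hterm m n)]
    refine sum_congr rfl fun n _ => ?_
    rw [intervalIntegral.integral_mul_const, intervalIntegral.integral_const_mul,
      intervalIntegral.integral_ofReal, hcz]
  rw [hU]
  refine (intervalIntegral.norm_integral_le_integral_norm (by norm_num)).trans ?_
  have hle : ∀ u ∈ Set.Icc (0:ℝ) 1, ‖∑ m ∈ Icc 1 N, ∑ n ∈ Icc 1 N, (dv (1 / 2) m : ℂ) *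
      (dv (1 / 2) n : ℂ) * (cz (ι u m) (κ u n) : ℂ) * (mo m t * mo n t)‖ ≤
      1 / 2 * (QZ (ι u) N t + QZ (κ u) N t) := by
    intro u hu
    refine stair_le hC (ι u) (κ u) ?_ ?_ N t
    · intro m hm
      rw [hι]
      simp only
      have h1 : 0 ≤ Real.log m / H := div_nonneg (Real.log_natCast_nonneg m) hH.le
      have h2 : -1 ≤ ⌊Real.log m / H - u⌋ := by
        rw [Int.le_floor]; push_cast; linarith [hu.2]
      omega
    · intro m hm
      rw [hκ]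
      simp only
      have h1 : 0 ≤ Real.log m / H := div_nonneg (Real.log_natCast_nonneg m) hH.le
      have h2 : -1 ≤ ⌊(Real.log m / H - ε) + u⌋ := by
        rw [Int.le_floor]; push_cast; linarith [hu.1]
      omega
  have hi1 := QZ_ii (ι := ι) N t hι'
  have hi2 := QZ_ii (ι := κ) N t hκ'
  have hQ := intervalIntegral.integral_mono_on (by norm_num : (0:ℝ) ≤ 1) hsum2.norm
    ((hi1.add hi2).const_mul (1 / 2)) hle
  refine hQ.trans (le_of_eq ?_)
  rw [intervalIntegral.integral_const_mul, intervalIntegral.integral_add hi1 hi2, QZ_int N t hι',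
    QZ_int N t hκ', ← sum_add_distrib, mul_sum]
  refine sum_congr rfl fun m _ => ?_
  rw [← sum_add_distrib, mul_sum]
  refine sum_congr rfl fun n _ => ?_
  have e1 : ∫ u in (0:ℝ)..1, XZ (ι u m) (ι u n) = AV (Real.log m / H) (Real.log n / H) := rfl
  have e2 : ∫ u in (0:ℝ)..1, XZ (κ u m) (κ u n) =
      AV (Real.log m / H - ε + 1) (Real.log n / H - ε + 1) := AV_shift _ _
  rw [e1, e2]
  unfold Kd
  ring

end

end Pool.Agent.L7h20.TM4
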