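import Pool.Agent.L7h20.TM4.MeanU
import Pool.Agent.H448R2.GC.K1

set_option autoImplicit false

/-!
Window averages of the smoothed partial sums.
-/

namespace Pool.Agent.L7h20.TM4

open Finset Filter Topology MeasureTheory Complex
open Pool.Agent.H306R2 Pool.Agent.H306R2.SM
open Pool.Agent.L7h20.TM3 (wt wt_intg wt_nn zeta_cl_cont wt_cont)
open Pool.Agent.H448R2.GC (cu cu_nonneg cu_le_one cu_cont)

noncomputable section

lemma par_cont {f : ℝ → ℝ → ℝ} (hf : Continuous (fun z : ℝ × ℝ => f z.1 z.2)) (a b : ℝ) :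
    Continuous (fun t => ∫ s in a..b, f s t) :=
  intervalIntegral.continuous_parametric_intervalIntegral_of_continuous'
    (f := fun t s => f s t) (hf.comp (continuous_snd.prodMk continuous_fst)) a b

lemma par_bd {f : ℝ → ℝ → ℝ} {B : ℝ} (hB : ∀ s t, |f s t| ≤ B) {a b : ℝ} (hab : a ≤ b) (t : ℝ) :
    |∫ s in a..b, f s t| ≤ B * (b - a) := by
  have hb := intervalIntegral.norm_integral_le_of_norm_le_const (a := a) (b := b) (C := B)
    (f := fun s => f s t) (fun u _ => hB u t)
  rwa [Real.norm_eq_abs, abs_of_nonneg (by linarith : 0 ≤ b - a)] at hb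

lemma par_int {k : ℕ} {T : ℝ} (hT : 0 < T) (hk : 1 ≤ k) {f : ℝ → ℝ → ℝ}
    (hf : Continuous (fun z : ℝ × ℝ => f z.1 z.2)) {B : ℝ} (hB : ∀ s t, |f s t| ≤ B) {a b : ℝ}
    (hab : a ≤ b) (c : ℝ) :
    IntegrableOn (fun t => wt k T t * (c * ∫ s in a..b, f s t)) (Set.Ioi 0) := by
  refine wt_intg hT hk (g := fun t => c * ∫ s in a..b, f s t)
    (continuous_const.mul (par_cont hf a b)) ⟨|c| * (B * (b - a)), 0, fun t _ => ?_⟩
  rw [pow_zero, mul_one, abs_mul]
  exact mul_le_mul_of_nonneg_left (par_bd hB hab t) (abs_nonneg _)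

/-- Fubini for the weighted mean and an average over a window -/
lemma avg_fub {k : ℕ} {T : ℝ} (hT : 0 < T) (hk : 1 ≤ k) {f : ℝ → ℝ → ℝ}
    (hf : Continuous (fun z : ℝ × ℝ => f z.1 z.2)) {B : ℝ} (hB : ∀ s t, |f s t| ≤ B) {a b : ℝ}
    (hab : a ≤ b) :
    ∫ t in Set.Ioi (0:ℝ), wt k T t * (∫ s in a..b, f s t) =
      ∫ s in a..b, (∫ t in Set.Ioi (0:ℝ), wt k T t * f s t) := by
  simp only [intervalIntegral.integral_of_le hab]
  have e : ∀ t, wt k T t * (∫ s in Set.Ioc a b, f s t) = ∫ s in Set.Ioc a b, wt k T t * f s t := by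
    intro t
    rw [integral_const_mul]
  simp only [e]
  refine integral_integral_swap ?_
  have h1 : IntegrableOn (fun t => wt k T t * 1) (Set.Ioi 0) :=
    wt_intg hT hk continuous_const ⟨1, 0, fun t _ => by simp⟩
  simp only [mul_one] at h1
  have h2 : Integrable (fun _ : ℝ => B) (volume.restrict (Set.Ioc a b)) := by
    have : IsFiniteMeasure (volume.restrict (Set.Ioc a b)) :=
      ⟨by rw [Measure.restrict_apply_univ]; exact measure_Ioc_lt_top⟩
    exact integrable_const B
  have h3 := (h1.norm).mul_prod h2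
  refine h3.mono' ?_ ?_
  · refine Continuous.aestronglyMeasurable ?_
    unfold Function.uncurry
    have := wt_cont k T
    exact (this.comp continuous_fst).mul (hf.comp (continuous_snd.prodMk continuous_fst))
  · refine Eventually.of_forall fun z => ?_
    unfold Function.uncurry
    simp only
    rw [norm_mul]
    exact mul_le_mul_of_nonneg_left (hB _ _) (norm_nonneg _)

/-! ### the weights -/

/-- primitive of the cutoff -/
def Pr (k : ℕ) (c x : ℝ) : ℝ := ∫ u in (0:ℝ)..x, cu k c u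

lemma Pr_cont (k : ℕ) {c : ℝ} (hc : 0 < c) : Continuous (Pr k c) :=
  intervalIntegral.continuous_primitive
    (fun a b => Pool.Agent.H448R2.GC.K1.cu_int c hc k a b) 0

/-- window average of the cutoff -/
def uk (k : ℕ) (c H r : ℝ) : ℝ := (1 / H) * ∫ τ in (0:ℝ)..H, cu k c (r - τ)

lemma cu_avg (k : ℕ) {c : ℝ} (hc : 0 < c) (H r : ℝ) :
    ∫ τ in (0:ℝ)..H, cu k c (r - τ) = Pr k c r - Pr k c (r - H) := by
  have h := intervalIntegral.integral_comp_sub_left (a := 0) (b := H) (fun u => cu k c u) r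
  rw [sub_zero] at h
  rw [h]
  unfold Pr
  rw [intervalIntegral.integral_interval_sub_left
    (Pool.Agent.H448R2.GC.K1.cu_int c hc k _ _) (Pool.Agent.H448R2.GC.K1.cu_int c hc k _ _)]

lemma uk_eq (k : ℕ) {c : ℝ} (hc : 0 < c) (H r : ℝ) :
    uk k c H r = (1 / H) * (Pr k c r - Pr k c (r - H)) := by
  unfold uk
  rw [cu_avg k hc]

lemma uk_cont (k : ℕ) {c : ℝ} (hc : 0 < c) (H : ℝ) : Continuous (uk k c H) := by
  have e : uk k c H = fun r => (1 / H) * (Pr k c r - Pr k c (r - H)) := by
    funext r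
    exact uk_eq k hc H r
  rw [e]
  have := Pr_cont k hc
  fun_prop

lemma Pr_zero (c : ℝ) (hc : 0 < c) (x : ℝ) : Pr 0 c x = min x 0 := by
  unfold Pr
  rcases le_total x 0 with h | h
  · rw [min_eq_left h, intervalIntegral.integral_symm]
    have : ∫ u in x..(0:ℝ), cu 0 c u = ∫ u in x..(0:ℝ), (1:ℝ) := by
      refine intervalIntegral.integral_congr fun u hu => ?_
      rw [Set.uIcc_of_le h] at hu
      simp only [cu]
      rw [if_pos hu.2]
    rw [this]; simp
  · rw [min_eq_right h]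
    have : ∫ u in (0:ℝ)..x, cu 0 c u = ∫ u in (0:ℝ)..x, (0:ℝ) := by
      refine intervalIntegral.integral_congr_ae (Eventually.of_forall fun u hu => ?_)
      rw [Set.uIoc_of_le h] at hu
      simp only [cu]
      rw [if_neg (not_le.2 hu.1)]
    rw [this]; simp

lemma uk_zero {c : ℝ} (hc : 0 < c) {H : ℝ} (hH : 0 < H) (r : ℝ) : uk 0 c H r = vv (r / H) := by
  rw [uk_eq 0 hc, Pr_zero c hc, Pr_zero c hc]
  rcases le_total r 0 with h | h
  · rw [vv_one (div_nonpos_of_nonpos_of_nonneg h hH.le), min_eq_left h, min_eq_left (by linarith)]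
    field_simp
    ring
  · rcases le_total r H with h1 | h1
    · rw [vv_mid (by positivity) (by rw [div_le_one hH]; exact h1), min_eq_right h,
        min_eq_left (by linarith)]
      field_simp
      ring
    · rw [vv_zero (by rw [le_div_iff₀ hH]; linarith), min_eq_right h, min_eq_right (by linarith)]
      simp

lemma Pr_ii (k : ℕ) {c : ℝ} (hc : 0 < c) (a b : ℝ) : IntervalIntegrable (Pr k c) volume a b :=
  (Pr_cont k hc).intervalIntegrable _ _

lemma uk_succ (k : ℕ) {c : ℝ} (hc : 0 < c) {H : ℝ} (hH : 0 < H) (r : ℝ) :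
    uk (k + 1) c H r = (1 / c) * ∫ σ in (0:ℝ)..c, uk k c H (r - σ) := by
  have h1 : uk (k + 1) c H r = (1 / H) * (1 / c) *
      ((∫ τ in (0:ℝ)..H, Pr k c (r - τ)) - ∫ τ in (0:ℝ)..H, Pr k c (r - c - τ)) := by
    unfold uk
    rw [mul_assoc]
    congr 1
    rw [← intervalIntegral.integral_sub, ← intervalIntegral.integral_const_mul]
    · refine intervalIntegral.integral_congr fun τ _ => ?_
      show cu (k + 1) c (r - τ) = _
      rw [show r - c - τ = (r - τ) - c by ring, ← cu_avg k hc]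
      rfl
    · exact ((Pr_cont k hc).comp (by fun_prop : Continuous (fun τ : ℝ => r - τ))).intervalIntegrable _ _
    · exact ((Pr_cont k hc).comp (by fun_prop : Continuous (fun τ : ℝ => r - c - τ))).intervalIntegrable _ _
  have h2 : (1 / c) * ∫ σ in (0:ℝ)..c, uk k c H (r - σ) = (1 / H) * (1 / c) *
      ((∫ σ in (0:ℝ)..c, Pr k c (r - σ)) - ∫ σ in (0:ℝ)..c, Pr k c (r - H - σ)) := by
    rw [mul_comm (1 / H), mul_assoc]
    congr 1
    rw [← intervalIntegral.integral_sub, ← intervalIntegral.integral_const_mul]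
    · refine intervalIntegral.integral_congr fun σ _ => ?_
      show uk k c H (r - σ) = _
      rw [uk_eq k hc, show r - H - σ = (r - σ) - H by ring]
    · exact ((Pr_cont k hc).comp (by fun_prop : Continuous (fun τ : ℝ => r - τ))).intervalIntegrable _ _
    · exact ((Pr_cont k hc).comp (by fun_prop : Continuous (fun τ : ℝ => r - H - τ))).intervalIntegrable _ _
  rw [h1, h2]
  congr 1
  -- second primitive
  have hQ : ∀ x y : ℝ, ∫ τ in (0:ℝ)..y, Pr k c (x - τ) =
      (∫ u in (0:ℝ)..x, Pr k c u) - ∫ u in (0:ℝ)..(x - y), Pr k c u := by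
    intro x y
    have h := intervalIntegral.integral_comp_sub_left (a := 0) (b := y) (fun u => Pr k c u) x
    rw [sub_zero] at h
    rw [h, intervalIntegral.integral_interval_sub_left (Pr_ii k hc _ _) (Pr_ii k hc _ _)]
  rw [hQ, hQ, hQ, hQ, show r - c - H = r - H - c by ring]
  ring

lemma uk_bd (k : ℕ) {c : ℝ} (hc : 0 < c) {H : ℝ} (hH : 0 < H) (r : ℝ) : |uk k c H r| ≤ 1 := by
  unfold uk
  have h := intervalIntegral.norm_integral_le_of_norm_le_const (a := 0) (b := H) (C := 1)
    (f := fun τ => cu k c (r - τ)) (fun u _ => by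
      rw [Real.norm_eq_abs, abs_of_nonneg (cu_nonneg k c _ hc)]
      exact cu_le_one k c _ hc)
  rw [Real.norm_eq_abs, sub_zero, one_mul, abs_of_pos hH] at h
  rw [abs_mul, abs_of_pos (by positivity : 0 < 1 / H)]
  calc 1 / H * |∫ τ in (0:ℝ)..H, cu k c (r - τ)| ≤ 1 / H * H := by gcongr
    _ = 1 := by field_simp

/-- the window average of the smoothed partial sum -/
def WW (N k : ℕ) (c H D t : ℝ) : ℂ := ∑ n ∈ Icc 1 N, ((uk k c H (Real.log n - D) : ℝ) : ℂ) * mo n t

lemma WW_zero (N : ℕ) {c : ℝ} (hc : 0 < c) {H : ℝ} (hH : 0 < H) (D t : ℝ) :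
    WW N 0 c H D t = UU N D H t := by
  unfold WW UU
  refine sum_congr rfl fun n _ => ?_
  rw [uk_zero hc hH]

lemma WW_cont (N k : ℕ) {c : ℝ} (hc : 0 < c) (H : ℝ) :
    Continuous (fun z : ℝ × ℝ => WW N k c H z.1 z.2) := by
  unfold WW
  refine continuous_finsetSum _ fun n _ => ?_
  have h1 := uk_cont k hc H
  have h2 := mo_cont n
  exact (Complex.continuous_ofReal.comp (h1.comp (by fun_prop :
    Continuous (fun z : ℝ × ℝ => Real.log n - z.1)))).mul (h2.comp continuous_snd)

lemma WW_bd (N k : ℕ) {c : ℝ} (hc : 0 < c) {H : ℝ} (hH : 0 < H) (D t : ℝ) :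
    ‖WW N k c H D t‖ ≤ N := by
  unfold WW
  refine (norm_sum_le _ _).trans ?_
  have h : ∀ n ∈ Icc 1 N, ‖((uk k c H (Real.log n - D) : ℝ) : ℂ) * mo n t‖ ≤ 1 := by
    intro n _
    rw [norm_mul, Complex.norm_real, Real.norm_eq_abs]
    exact mul_le_one₀ (uk_bd k hc hH _) (norm_nonneg _) (mo_norm t)
  refine (sum_le_sum h).trans ?_
  simp

lemma WW_succ (N k : ℕ) {c : ℝ} (hc : 0 < c) {H : ℝ} (hH : 0 < H) (D t : ℝ) :
    WW N (k + 1) c H D t = (1 / c : ℝ) * ∫ σ in (0:ℝ)..c, WW N k c H (D + σ) t := by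
  unfold WW
  have hii : ∀ n : ℕ, IntervalIntegrable (fun σ : ℝ => ((uk k c H (Real.log n - (D + σ)) : ℝ) : ℂ))
      volume 0 c := by
    intro n
    exact (Complex.continuous_ofReal.comp ((uk_cont k hc H).comp (by fun_prop :
      Continuous (fun σ : ℝ => Real.log n - (D + σ))))).intervalIntegrable _ _
  rw [intervalIntegral.integral_finsetSum (fun n _ => (hii n).mul_const _), mul_sum]
  refine sum_congr rfl fun n _ => ?_
  rw [intervalIntegral.integral_mul_const, intervalIntegral.integral_ofReal, uk_succ k hc hH]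
  have e : ∀ σ : ℝ, Real.log n - (D + σ) = Real.log n - D - σ := fun σ => by ring
  simp only [e]
  push_cast
  ring

/-- the mean of the window average -/
def WM (κ : ℕ) (T : ℝ) (N k : ℕ) (c H D : ℝ) : ℝ :=
  ∫ t in Set.Ioi (0:ℝ), wt κ T t * ‖WW N k c H D t‖

lemma WM_int {κ : ℕ} {T : ℝ} (hT : 0 < T) (hκ : 1 ≤ κ) (N k : ℕ) {c : ℝ} (hc : 0 < c) {H : ℝ}
    (hH : 0 < H) (D : ℝ) :
    IntegrableOn (fun t => wt κ T t * ‖WW N k c H D t‖) (Set.Ioi 0) := by
  refine wt_intg hT hκ (((WW_cont N k hc H).comp (Continuous.prodMk_right D)).norm)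
    ⟨N, 0, fun t _ => ?_⟩
  rw [abs_of_nonneg (norm_nonneg _), pow_zero, mul_one]
  exact WW_bd N k hc hH D t

/-- the smoothing does not increase the supremum of the means -/
theorem WM_le {κ : ℕ} {T : ℝ} (hT : 0 < T) (hκ : 1 ≤ κ) (N : ℕ) {c : ℝ} (hc : 0 < c) {H : ℝ}
    (hH : 0 < H) {M A : ℝ} (k : ℕ) : ∀ B : ℝ, (∀ D, A ≤ D → D ≤ B + k * c →
      ∫ t in Set.Ioi (0:ℝ), wt κ T t * ‖UU N D H t‖ ≤ M) →
    ∀ D, A ≤ D → D ≤ B → WM κ T N k c H D ≤ M := by
  induction k with
  | zero =>
    intro B h D h1 h2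
    have := h D h1 (by push_cast; linarith)
    unfold WM
    simp only [WW_zero N hc hH]
    exact this
  | succ k ih =>
    intro B h D h1 h2
    have ih' := ih (B + c) (fun D' a1 a2 => h D' a1 (by push_cast; linarith))
    have hcont : Continuous (fun z : ℝ × ℝ => ‖WW N k c H (D + z.1) z.2‖) := by
      exact ((WW_cont N k hc H).comp (by fun_prop : Continuous (fun z : ℝ × ℝ => (D + z.1, z.2)))).norm
    have hfub := avg_fub hT hκ (f := fun s t => ‖WW N k c H (D + s) t‖) hcont (B := N)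
      (fun s t => by rw [abs_of_nonneg (norm_nonneg _)]; exact WW_bd N k hc hH _ t) hc.le
    have hcs : ∀ t, ‖WW N (k + 1) c H D t‖ ≤ (1 / c) * ∫ s in (0:ℝ)..c, ‖WW N k c H (D + s) t‖ := by
      intro t
      rw [WW_succ N k hc hH, norm_mul, Complex.norm_real, Real.norm_of_nonneg (by positivity)]
      exact mul_le_mul_of_nonneg_left (intervalIntegral.norm_integral_le_integral_norm hc.le)
        (by positivity)
    have hint2 := par_int hT hκ (f := fun s t => ‖WW N k c H (D + s) t‖) hcont (B := N)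
      (fun s t => by rw [abs_of_nonneg (norm_nonneg _)]; exact WW_bd N k hc hH _ t) hc.le (1 / c)
    unfold WM
    calc ∫ t in Set.Ioi (0:ℝ), wt κ T t * ‖WW N (k + 1) c H D t‖ ≤
        ∫ t in Set.Ioi (0:ℝ), wt κ T t * ((1 / c) * ∫ s in (0:ℝ)..c, ‖WW N k c H (D + s) t‖) := by
          refine setIntegral_mono_on (WM_int hT hκ N (k + 1) hc hH D) hint2 measurableSet_Ioi
            fun t ht => ?_
          exact mul_le_mul_of_nonneg_left (hcs t) (wt_nn hT (le_of_lt ht))
      _ = (1 / c) * ∫ t in Set.Ioi (0:ℝ), wt κ T t * ∫ s in (0:ℝ)..c, ‖WW N k c H (D + s) t‖ := by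
          rw [← integral_const_mul]
          refine integral_congr_ae (Eventually.of_forall fun t => ?_)
          simp only
          ring
      _ = (1 / c) * ∫ s in (0:ℝ)..c, WM κ T N k c H (D + s) := by
          rw [hfub]
          rfl
      _ ≤ (1 / c) * (c * M) := by
          refine mul_le_mul_of_nonneg_left ?_ (by positivity)
          have hm : ∀ s ∈ Set.Icc (0:ℝ) c, WM κ T N k c H (D + s) ≤ M := fun s hs =>
            ih' (D + s) (by linarith [hs.1]) (by linarith [hs.2])
          have hM0 : 0 ≤ M := by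
            refine le_trans ?_ (hm 0 ⟨le_rfl, hc.le⟩)
            exact setIntegral_nonneg measurableSet_Ioi fun t ht =>
              mul_nonneg (wt_nn hT (le_of_lt ht)) (norm_nonneg _)
          have h0 : ∀ s, 0 ≤ WM κ T N k c H (D + s) := fun s =>
            setIntegral_nonneg measurableSet_Ioi fun t ht =>
              mul_nonneg (wt_nn hT (le_of_lt ht)) (norm_nonneg _)
          have hb := intervalIntegral.norm_integral_le_of_norm_le_const (a := 0) (b := c) (C := M)
            (f := fun s => WM κ T N k c H (D + s)) (fun u hu => by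
              rw [Set.uIoc_of_le hc.le] at hu
              rw [Real.norm_of_nonneg (h0 u)]
              exact hm u ⟨hu.1.le, hu.2⟩)
          rw [sub_zero, abs_of_pos hc] at hb
          have := (Real.le_norm_self _).trans hb
          linarith
      _ = M := by field_simp

end

end Pool.Agent.L7h20.TM4
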